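import Mathlib

/-!
The radial profiles and the scales used in the construction.
-/

open Topology Filter Set
open scoped NNReal ENNReal

namespace Pool.Agent.Lib.MP_bd3523_gt

/-- A smooth bump: zero outside `(0,3)`, one on `[1,2]`. -/
noncomputable def chi (τ : ℝ) : ℝ := Real.smoothTransition τ * Real.smoothTransition (3 - τ)

lemma chi_nonneg (τ : ℝ) : 0 ≤ chi τ :=
  mul_nonneg (Real.smoothTransition.nonneg _) (Real.smoothTransition.nonneg _)

lemma chi_le_one (τ : ℝ) : chi τ ≤ 1 :=
  mul_le_one₀ (Real.smoothTransition.le_one _) (Real.smoothTransition.nonneg _)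
    (Real.smoothTransition.le_one _)

lemma chi_of_nonpos {τ : ℝ} (h : τ ≤ 0) : chi τ = 0 := by
  unfold chi
  rw [Real.smoothTransition.zero_of_nonpos h, zero_mul]

lemma chi_of_ge {τ : ℝ} (h : 3 ≤ τ) : chi τ = 0 := by
  unfold chi
  rw [Real.smoothTransition.zero_of_nonpos (by linarith : 3 - τ ≤ 0), mul_zero]

lemma chi_eq_one {τ : ℝ} (h1 : 1 ≤ τ) (h2 : τ ≤ 2) : chi τ = 1 := by
  unfold chi
  rw [Real.smoothTransition.one_of_one_le h1,
    Real.smoothTransition.one_of_one_le (by linarith : 1 ≤ 3 - τ), mul_one]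

lemma chi_contDiff : ContDiff ℝ 1 chi := by
  have h1 : ContDiff ℝ 1 Real.smoothTransition := Real.smoothTransition.contDiff (n := 1)
  exact h1.mul (h1.comp (contDiff_const.sub contDiff_id))

lemma chi_lip : ∃ M : ℝ≥0, LipschitzWith M chi := by
  apply ContDiff.lipschitzWith_of_hasCompactSupport (𝕂 := ℝ) (n := 1) _ chi_contDiff
  · norm_num
  · apply HasCompactSupport.of_support_subset_isCompact (K := Icc 0 3) isCompact_Icc
    intro x hx
    by_contra hcon
    apply hx
    rw [mem_Icc, not_and_or, not_le, not_le] at hcon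
    rcases hcon with h | h
    · exact chi_of_nonpos h.le
    · exact chi_of_ge h.le

/-- A Lipschitz constant of `chi`. -/
noncomputable def MM : ℝ≥0 := chi_lip.choose

lemma chi_lipschitz : LipschitzWith MM chi := chi_lip.choose_spec

/-- The slopes. -/
noncomputable def kap (m : ℕ) : ℝ := 1 / (4 ^ (m + 2) * (MM + 1))

lemma kap_pos (m : ℕ) : 0 < kap m := by
  unfold kap
  have : (0 : ℝ) ≤ MM := MM.2
  positivity

lemma kap_le (m : ℕ) : kap m ≤ 1 / 16 := by
  unfold kap
  have h0 : (0 : ℝ) ≤ MM := MM.2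
  have h1 : (1 : ℝ) ≤ 4 ^ m := one_le_pow₀ (by norm_num)
  apply one_div_le_one_div_of_le (by norm_num)
  rw [pow_add]
  nlinarith

/-- error at level `m` -/
lemma kap_err (m : ℕ) : 2 ^ m * (2 * MM * kap m) ≤ (1 / 2) ^ m / 8 := by
  unfold kap
  have h0 : (0 : ℝ) ≤ MM := MM.2
  have e : (4 : ℝ) ^ (m + 2) = 2 ^ m * 2 ^ m * 16 := by
    rw [pow_add, ← mul_pow]; norm_num
  rw [e]
  have h2 : (0 : ℝ) < 2 ^ m := by positivity
  have h3 : (1 / 2 : ℝ) ^ m = 1 / 2 ^ m := by rw [one_div_pow]
  rw [h3]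
  have h4 : (2 : ℝ) ^ m * (2 * MM * (1 / (2 ^ m * 2 ^ m * 16 * (MM + 1)))) =
      (MM / (MM + 1)) * (1 / 2 ^ m / 8) := by
    field_simp
    ring
  rw [h4]
  have h5 : (MM : ℝ) / (MM + 1) ≤ 1 := by rw [div_le_one (by positivity)]; linarith
  have h6 : (0 : ℝ) ≤ 1 / 2 ^ m / 8 := by positivity
  nlinarith

/-- The inner radii. -/
noncomputable def rr : ℕ → ℝ
  | 0 => 1
  | m + 1 => rr m / 8 * Real.exp (-(3 / (2 * kap (m + 1))))

/-- The outer radii. -/
noncomputable def RR (m : ℕ) : ℝ := rr m * Real.exp (3 / (2 * kap m))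

lemma rr_pos (m : ℕ) : 0 < rr m := by
  induction m with
  | zero => exact one_pos
  | succ m ih => unfold rr; positivity

lemma RR_pos (m : ℕ) : 0 < RR m := mul_pos (rr_pos m) (Real.exp_pos _)

lemma RR_succ (m : ℕ) : RR (m + 1) = rr m / 8 := by
  unfold RR
  rw [rr, mul_assoc, ← Real.exp_add, neg_add_cancel, Real.exp_zero, mul_one]

lemma rr_lt_RR (m : ℕ) : rr m < RR m := by
  unfold RR
  have h1 : 1 < Real.exp (3 / (2 * kap m)) := by
    rw [Real.one_lt_exp_iff]
    have := kap_pos m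
    positivity
  nlinarith [rr_pos m]

lemma rr_succ_le (m : ℕ) : rr (m + 1) ≤ rr m / 8 := by
  rw [← RR_succ]
  exact (rr_lt_RR _).le

lemma rr_le_pow (m : ℕ) : rr m ≤ (1 / 8) ^ m := by
  induction m with
  | zero => simp [rr]
  | succ m ih =>
    have := rr_succ_le m
    rw [pow_succ]
    linarith

/-- The radial factor at level `m`. -/
noncomputable def gg (m : ℕ) (s : ℝ) : ℝ := chi (kap m * Real.log (s ^ 2 / rr m ^ 2))

lemma gg_nonneg (m : ℕ) (s : ℝ) : 0 ≤ gg m s := chi_nonneg _
lemma gg_le_one (m : ℕ) (s : ℝ) : gg m s ≤ 1 := chi_le_one _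

lemma gg_of_le {m : ℕ} {s : ℝ} (h0 : 0 ≤ s) (h : s ≤ rr m) : gg m s = 0 := by
  apply chi_of_nonpos
  apply mul_nonpos_of_nonneg_of_nonpos (kap_pos m).le
  apply Real.log_nonpos (by positivity)
  rw [div_le_one (by have := rr_pos m; positivity)]
  exact pow_le_pow_left₀ h0 h 2

lemma log_ratio {m : ℕ} {s c : ℝ} (hs : s = rr m * Real.exp c) :
    Real.log (s ^ 2 / rr m ^ 2) = 2 * c := by
  have h1 : s ^ 2 / rr m ^ 2 = Real.exp (2 * c) := by
    rw [hs, mul_pow, mul_div_cancel_left₀ _ (by have := rr_pos m; positivity), ← Real.exp_nat_mul]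
    norm_num
  rw [h1, Real.log_exp]

lemma log_mono {m : ℕ} {s t : ℝ} (hs : 0 < s) (hst : s ≤ t) :
    Real.log (s ^ 2 / rr m ^ 2) ≤ Real.log (t ^ 2 / rr m ^ 2) := by
  have h0 := rr_pos m
  apply Real.log_le_log (by positivity)
  apply div_le_div_of_nonneg_right _ (by positivity)
  exact pow_le_pow_left₀ hs.le hst 2

lemma gg_of_ge {m : ℕ} {s : ℝ} (h : RR m ≤ s) : gg m s = 0 := by
  apply chi_of_ge
  have h1 := log_mono (m := m) (RR_pos m) h
  rw [log_ratio (s := RR m) rfl] at h1
  have hk := kap_pos m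
  have h2 : kap m * (2 * (3 / (2 * kap m))) = 3 := by field_simp
  calc (3 : ℝ) = kap m * (2 * (3 / (2 * kap m))) := h2.symm
    _ ≤ _ := mul_le_mul_of_nonneg_left h1 hk.le

/-- The middle scale at level `m`. -/
noncomputable def al (m : ℕ) : ℝ := rr m * Real.exp (1 / (2 * kap m))

lemma al_pos (m : ℕ) : 0 < al m := mul_pos (rr_pos m) (Real.exp_pos _)

lemma rr_lt_al (m : ℕ) : rr m < al m := by
  unfold al
  have h1 : 1 < Real.exp (1 / (2 * kap m)) := by
    rw [Real.one_lt_exp_iff]
    have := kap_pos m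
    positivity
  nlinarith [rr_pos m]

lemma two_le_exp (m : ℕ) : 2 ≤ Real.exp (1 / (2 * kap m)) := by
  have h1 : (1 : ℝ) ≤ 1 / (2 * kap m) := by
    rw [le_div_iff₀ (by have := kap_pos m; positivity)]
    have := kap_le m
    linarith
  have := Real.add_one_le_exp (1 / (2 * kap m))
  linarith

lemma gg_eq_one {m : ℕ} {s : ℝ} (h1 : al m ≤ s) (h2 : s ≤ 2 * al m) : gg m s = 1 := by
  have hk := kap_pos m
  have hs : 0 < s := lt_of_lt_of_le (al_pos m) h1
  apply chi_eq_one
  · have h3 := log_mono (m := m) (al_pos m) h1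
    rw [log_ratio (s := al m) rfl] at h3
    have h4 : kap m * (2 * (1 / (2 * kap m))) = 1 := by field_simp
    calc (1 : ℝ) = kap m * (2 * (1 / (2 * kap m))) := h4.symm
      _ ≤ _ := mul_le_mul_of_nonneg_left h3 hk.le
  · have h5 : s ≤ rr m * Real.exp (1 / kap m) := by
      refine h2.trans ?_
      have e : Real.exp (1 / kap m) = Real.exp (1 / (2 * kap m)) * Real.exp (1 / (2 * kap m)) := by
        rw [← Real.exp_add]
        congr 1
        field_simp
        norm_num
      rw [e]
      unfold al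
      have := two_le_exp m
      have h6 := rr_pos m
      have h7 := Real.exp_pos (1 / (2 * kap m))
      have h8 : 0 < rr m * Real.exp (1 / (2 * kap m)) := by positivity
      nlinarith
    have h3 := log_mono (m := m) hs h5
    rw [log_ratio (s := rr m * Real.exp (1 / kap m)) rfl] at h3
    have h4 : kap m * (2 * (1 / kap m)) = 2 := by field_simp
    calc _ ≤ kap m * (2 * (1 / kap m)) := mul_le_mul_of_nonneg_left h3 hk.le
      _ = 2 := h4

lemma two_al_lt_RR (m : ℕ) : 2 * al m < RR m := by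
  by_contra h
  rw [not_lt] at h
  have h1 : gg m (2 * al m) = 0 := gg_of_ge h
  have h2 : gg m (2 * al m) = 1 := gg_eq_one (by linarith [al_pos m]) le_rfl
  rw [h1] at h2
  exact zero_ne_one h2

/-- slow variation -/
lemma gg_slow (m : ℕ) {s t : ℝ} (hs : 0 ≤ s) (hst : s ≤ t) :
    |gg m t - gg m s| * s ≤ 2 * MM * kap m * (t - s) := by
  rcases hs.eq_or_lt with h0 | hs
  · rw [← h0, mul_zero]
    have h1 : (0 : ℝ) ≤ MM := MM.2
    have := kap_pos m
    have h2 : 0 ≤ t - 0 := by linarith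
    positivity
  · have ht : 0 < t := lt_of_lt_of_le hs hst
    have hr := rr_pos m
    have hk := kap_pos m
    have h1 : |gg m t - gg m s| ≤ MM * |kap m * Real.log (t ^ 2 / rr m ^ 2) -
        kap m * Real.log (s ^ 2 / rr m ^ 2)| := by
      have := chi_lipschitz.dist_le_mul (kap m * Real.log (t ^ 2 / rr m ^ 2))
        (kap m * Real.log (s ^ 2 / rr m ^ 2))
      rwa [Real.dist_eq, Real.dist_eq] at this
    have h2 : kap m * Real.log (t ^ 2 / rr m ^ 2) - kap m * Real.log (s ^ 2 / rr m ^ 2) =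
        kap m * (2 * Real.log (t / s)) := by
      rw [Real.log_div (by positivity) (by positivity), Real.log_div (by positivity) (by positivity),
        Real.log_div ht.ne' hs.ne', Real.log_pow t, Real.log_pow s]
      push_cast
      ring
    have h3 : 0 ≤ Real.log (t / s) := Real.log_nonneg (by rw [le_div_iff₀ hs]; linarith)
    have h4 : Real.log (t / s) ≤ t / s - 1 := Real.log_le_sub_one_of_pos (by positivity)
    have h6 : 0 ≤ kap m * (2 * Real.log (t / s)) := by positivity
    rw [h2, abs_of_nonneg h6] at h1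
    have h5 : Real.log (t / s) * s ≤ t - s := by
      calc Real.log (t / s) * s ≤ (t / s - 1) * s := mul_le_mul_of_nonneg_right h4 hs.le
        _ = t - s := by field_simp
    calc |gg m t - gg m s| * s ≤ MM * (kap m * (2 * Real.log (t / s))) * s :=
          mul_le_mul_of_nonneg_right h1 hs.le
      _ = 2 * MM * kap m * (Real.log (t / s) * s) := by ring
      _ ≤ 2 * MM * kap m * (t - s) := by
          apply mul_le_mul_of_nonneg_left h5
          have h1 : (0 : ℝ) ≤ MM := MM.2
          positivity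

section Field

variable {E : Type*} [NormedAddCommGroup E] [InnerProductSpace ℝ E]

/-- The radial field at level `m`. -/
noncomputable def PP (m : ℕ) (v : E) : E := gg m ‖v‖ • v

lemma PP_diff (m : ℕ) (v w : E) :
    ‖PP m v - PP m w - gg m (max ‖v‖ ‖w‖) • (v - w)‖ ≤ 2 * MM * kap m * ‖v - w‖ := by
  wlog h : ‖w‖ ≤ ‖v‖ generalizing v w
  · have := this w v (le_of_not_ge h)
    rw [max_comm, ← norm_neg, norm_sub_rev v w]
    have e : -(PP m v - PP m w - gg m (max ‖w‖ ‖v‖) • (v - w)) =
        PP m w - PP m v - gg m (max ‖w‖ ‖v‖) • (w - v) := by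
      rw [smul_sub, smul_sub]; abel
    rw [e]
    exact this
  rw [max_eq_left h]
  have e : PP m v - PP m w - gg m ‖v‖ • (v - w) = (gg m ‖v‖ - gg m ‖w‖) • w := by
    unfold PP
    rw [smul_sub, sub_smul]; abel
  rw [e, norm_smul, Real.norm_eq_abs]
  refine (gg_slow m (norm_nonneg w) h).trans ?_
  apply mul_le_mul_of_nonneg_left (norm_sub_norm_le v w)
  have h1 : (0 : ℝ) ≤ MM := MM.2
  have := kap_pos m
  positivity

lemma PP_contDiff (m : ℕ) : ContDiff ℝ 1 (PP m : E → E) := by
  rw [contDiff_iff_contDiffAt]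
  intro v
  by_cases hv : v = 0
  · -- near zero the field vanishes
    subst hv
    have h1 : (PP m : E → E) =ᶠ[𝓝 0] fun _ => 0 := by
      filter_upwards [Metric.ball_mem_nhds (0 : E) (rr_pos m)] with v hv
      rw [mem_ball_zero_iff] at hv
      unfold PP
      rw [gg_of_le (norm_nonneg v) hv.le, zero_smul]
    exact contDiffAt_const.congr_of_eventuallyEq h1
  · have hr := rr_pos m
    have h1 : ContDiffAt ℝ 1 (fun v : E => Real.log (‖v‖ ^ 2 / rr m ^ 2)) v := by
      apply ContDiffAt.log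
      · exact ((contDiff_norm_sq ℝ).contDiffAt).div_const _
      · have : 0 < ‖v‖ := norm_pos_iff.2 hv
        positivity
    have h2 : ContDiffAt ℝ 1 (fun v : E => gg m ‖v‖) v :=
      chi_contDiff.contDiffAt.comp v (contDiffAt_const.mul h1)
    exact h2.smul contDiffAt_id

end Field

end Pool.Agent.Lib.MP_bd3523_gt
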