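import Mathlib
import Pool.Agent.Lib.MP_bd3523_gt.Profile

/-!
The centres of the discs and the combinatorics of the nested discs.
-/

open Topology Filter Set
open scoped NNReal ENNReal

namespace Pool.Agent.Lib.MP_bd3523_gt

section Centers

variable {E : Type*} [NormedAddCommGroup E] [InnerProductSpace ℝ E]

open Classical in
/-- The centres at level `m`; `w` is a fixed unit vector. -/
noncomputable def Cs (w : E) : ℕ → Finset E
  | 0 => {0}
  | m + 1 => Cs w m ∪ (Cs w m).image (fun c => c + (rr m / 2) • w)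

lemma mem_Cs_succ {w : E} {m : ℕ} {c : E} :
    c ∈ Cs w (m + 1) ↔ c ∈ Cs w m ∨ ∃ c' ∈ Cs w m, c' + (rr m / 2) • w = c := by
  classical
  rw [Cs, Finset.mem_union, Finset.mem_image]

lemma Cs_card (w : E) (m : ℕ) : (Cs w m).card ≤ 2 ^ m := by
  classical
  induction m with
  | zero => simp [Cs]
  | succ m ih =>
    rw [Cs]
    refine (Finset.card_union_le _ _).trans ?_
    have := Finset.card_image_le (s := Cs w m) (f := fun c => c + (rr m / 2) • w)
    rw [pow_succ]
    omega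

lemma norm_shift {w : E} (hw : ‖w‖ = 1) (m : ℕ) : ‖(rr m / 2) • w‖ = rr m / 2 := by
  rw [norm_smul, hw, mul_one, Real.norm_of_nonneg (by have := rr_pos m; positivity)]

lemma Cs_parent {w : E} (hw : ‖w‖ = 1) {m : ℕ} {c : E} (hc : c ∈ Cs w (m + 1)) :
    ∃ c' ∈ Cs w m, ‖c - c'‖ ≤ rr m / 2 := by
  rcases mem_Cs_succ.1 hc with h | ⟨c', hc', rfl⟩
  · refine ⟨c, h, ?_⟩
    rw [sub_self, norm_zero]
    have := rr_pos m
    positivity
  · refine ⟨c', hc', ?_⟩
    rw [add_sub_cancel_left, norm_shift hw]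

lemma Cs_sep {w : E} (hw : ‖w‖ = 1) (m : ℕ) :
    ∀ c ∈ Cs w m, ∀ c' ∈ Cs w m, c ≠ c' → 4 * RR m ≤ ‖c - c'‖ := by
  induction m with
  | zero =>
    intro c hc c' hc' hne
    simp only [Cs, Finset.mem_singleton] at hc hc'
    exact absurd (hc.trans hc'.symm) hne
  | succ m ih =>
    have h1 := rr_lt_RR m
    have h2 := rr_pos m
    have h3 : 4 * RR (m + 1) = rr m / 2 := by rw [RR_succ]; ring
    intro c hc c' hc' hne
    rw [h3]
    rcases mem_Cs_succ.1 hc with h | ⟨d, hd, rfl⟩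
    · rcases mem_Cs_succ.1 hc' with h' | ⟨d', hd', rfl⟩
      · have := ih c h c' h' hne
        linarith
      · by_cases hcd : c = d'
        · subst hcd
          rw [norm_sub_rev, add_sub_cancel_left, norm_shift hw]
        · have h4 := ih c h d' hd' hcd
          have h5 : ‖c - d'‖ ≤ ‖c - (d' + (rr m / 2) • w)‖ + ‖(rr m / 2) • w‖ := by
            have e : c - d' = (c - (d' + (rr m / 2) • w)) + (rr m / 2) • w := by abel
            rw [e]
            exact norm_add_le _ _
          rw [norm_shift hw] at h5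
          linarith
    · rcases mem_Cs_succ.1 hc' with h' | ⟨d', hd', rfl⟩
      · by_cases hcd : d = c'
        · subst hcd
          rw [add_sub_cancel_left, norm_shift hw]
        · have h4 := ih d hd c' h' hcd
          have h5 : ‖d - c'‖ ≤ ‖d + (rr m / 2) • w - c'‖ + ‖(rr m / 2) • w‖ := by
            have e : d - c' = (d + (rr m / 2) • w - c') - (rr m / 2) • w := by abel
            rw [e]
            exact norm_sub_le _ _
          rw [norm_shift hw] at h5
          linarith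
      · have hdd : d ≠ d' := by
          rintro rfl
          exact hne rfl
        have h4 := ih d hd d' hd' hdd
        have e : d + (rr m / 2) • w - (d' + (rr m / 2) • w) = d - d' := by abel
        rw [e]
        linarith

/-- Two centres at the same level within `2 R` (or even `< 4 R`) of each other agree. -/
lemma Cs_unique {w : E} (hw : ‖w‖ = 1) {m : ℕ} {c c' x : E} (hc : c ∈ Cs w m) (hc' : c' ∈ Cs w m)
    (h1 : ‖x - c‖ ≤ RR m) (h2 : ‖x - c'‖ ≤ RR m) : c = c' := by
  by_contra hne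
  have h3 := Cs_sep hw m c hc c' hc' hne
  have h4 : ‖c - c'‖ ≤ ‖x - c'‖ + ‖x - c‖ := by
    have e : c - c' = (x - c') - (x - c) := by abel
    rw [e]
    exact norm_sub_le _ _
  have := RR_pos m
  linarith

/-- nestedness -/
lemma Cs_nested {w : E} (hw : ‖w‖ = 1) (m k : ℕ) :
    ∀ c' ∈ Cs w (m + 1 + k), ∃ c ∈ Cs w m, ∀ x, ‖x - c'‖ ≤ RR (m + 1 + k) →
      ‖x - c‖ ≤ 5 / 8 * rr m := by
  induction k with
  | zero =>
    intro c' hc'
    obtain ⟨c, hc, hcc⟩ := Cs_parent hw hc'
    refine ⟨c, hc, fun x hx => ?_⟩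
    rw [add_zero, RR_succ] at hx
    have h1 : ‖x - c‖ ≤ ‖x - c'‖ + ‖c' - c‖ := by
      have e : x - c = (x - c') + (c' - c) := by abel
      rw [e]
      exact norm_add_le _ _
    linarith
  | succ k ih =>
    intro c' hc'
    obtain ⟨c1, hc1, hcc⟩ := Cs_parent hw (m := m + 1 + k) hc'
    obtain ⟨c, hc, hcx⟩ := ih c1 hc1
    refine ⟨c, hc, fun x hx => hcx x ?_⟩
    have h0 : m + 1 + (k + 1) = (m + 1 + k) + 1 := by ring
    rw [h0, RR_succ] at hx
    have h1 : ‖x - c1‖ ≤ ‖x - c'‖ + ‖c' - c1‖ := by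
      have e : x - c1 = (x - c') + (c' - c1) := by abel
      rw [e]
      exact norm_add_le _ _
    have h2 := rr_lt_RR (m + 1 + k)
    have h3 := rr_pos (m + 1 + k)
    linarith

lemma Cs_nested' {w : E} (hw : ‖w‖ = 1) {m n : ℕ} (hmn : m < n) {c' : E} (hc' : c' ∈ Cs w n) :
    ∃ c ∈ Cs w m, ∀ x, ‖x - c'‖ ≤ RR n → ‖x - c‖ ≤ 5 / 8 * rr m := by
  obtain ⟨k, rfl⟩ : ∃ k, n = m + 1 + k := ⟨n - (m + 1), by omega⟩
  exact Cs_nested hw m k c' hc'

/-- The pair `(m, c)` is active for `(x, y)`: the factor does not vanish. -/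
def Act (m : ℕ) (c x y : E) : Prop := gg m (max ‖x - c‖ ‖y - c‖) ≠ 0

omit [InnerProductSpace ℝ E] in
lemma Act.lt_RR {m : ℕ} {c x y : E} (h : Act m c x y) : ‖x - c‖ < RR m ∧ ‖y - c‖ < RR m := by
  rw [← max_lt_iff]
  by_contra hcon
  rw [not_lt] at hcon
  exact h (gg_of_ge hcon)

omit [InnerProductSpace ℝ E] in
lemma Act.rr_lt {m : ℕ} {c x y : E} (h : Act m c x y) : rr m < max ‖x - c‖ ‖y - c‖ := by
  by_contra hcon
  rw [not_lt] at hcon
  exact h (gg_of_le (le_max_of_le_left (norm_nonneg _)) hcon)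

lemma Act.unique {w : E} (hw : ‖w‖ = 1) {m m' : ℕ} {c c' x y : E} (hc : c ∈ Cs w m)
    (hc' : c' ∈ Cs w m') (h : Act m c x y) (h' : Act m' c' x y) : m = m' ∧ c = c' := by
  -- no pair can be active at a strictly deeper level
  have key : ∀ {m m' : ℕ} {c c' : E}, c ∈ Cs w m → c' ∈ Cs w m' → Act m c x y →
      Act m' c' x y → ¬ m < m' := by
    intro m m' c c' hc hc' h h' hlt
    obtain ⟨c'', hc'', hx⟩ := Cs_nested' hw hlt hc'
    have h1 := hx x h'.lt_RR.1.le
    have h2 := hx y h'.lt_RR.2.le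
    have h3 := rr_lt_RR m
    have h4 := rr_pos m
    have h5 : c = c'' := Cs_unique hw hc hc'' h.lt_RR.1.le (by linarith)
    subst h5
    have h6 := h.rr_lt
    have h7 : max ‖x - c‖ ‖y - c‖ ≤ 5 / 8 * rr m := max_le h1 h2
    linarith
  have hmm : m = m' := by
    rcases lt_trichotomy m m' with hlt | heq | hgt
    · exact absurd hlt (key hc hc' h h')
    · exact heq
    · exact absurd hgt (key hc' hc h' h)
  subst hmm
  exact ⟨rfl, Cs_unique hw hc hc' h.lt_RR.1.le h'.lt_RR.1.le⟩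

end Centers

end Pool.Agent.Lib.MP_bd3523_gt
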