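import Mathlib

/-!
Arc length reparametrisation of closed curves with strong tangents.
-/

open Topology Filter Set
open scoped NNReal ENNReal

namespace Pool.Agent.Lib.MP_bd3523_gt

variable {E : Type*} [NormedAddCommGroup E] [InnerProductSpace ℝ E]

/-- The curve `Γ` has at `t0` a strong tangent direction `V`, up to a bounded positive factor. -/
def CurveSC (Γ : ℝ → E) (t0 : ℝ) (V : E) : Prop :=
  ∃ a b : ℝ, 0 < a ∧ ∀ ε > 0, ∀ᶠ q : ℝ × ℝ in 𝓝 (t0, t0), ∃ l ∈ Icc a b,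
    ‖Γ q.1 - Γ q.2 - (l * (q.1 - q.2)) • V‖ ≤ ε * |q.1 - q.2|

lemma contDiff_of_strict {h h' : ℝ → E}
    (H : ∀ t, ∀ ε > 0, ∀ᶠ q : ℝ × ℝ in 𝓝 (t, t),
      ‖h q.1 - h q.2 - (q.1 - q.2) • h' t‖ ≤ ε * |q.1 - q.2|) :
    ContDiff ℝ 1 h ∧ ∀ t, deriv h t = h' t := by
  have hd : ∀ t, HasDerivAt h (h' t) t := by
    intro t
    rw [hasDerivAt_iff_isLittleO, Asymptotics.isLittleO_iff]
    intro ε hε
    have h1 := H t ε hε
    have h2 : Tendsto (fun x : ℝ => (x, t)) (𝓝 t) (𝓝 (t, t)) := by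
      have : Continuous (fun x : ℝ => (x, t)) := by fun_prop
      exact this.tendsto t
    filter_upwards [h2.eventually h1] with x hx
    simpa using hx
  refine ⟨?_, fun t => (hd t).deriv⟩
  rw [contDiff_one_iff_deriv]
  refine ⟨fun t => (hd t).differentiableAt, ?_⟩
  have e : deriv h = h' := funext fun t => (hd t).deriv
  rw [e, Metric.continuous_iff']
  intro t ε hε
  have h1 := H t (ε / 2) (half_pos hε)
  rw [nhds_prod_eq, eventually_prod_iff] at h1
  obtain ⟨p1, hp1, p2, hp2, hpp⟩ := h1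
  have hN : {x | p1 x ∧ p2 x} ∈ 𝓝 t := hp1.and hp2
  have hNN : ∀ x ∈ {x | p1 x ∧ p2 x}, ∀ y ∈ {x | p1 x ∧ p2 x},
      ‖h x - h y - (x - y) • h' t‖ ≤ ε / 2 * |x - y| := fun x hx y hy => hpp hx.1 hy.2
  obtain ⟨M, hMN, hM, htM⟩ := mem_nhds_iff.1 hN
  filter_upwards [hM.mem_nhds htM] with s hs
  have h3 : HasDerivAt (fun x => h x - x • h' t) (h' s - h' t) s := by
    have := (hd s).sub ((hasDerivAt_id s).smul_const (h' t))
    rw [one_smul] at this
    exact this
  have h4 : ∀ᶠ x in 𝓝 s, ‖(h x - x • h' t) - (h s - s • h' t)‖ ≤ (ε / 2) * ‖x - s‖ := by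
    filter_upwards [hM.mem_nhds hs] with x hx
    have h5 := hNN x (hMN hx) s (hMN hs)
    have h6 : (h x - x • h' t) - (h s - s • h' t) = h x - h s - (x - s) • h' t := by
      rw [sub_smul]; abel
    rw [h6]
    exact h5
  have h7 := h3.le_of_lip' (by positivity) h4
  rw [dist_eq_norm]
  linarith

lemma eVariationOn_le_of_edist_le {α : Type*} [LinearOrder α] {F G : Type*}
    [PseudoEMetricSpace F] [PseudoEMetricSpace G] {f : α → F} {g : α → G} {s : Set α}
    (h : ∀ x ∈ s, ∀ y ∈ s, x ≤ y → edist (f y) (f x) ≤ edist (g y) (g x)) :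
    eVariationOn f s ≤ eVariationOn g s := by
  unfold eVariationOn
  apply iSup_mono
  rintro ⟨n, u, hu, hus⟩
  apply Finset.sum_le_sum
  intro i _
  exact h _ (hus i) _ (hus (i + 1)) (hu (Nat.le_succ i))

/-- Unit tangent form of the strong tangent property. -/
lemma unit_tangent {Γ : ℝ → E} {t0 : ℝ} {V : E} (hV : V ≠ 0) (h : CurveSC Γ t0 V) :
    ∀ ε > 0, ∀ᶠ q : ℝ × ℝ in 𝓝 (t0, t0), q.2 ≤ q.1 →
      ‖Γ q.1 - Γ q.2 - ‖Γ q.1 - Γ q.2‖ • (‖V‖⁻¹ • V)‖ ≤ ε * ‖Γ q.1 - Γ q.2‖ := by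
  obtain ⟨a, b, ha, H⟩ := h
  intro ε hε
  have hVn : 0 < ‖V‖ := norm_pos_iff.2 hV
  have haV : 0 < a * ‖V‖ := mul_pos ha hVn
  have h1 := H (min (a * ‖V‖ / 2) (ε * (a * ‖V‖) / 4)) (by positivity)
  filter_upwards [h1] with q hq hle
  obtain ⟨l, ⟨hal, _⟩, hl⟩ := hq
  set δ := min (a * ‖V‖ / 2) (ε * (a * ‖V‖) / 4) with hδ
  have hδ1 : δ ≤ a * ‖V‖ / 2 := min_le_left _ _
  have hδ2 : δ ≤ ε * (a * ‖V‖) / 4 := min_le_right _ _
  set d := q.1 - q.2 with hd
  have hd0 : 0 ≤ d := by rw [hd]; linarith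
  rw [abs_of_nonneg hd0] at hl
  set D := Γ q.1 - Γ q.2 with hD
  have hl0 : 0 < l := lt_of_lt_of_le ha hal
  have hnorm : ‖(l * d) • V‖ = l * d * ‖V‖ := by
    rw [norm_smul, Real.norm_of_nonneg (mul_nonneg hl0.le hd0)]
  have h2 : |‖D‖ - l * d * ‖V‖| ≤ δ * d := by
    rw [← hnorm]
    exact (abs_norm_sub_norm_le _ _).trans hl
  have h3 : (l * d) • V = (l * d * ‖V‖) • (‖V‖⁻¹ • V) := by
    rw [smul_smul, mul_assoc (l * d), mul_inv_cancel₀ hVn.ne', mul_one]
  have hunit : ‖‖V‖⁻¹ • V‖ = 1 := by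
    rw [norm_smul, norm_inv, norm_norm, inv_mul_cancel₀ hVn.ne']
  have h4 : D - ‖D‖ • (‖V‖⁻¹ • V) = (D - (l * d) • V) + (l * d * ‖V‖ - ‖D‖) • (‖V‖⁻¹ • V) := by
    rw [h3, sub_smul]; abel
  have h5 : ‖D - ‖D‖ • (‖V‖⁻¹ • V)‖ ≤ δ * d + δ * d := by
    rw [h4]
    refine (norm_add_le _ _).trans (add_le_add hl ?_)
    rw [norm_smul, hunit, mul_one, Real.norm_eq_abs, abs_sub_comm]
    exact h2
  have h6 : l * d * ‖V‖ - δ * d ≤ ‖D‖ := by
    have := (abs_le.1 h2).1
    linarith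
  have h7 : a * ‖V‖ / 2 * d ≤ ‖D‖ := by
    have h8 : a * d * ‖V‖ ≤ l * d * ‖V‖ := by
      apply mul_le_mul_of_nonneg_right _ hVn.le
      exact mul_le_mul_of_nonneg_right hal hd0
    have h9 : δ * d ≤ a * ‖V‖ / 2 * d := mul_le_mul_of_nonneg_right hδ1 hd0
    nlinarith
  have h10 : δ * d ≤ ε * (a * ‖V‖) / 4 * d := mul_le_mul_of_nonneg_right hδ2 hd0
  have h11 : ε * (a * ‖V‖ / 2 * d) ≤ ε * ‖D‖ := mul_le_mul_of_nonneg_left h7 hε.le
  nlinarith

/-- Local upper bound of the variation by the chord. -/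
lemma variation_le {Γ : ℝ → E} {τ : E} (hτ : ‖τ‖ = 1) {ε : ℝ} (hε1 : ε < 1)
    {s t : ℝ} (hst : s ≤ t)
    (h : ∀ x ∈ Icc s t, ∀ y ∈ Icc s t, x ≤ y →
      ‖Γ y - Γ x - ‖Γ y - Γ x‖ • τ‖ ≤ ε * ‖Γ y - Γ x‖) :
    eVariationOn Γ (Icc s t) ≤ ENNReal.ofReal (‖Γ t - Γ s‖ / (1 - ε)) := by
  have h1ε : 0 < 1 - ε := by linarith
  let φ : ℝ → ℝ := fun x => inner ℝ (Γ x) τ / (1 - ε)
  have key : ∀ x ∈ Icc s t, ∀ y ∈ Icc s t, x ≤ y → ‖Γ y - Γ x‖ ≤ φ y - φ x := by
    intro x hx y hy hxy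
    have h1 := h x hx y hy hxy
    have h2 : inner ℝ (Γ y - Γ x) τ = ‖Γ y - Γ x‖ +
        inner ℝ (Γ y - Γ x - ‖Γ y - Γ x‖ • τ) τ := by
      rw [inner_sub_left (Γ y - Γ x), inner_smul_left, real_inner_self_eq_norm_sq, hτ]
      simp
    have h3 : |inner ℝ (Γ y - Γ x - ‖Γ y - Γ x‖ • τ) τ| ≤ ε * ‖Γ y - Γ x‖ := by
      refine (abs_real_inner_le_norm _ _).trans ?_
      rw [hτ, mul_one]
      exact h1
    have h4 : (1 - ε) * ‖Γ y - Γ x‖ ≤ inner ℝ (Γ y - Γ x) τ := by
      rw [h2]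
      have := (abs_le.1 h3).1
      linarith
    have h5 : φ y - φ x = inner ℝ (Γ y - Γ x) τ / (1 - ε) := by
      simp only [φ]
      rw [inner_sub_left, sub_div]
    rw [h5, le_div_iff₀ h1ε]
    linarith
  have hmono : MonotoneOn φ (Icc s t) := by
    intro x hx y hy hxy
    have := key x hx y hy hxy
    have h0 := norm_nonneg (Γ y - Γ x)
    linarith
  have h1 : eVariationOn Γ (Icc s t) ≤ eVariationOn φ (Icc s t) := by
    apply eVariationOn_le_of_edist_le
    intro x hx y hy hxy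
    rw [edist_dist, edist_dist, dist_eq_norm, Real.dist_eq]
    apply ENNReal.ofReal_le_ofReal
    exact (key x hx y hy hxy).trans (le_abs_self _)
  have h2 : eVariationOn φ (Icc s t) ≤ ENNReal.ofReal (φ t - φ s) := by
    have := hmono.eVariationOn_eq (left_mem_Icc.2 hst) (right_mem_Icc.2 hst)
    rw [inter_self] at this
    exact this.le
  refine h1.trans (h2.trans ?_)
  apply ENNReal.ofReal_le_ofReal
  have h5 : φ t - φ s = inner ℝ (Γ t - Γ s) τ / (1 - ε) := by
    simp only [φ]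
    rw [inner_sub_left, sub_div]
  rw [h5]
  apply div_le_div_of_nonneg_right _ h1ε.le
  have := real_inner_le_norm (Γ t - Γ s) τ
  rwa [hτ, mul_one] at this

/-- A closed curve which is Lipschitz, injective modulo its period `1` and has strong tangents
everywhere, has the same image as a `C^1` regular closed curve. -/
theorem reparam {Γ : ℝ → E} {K : ℝ≥0} (hK : LipschitzWith K Γ)
    (hper : ∀ s t, Γ s = Γ t ↔ ∃ n : ℤ, t = s + n)
    (hSC : ∀ t0, ∃ V : E, V ≠ 0 ∧ CurveSC Γ t0 V) :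
    ∃ h : ℝ → E, ContDiff ℝ 1 h ∧ (∀ t, deriv h t ≠ 0) ∧
      (∀ s t, h s = h t ↔ ∃ n : ℤ, t = s + n) ∧ range h = range Γ := by
  have bv : LocallyBoundedVariationOn Γ univ := hK.locallyBoundedVariationOn univ
  let σ : ℝ → ℝ := fun t => variationOnFromTo Γ univ 0 t
  have hσ_sub : ∀ s t, s ≤ t → σ t - σ s = (eVariationOn Γ (Icc s t)).toReal := by
    intro s t hst
    have h1 := variationOnFromTo.add bv (mem_univ 0) (mem_univ s) (mem_univ t)
    have h2 := variationOnFromTo.eq_of_le Γ univ hst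
    rw [univ_inter] at h2
    simp only [σ]
    rw [← h1, ← h2]
    ring
  have hfin : ∀ s t, eVariationOn Γ (Icc s t) ≠ ⊤ := by
    intro s t
    have := bv s t (mem_univ s) (mem_univ t)
    rwa [univ_inter] at this
  have hσ_ge : ∀ s t, s ≤ t → ‖Γ t - Γ s‖ ≤ σ t - σ s := by
    intro s t hst
    rw [hσ_sub s t hst, ← dist_eq_norm, dist_edist]
    exact ENNReal.toReal_mono (hfin s t)
      (eVariationOn.edist_le Γ (right_mem_Icc.2 hst) (left_mem_Icc.2 hst))
  have hσ_le : ∀ s t, s ≤ t → σ t - σ s ≤ K * (t - s) := by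
    intro s t hst
    rw [hσ_sub s t hst]
    have h1 : eVariationOn (Γ ∘ id) (Icc s t) ≤ K * eVariationOn (id : ℝ → ℝ) (Icc s t) :=
      (hK.lipschitzOnWith (s := univ)).comp_eVariationOn_le (mapsTo_univ _ _)
    rw [eVariationOn_id_Icc, Function.comp_id] at h1
    have h2 : (K : ENNReal) * ENNReal.ofReal (t - s) = ENNReal.ofReal (K * (t - s)) := by
      rw [ENNReal.ofReal_mul (NNReal.coe_nonneg K), ENNReal.ofReal_coe_nnreal]
    rw [h2] at h1
    exact ENNReal.toReal_le_of_le_ofReal (mul_nonneg K.2 (by linarith)) h1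
  have hσ_strict : StrictMono σ := by
    intro s t hst
    -- compare with an intermediate point at distance less than one
    let r := min t (s + 1 / 2)
    have hsr : s < r := lt_min hst (by linarith)
    have hrt : r ≤ t := min_le_left _ _
    have hr2 : r ≤ s + 1 / 2 := min_le_right _ _
    have hne : Γ s ≠ Γ r := by
      intro heq
      obtain ⟨n, hn⟩ := (hper s r).1 heq
      have h1 : (0 : ℝ) < n := by linarith
      have h2 : (n : ℝ) < 1 := by linarith
      have h3 : (0 : ℤ) < n := by exact_mod_cast h1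
      have h4 : n < (1 : ℤ) := by exact_mod_cast h2
      omega
    have h1 := hσ_ge s r hsr.le
    have h2 : 0 < ‖Γ r - Γ s‖ := norm_pos_iff.2 (sub_ne_zero.2 hne.symm)
    have h3 : 0 ≤ σ t - σ r := (norm_nonneg _).trans (hσ_ge r t hrt)
    linarith
  have hσ_cont : Continuous σ := by
    have : LipschitzWith K σ := by
      apply LipschitzWith.of_dist_le_mul
      intro x y
      wlog hxy : x ≤ y generalizing x y
      · rw [dist_comm, dist_comm x y]
        exact this y x (le_of_not_ge hxy)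
      rw [dist_comm, dist_comm x y, Real.dist_eq, Real.dist_eq,
        abs_of_nonneg (sub_nonneg.2 (hσ_strict.monotone hxy)), abs_of_nonneg (sub_nonneg.2 hxy)]
      exact hσ_le x y hxy
    exact this.continuous
  set ℓ := σ 1 with hℓ
  have hσ0 : σ 0 = 0 := variationOnFromTo.self Γ univ 0
  have hℓpos : 0 < ℓ := by
    have := hσ_strict (zero_lt_one (α := ℝ))
    rwa [hσ0] at this
  have hσ_per : ∀ t, σ (t + 1) = σ t + ℓ := by
    intro t
    have h1 : Γ ∘ (fun x : ℝ => x + 1) = Γ := by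
      funext x
      exact ((hper x (x + 1)).2 ⟨1, by simp⟩).symm
    have h2 := variationOnFromTo.comp_eq_of_monotoneOn Γ (t := univ) (fun x : ℝ => x + 1)
      (fun x _ y _ hxy => by linarith) (mem_univ 0) (mem_univ t)
    have h3 : (fun x : ℝ => x + 1) '' univ = univ := by
      rw [image_univ, range_eq_univ]
      intro y
      exact ⟨y - 1, by simp⟩
    rw [h1, h3] at h2
    have h4 := variationOnFromTo.add bv (mem_univ 0) (mem_univ 1) (mem_univ (t + 1))
    simp only [zero_add] at h2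
    simp only [σ, hℓ]
    rw [← h4, ← h2]
    ring
  have hσ_int : ∀ n : ℤ, ∀ t, σ (t + n) = σ t + n * ℓ := by
    intro n
    induction n using Int.induction_on with
    | zero => intro t; simp
    | succ n ih =>
      intro t
      have h1 := ih (t + 1)
      rw [hσ_per] at h1
      have h2 : t + ((n + 1 : ℤ) : ℝ) = t + 1 + ((n : ℤ) : ℝ) := by push_cast; ring
      rw [h2, h1]
      push_cast
      ring
    | pred n ih =>
      intro t
      have h1 := ih (t - 1)
      have h3 := hσ_per (t - 1)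
      rw [sub_add_cancel] at h3
      have h2 : t + ((-(n : ℤ) - 1 : ℤ) : ℝ) = t - 1 + ((-(n : ℤ) : ℤ) : ℝ) := by push_cast; ring
      rw [h2, h1, h3]
      push_cast
      ring
  have hσ_surj : Function.Surjective σ := by
    apply hσ_cont.surjective
    · apply hσ_strict.monotone.tendsto_atTop_atTop
      intro b
      obtain ⟨n, hn⟩ := exists_nat_ge (b / ℓ)
      refine ⟨(n : ℝ), ?_⟩
      have h1 := hσ_int n 0
      rw [hσ0, zero_add, zero_add] at h1
      have h2 : σ (n : ℝ) = n * ℓ := by exact_mod_cast h1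
      rw [h2]
      exact (div_le_iff₀ hℓpos).1 hn
    · apply hσ_strict.monotone.tendsto_atBot_atBot
      intro b
      obtain ⟨n, hn⟩ := exists_nat_ge (-b / ℓ)
      refine ⟨-(n : ℝ), ?_⟩
      have h1 := hσ_int (-n) 0
      rw [hσ0, zero_add, zero_add] at h1
      have h2 : σ (-(n : ℝ)) = -(n * ℓ) := by
        push_cast at h1
        rw [h1]; ring
      rw [h2]
      have := (div_le_iff₀ hℓpos).1 hn
      linarith
  let e : ℝ ≃o ℝ := hσ_strict.orderIsoOfSurjective σ hσ_surj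
  have he : ∀ t, e t = σ t := fun t => rfl
  have hes : ∀ t, e.symm (σ t) = t := fun t => by rw [← he]; exact e.symm_apply_apply t
  have hσe : ∀ u, σ (e.symm u) = u := fun u => by rw [← he]; exact e.apply_symm_apply u
  choose V hV0 hV using hSC
  let τ : ℝ → E := fun t => ‖V t‖⁻¹ • V t
  have hτ : ∀ t, ‖τ t‖ = 1 := by
    intro t
    simp only [τ]
    rw [norm_smul, norm_inv, norm_norm, inv_mul_cancel₀ (norm_ne_zero_iff.2 (hV0 t))]
  -- the arc length parametrisation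
  let g : ℝ → E := fun u => Γ (e.symm u)
  have hg : ∀ u, ∀ ε > 0, ∀ᶠ q : ℝ × ℝ in 𝓝 (u, u),
      ‖g q.1 - g q.2 - (q.1 - q.2) • τ (e.symm u)‖ ≤ ε * |q.1 - q.2| := by
    intro u ε hε
    set t0 := e.symm u with ht0
    obtain ⟨η, hη0, hη1, hηε⟩ : ∃ η : ℝ, 0 < η ∧ η < 1 / 2 ∧ 3 * η ≤ ε :=
      ⟨min (1 / 4) (ε / 3), by positivity, lt_of_le_of_lt (min_le_left _ _) (by norm_num),
        by have := min_le_right (1 / 4 : ℝ) (ε / 3); linarith⟩
    have h1 := unit_tangent (hV0 t0) (hV t0) η hη0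
    rw [nhds_prod_eq, eventually_prod_iff] at h1
    obtain ⟨p1, hp1, p2, hp2, hpp⟩ := h1
    obtain ⟨δ, hδ, hball⟩ := Metric.eventually_nhds_iff_ball.1 (hp1.and hp2)
    -- the good inequality on the ball
    have hgood : ∀ x ∈ Metric.ball t0 δ, ∀ y ∈ Metric.ball t0 δ, x ≤ y →
        ‖Γ y - Γ x - ‖Γ y - Γ x‖ • τ t0‖ ≤ η * ‖Γ y - Γ x‖ := by
      intro x hx y hy hxy
      exact hpp (hball y hy).1 (hball x hx).2 hxy
    have hord : ∀ x ∈ Metric.ball t0 δ, ∀ y ∈ Metric.ball t0 δ, x ≤ y →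
        ‖Γ y - Γ x - (σ y - σ x) • τ t0‖ ≤ ε * (σ y - σ x) := by
      intro x hx y hy hxy
      have h2 : eVariationOn Γ (Icc x y) ≤ ENNReal.ofReal (‖Γ y - Γ x‖ / (1 - η)) := by
        apply variation_le (hτ t0) (by linarith) hxy
        intro a ha b hb hab
        have hsub : Icc x y ⊆ Metric.ball t0 δ := by
          rw [Real.ball_eq_Ioo] at hx hy ⊢
          intro z hz
          exact ⟨lt_of_lt_of_le hx.1 hz.1, lt_of_le_of_lt hz.2 hy.2⟩
        exact hgood a (hsub ha) b (hsub hb) hab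
      have h3 : σ y - σ x ≤ ‖Γ y - Γ x‖ / (1 - η) := by
        rw [hσ_sub x y hxy]
        exact ENNReal.toReal_le_of_le_ofReal (div_nonneg (norm_nonneg _) (by linarith)) h2
      have h4 := hσ_ge x y hxy
      rw [le_div_iff₀ (by linarith)] at h3
      have h5 := hgood x hx y hy hxy
      have h6 : Γ y - Γ x - (σ y - σ x) • τ t0 =
          (Γ y - Γ x - ‖Γ y - Γ x‖ • τ t0) + (‖Γ y - Γ x‖ - (σ y - σ x)) • τ t0 := by
        rw [sub_smul ‖Γ y - Γ x‖]; abel
      rw [h6]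
      refine (norm_add_le _ _).trans ?_
      rw [norm_smul, hτ, mul_one, Real.norm_eq_abs, abs_sub_comm,
        abs_of_nonneg (by linarith : 0 ≤ σ y - σ x - ‖Γ y - Γ x‖)]
      have h7 : 0 ≤ σ y - σ x := (norm_nonneg _).trans h4
      nlinarith
    have hcont : Tendsto (fun q : ℝ × ℝ => (e.symm q.1, e.symm q.2)) (𝓝 (u, u))
        (𝓝 (t0, t0)) := by
      have : Continuous (fun q : ℝ × ℝ => (e.symm q.1, e.symm q.2)) :=
        (e.symm.continuous.comp continuous_fst).prodMk (e.symm.continuous.comp continuous_snd)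
      exact this.tendsto (u, u)
    have hnb : Metric.ball t0 δ ×ˢ Metric.ball t0 δ ∈ 𝓝 (t0, t0) :=
      prod_mem_nhds (Metric.ball_mem_nhds _ hδ) (Metric.ball_mem_nhds _ hδ)
    filter_upwards [hcont hnb] with q hq
    have hq1 : e.symm q.1 ∈ Metric.ball t0 δ := hq.1
    have hq2 : e.symm q.2 ∈ Metric.ball t0 δ := hq.2
    rcases le_total q.2 q.1 with hle | hle
    · have h8 := hord _ hq2 _ hq1 (e.symm.monotone hle)
      rw [hσe, hσe] at h8
      rw [abs_of_nonneg (sub_nonneg.2 hle)]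
      exact h8
    · have h8 := hord _ hq1 _ hq2 (e.symm.monotone hle)
      rw [hσe, hσe] at h8
      rw [abs_of_nonpos (sub_nonpos.2 hle), neg_sub, ← norm_neg]
      have h9 : -(g q.1 - g q.2 - (q.1 - q.2) • τ t0) =
          Γ (e.symm q.2) - Γ (e.symm q.1) - (q.2 - q.1) • τ t0 := by
        simp only [g]
        rw [sub_smul, sub_smul]; abel
      rw [h9]
      exact h8
  obtain ⟨hgC, hgd⟩ := contDiff_of_strict hg
  refine ⟨fun u => g (ℓ * u), ?_, ?_, ?_, ?_⟩
  · exact hgC.comp (contDiff_const.mul contDiff_id)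
  · intro u
    have h1 : HasDerivAt g (τ (e.symm (ℓ * u))) (ℓ * u) := by
      have := (hgC.differentiable (by norm_num) (ℓ * u)).hasDerivAt
      rwa [hgd] at this
    have h2 : HasDerivAt (fun x : ℝ => ℓ * x) ℓ u := by
      simpa using (hasDerivAt_id u).const_mul ℓ
    have h3 := h1.scomp u h2
    have h4 : deriv (fun x => g (ℓ * x)) u = ℓ • τ (e.symm (ℓ * u)) := h3.deriv
    rw [h4]
    apply smul_ne_zero hℓpos.ne'
    intro h0
    have := hτ (e.symm (ℓ * u))
    rw [h0, norm_zero] at this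
    exact zero_ne_one this
  · intro s t
    simp only [g]
    rw [hper]
    constructor
    · rintro ⟨n, hn⟩
      refine ⟨n, ?_⟩
      have h1 := congrArg σ hn
      rw [hσe, hσ_int, hσe] at h1
      have : ℓ * t = ℓ * (s + n) := by rw [h1]; ring
      exact mul_left_cancel₀ hℓpos.ne' this
    · rintro ⟨n, rfl⟩
      refine ⟨n, ?_⟩
      apply hσ_strict.injective
      rw [hσe, hσ_int, hσe]
      ring
  · ext y
    constructor
    · rintro ⟨u, rfl⟩
      exact ⟨_, rfl⟩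
    · rintro ⟨t, rfl⟩
      refine ⟨σ t / ℓ, ?_⟩
      simp only [g]
      rw [mul_div_cancel₀ _ hℓpos.ne', hes]

end Pool.Agent.Lib.MP_bd3523_gt
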