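import Mathlib
import Pool.Agent.Lib.MP_bd3523_gt.Reparam

/-!
Maps that are strongly differentiable up to a bounded positive scalar factor preserve `C^1` curves.
-/

open Topology Filter Set
open scoped NNReal ENNReal

namespace Pool.Agent.Lib.MP_bd3523_gt

variable {E : Type*} [NormedAddCommGroup E] [InnerProductSpace ℝ E]

/-- The map `f` is, near `p`, strictly approximated by positive scalar multiples of `L`, with the
scalars staying in a compact subinterval of `(0, ∞)` but possibly depending on the two points. -/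
def MapSC (f : E → E) (p : E) (L : E ≃L[ℝ] E) : Prop :=
  ∃ a b : ℝ, 0 < a ∧ ∀ ε > 0, ∀ᶠ q : E × E in 𝓝 (p, p), ∃ l ∈ Icc a b,
    ‖f q.1 - f q.2 - l • L (q.1 - q.2)‖ ≤ ε * ‖q.1 - q.2‖

/-- A regular closed `C^1` curve in a normed space, as a set. -/
def PlaneC1Curve {E : Type*} [NormedAddCommGroup E] [NormedSpace ℝ E] (C : Set E) : Prop :=
  ∃ γ : ℝ → E, ContDiff ℝ 1 γ ∧ (∀ t, deriv γ t ≠ 0) ∧
    (∀ s t, γ s = γ t ↔ ∃ n : ℤ, t = s + n) ∧ range γ = C

lemma MapSC.of_hasStrictFDerivAt {f : E → E} {p : E} {L : E ≃L[ℝ] E}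
    (h : HasStrictFDerivAt f (L : E →L[ℝ] E) p) : MapSC f p L := by
  refine ⟨1, 1, one_pos, fun ε hε => ?_⟩
  have h1 := h.isLittleO.def hε
  filter_upwards [h1] with q hq
  refine ⟨1, ⟨le_rfl, le_rfl⟩, ?_⟩
  rw [one_smul]
  exact hq

lemma MapSC.symm {f : E ≃ₜ E} {p : E} {L : E ≃L[ℝ] E} (h : MapSC f p L) {K : ℝ≥0}
    (hK : LipschitzWith K f.symm) : MapSC f.symm (f p) L.symm := by
  obtain ⟨a, b, ha, H⟩ := h
  have hb : 0 < b := by
    obtain ⟨q, l, ⟨h1, h2⟩, _⟩ := (H 1 one_pos).exists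
    linarith
  refine ⟨b⁻¹, a⁻¹, inv_pos.2 hb, fun ε hε => ?_⟩
  set C := ‖(L.symm : E →L[ℝ] E)‖ with hC
  have hC0 : 0 ≤ C := norm_nonneg _
  -- choose the accuracy
  let η := ε * a / ((C + 1) * (K + 1))
  have hK0 : (0 : ℝ) ≤ K := K.2
  have hη : 0 < η := by positivity
  have hcont : Tendsto (fun q : E × E => (f.symm q.1, f.symm q.2)) (𝓝 (f p, f p)) (𝓝 (p, p)) := by
    have h1 : Continuous (fun q : E × E => (f.symm q.1, f.symm q.2)) := by fun_prop
    have h2 := h1.tendsto (f p, f p)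
    simpa using h2
  filter_upwards [hcont.eventually (H η hη)] with q hq
  obtain ⟨l, ⟨hal, hlb⟩, hl⟩ := hq
  have hl0 : 0 < l := lt_of_lt_of_le ha hal
  refine ⟨l⁻¹, ⟨inv_anti₀ hl0 hlb, inv_anti₀ ha hal⟩, ?_⟩
  set x := f.symm q.1 with hx
  set y := f.symm q.2 with hy
  have hfx : f x = q.1 := f.apply_symm_apply _
  have hfy : f y = q.2 := f.apply_symm_apply _
  simp only [hfx, hfy] at hl
  have h3 : x - y - l⁻¹ • L.symm (q.1 - q.2) = -(l⁻¹ • L.symm (q.1 - q.2 - l • L (x - y))) := by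
    rw [map_sub L.symm (q.1 - q.2), map_smul, L.symm_apply_apply, smul_sub, smul_smul,
      inv_mul_cancel₀ hl0.ne', one_smul]
    abel
  rw [h3, norm_neg, norm_smul, norm_inv, Real.norm_of_nonneg hl0.le]
  have h4 : ‖L.symm (q.1 - q.2 - l • L (x - y))‖ ≤ C * (η * ‖x - y‖) := by
    refine ((L.symm : E →L[ℝ] E).le_opNorm _).trans ?_
    exact mul_le_mul_of_nonneg_left hl hC0
  have h5 : ‖x - y‖ ≤ K * ‖q.1 - q.2‖ := by
    have := hK.dist_le_mul q.1 q.2
    rwa [dist_eq_norm, dist_eq_norm] at this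
  have h6 : l⁻¹ ≤ a⁻¹ := inv_anti₀ ha hal
  calc l⁻¹ * ‖L.symm (q.1 - q.2 - l • L (x - y))‖
      ≤ a⁻¹ * (C * (η * (K * ‖q.1 - q.2‖))) := by
        apply mul_le_mul h6 (h4.trans _) (norm_nonneg _) (inv_nonneg.2 ha.le)
        exact mul_le_mul_of_nonneg_left (mul_le_mul_of_nonneg_left h5 hη.le) hC0
    _ = ε * ((C / (C + 1)) * (K / (K + 1))) * ‖q.1 - q.2‖ := by
        simp only [η]
        field_simp
    _ ≤ ε * (1 * 1) * ‖q.1 - q.2‖ := by
        have e1 : C / (C + 1) ≤ 1 := by rw [div_le_one (by positivity)]; linarith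
        have e2 : (K : ℝ) / (K + 1) ≤ 1 := by rw [div_le_one (by positivity)]; linarith
        gcongr
    _ = ε * ‖q.1 - q.2‖ := by ring

lemma CurveSC.comp {f : E → E} {γ : ℝ → E} {t0 : ℝ} {v : E} {L : E ≃L[ℝ] E}
    (hf : MapSC f (γ t0) L) (hγ : HasStrictDerivAt γ v t0) :
    CurveSC (fun t => f (γ t)) t0 (L v) := by
  obtain ⟨a, b, ha, H⟩ := hf
  have hb : 0 < b := by
    obtain ⟨q, l, ⟨h1, h2⟩, _⟩ := (H 1 one_pos).exists
    linarith
  refine ⟨a, b, ha, fun ε hε => ?_⟩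
  set C := ‖(L : E →L[ℝ] E)‖ with hC
  have hC0 : 0 ≤ C := norm_nonneg _
  let η1 := min 1 (ε / (2 * b * (C + 1)))
  have hη1 : 0 < η1 := lt_min one_pos (by positivity)
  have hη1' : η1 ≤ ε / (2 * b * (C + 1)) := min_le_right _ _
  have hη1'' : η1 ≤ 1 := min_le_left _ _
  let η2 := ε / (2 * (‖v‖ + 1))
  have hη2 : 0 < η2 := by positivity
  have h1 := hγ.hasStrictFDerivAt.isLittleO.def hη1
  have hcont : Tendsto (fun q : ℝ × ℝ => (γ q.1, γ q.2)) (𝓝 (t0, t0)) (𝓝 (γ t0, γ t0)) := by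
    rw [nhds_prod_eq, nhds_prod_eq]
    exact (hγ.hasDerivAt.continuousAt.tendsto).prodMap (hγ.hasDerivAt.continuousAt.tendsto)
  filter_upwards [h1, hcont.eventually (H η2 hη2)] with q hq1 hq2
  obtain ⟨l, ⟨hal, hlb⟩, hl⟩ := hq2
  refine ⟨l, ⟨hal, hlb⟩, ?_⟩
  have hl0 : 0 < l := lt_of_lt_of_le ha hal
  simp only [ContinuousLinearMap.toSpanSingleton_apply, Real.norm_eq_abs] at hq1
  set d := q.1 - q.2 with hd
  have h2 : ‖γ q.1 - γ q.2‖ ≤ (‖v‖ + 1) * |d| := by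
    have e : γ q.1 - γ q.2 = (γ q.1 - γ q.2 - d • v) + d • v := by abel
    rw [e]
    refine (norm_add_le _ _).trans ?_
    rw [norm_smul, Real.norm_eq_abs]
    have := mul_le_mul_of_nonneg_right hη1'' (abs_nonneg d)
    nlinarith
  have h3 : ‖l • L (γ q.1 - γ q.2) - (l * d) • L v‖ ≤ b * (C * (η1 * |d|)) := by
    have e : l • L (γ q.1 - γ q.2) - (l * d) • L v = l • L (γ q.1 - γ q.2 - d • v) := by
      rw [map_sub L _ (d • v), map_smul, smul_sub, smul_smul]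
    rw [e, norm_smul, Real.norm_of_nonneg hl0.le]
    apply mul_le_mul hlb _ (norm_nonneg _) hb.le
    refine ((L : E →L[ℝ] E).le_opNorm _).trans ?_
    exact mul_le_mul_of_nonneg_left hq1 hC0
  have e : f (γ q.1) - f (γ q.2) - (l * d) • L v =
      (f (γ q.1) - f (γ q.2) - l • L (γ q.1 - γ q.2)) +
        (l • L (γ q.1 - γ q.2) - (l * d) • L v) := by abel
  rw [e]
  refine (norm_add_le _ _).trans ?_
  have h4 : η2 * ‖γ q.1 - γ q.2‖ ≤ ε / 2 * |d| := by
    calc η2 * ‖γ q.1 - γ q.2‖ ≤ η2 * ((‖v‖ + 1) * |d|) := mul_le_mul_of_nonneg_left h2 hη2.le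
      _ = ε / 2 * |d| := by
        simp only [η2]
        field_simp
  have h5 : b * (C * (η1 * |d|)) ≤ ε / 2 * |d| := by
    calc b * (C * (η1 * |d|)) ≤ b * ((C + 1) * (ε / (2 * b * (C + 1)) * |d|)) := by
          gcongr
          linarith
      _ = ε / 2 * |d| := by
        field_simp
  linarith

/-- Lipschitz injective maps that are strongly differentiable up to a scalar map closed `C^1`
curves onto closed `C^1` curves. -/
theorem PlaneC1Curve.image {f : E → E} {K : ℝ≥0} (hK : LipschitzWith K f)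
    (hinj : Function.Injective f) (hf : ∀ p, ∃ L : E ≃L[ℝ] E, MapSC f p L) {C : Set E}
    (hC : PlaneC1Curve C) : PlaneC1Curve (f '' C) := by
  obtain ⟨γ, hγ, hγ0, hper, rfl⟩ := hC
  -- `γ` is Lipschitz
  have hdc : Continuous (deriv γ) := hγ.continuous_deriv le_rfl
  have hdper : ∀ t, deriv γ (t + 1) = deriv γ t := by
    intro t
    have h1 : (fun x => γ (x + 1)) = γ := by
      funext x
      exact ((hper x (x + 1)).2 ⟨1, by simp⟩).symm
    have h2 := deriv_comp_add_const γ 1 t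
    rw [h1] at h2
    exact h2.symm
  obtain ⟨M, hM⟩ : ∃ M : ℝ, ∀ t ∈ Icc (0 : ℝ) 1, ‖deriv γ t‖ ≤ M := by
    obtain ⟨M, hM⟩ := isCompact_Icc.exists_bound_of_continuousOn (hdc.continuousOn (s := Icc 0 1))
    exact ⟨M, hM⟩
  have hM' : ∀ t, ‖deriv γ t‖ ≤ M := by
    intro t
    have hp : Function.Periodic (deriv γ) 1 := hdper
    obtain ⟨y, hy, hty⟩ := hp.exists_mem_Ico₀ one_pos t
    rw [hty]
    exact hM y ⟨hy.1, hy.2.le⟩
  have hM0 : 0 ≤ M := (norm_nonneg _).trans (hM' 0)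
  have hγL : LipschitzWith ⟨M, hM0⟩ γ := by
    apply lipschitzWith_of_nnnorm_deriv_le (hγ.differentiable (by norm_num))
    intro x
    exact hM' x
  have hΓL : LipschitzWith (K * ⟨M, hM0⟩) (fun t => f (γ t)) := hK.comp hγL
  have hΓper : ∀ s t, f (γ s) = f (γ t) ↔ ∃ n : ℤ, t = s + n := by
    intro s t
    rw [hinj.eq_iff, hper]
  have hSC : ∀ t0, ∃ V : E, V ≠ 0 ∧ CurveSC (fun t => f (γ t)) t0 V := by
    intro t0
    obtain ⟨L, hL⟩ := hf (γ t0)
    refine ⟨L (deriv γ t0), ?_, CurveSC.comp hL ?_⟩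
    · rw [Ne, map_eq_zero_iff L L.injective]
      exact hγ0 t0
    · exact (hγ.contDiffAt (x := t0)).hasStrictDerivAt (by norm_num)
  obtain ⟨h, h1, h2, h3, h4⟩ := reparam hΓL hΓper hSC
  refine ⟨h, h1, h2, h3, ?_⟩
  rw [h4, ← range_comp]
  rfl

end Pool.Agent.Lib.MP_bd3523_gt
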