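import Mathlib
import Pool.Agent.Lib.MP_bd3523_gt.Centers
import Pool.Agent.Lib.MP_bd3523_gt.ScalarDiff

/-!
The homeomorphism with uncountably many non-differentiable points.
-/

open Topology Filter Set
open scoped NNReal ENNReal

namespace Pool.Agent.Lib.MP_bd3523_gt

section Construction

variable {E : Type*} [NormedAddCommGroup E] [InnerProductSpace ℝ E] (w : E)

/-- The field at level `m`. -/
noncomputable def WW (m : ℕ) (x : E) : E := ∑ c ∈ Cs w m, PP m (x - c)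

/-- The two point factor at level `m`. -/
noncomputable def GG (m : ℕ) (x y : E) : ℝ := ∑ c ∈ Cs w m, gg m (max ‖x - c‖ ‖y - c‖)

/-- Sum over a finite set of levels. -/
noncomputable def US (S : Finset ℕ) (x : E) : E := (1 / 4 : ℝ) • ∑ m ∈ S, WW w m x

lemma WW_diff (m : ℕ) (x y : E) :
    ‖WW w m x - WW w m y - GG w m x y • (x - y)‖ ≤ (1 / 2) ^ m / 8 * ‖x - y‖ := by
  have e : WW w m x - WW w m y - GG w m x y • (x - y) =
      ∑ c ∈ Cs w m, (PP m (x - c) - PP m (y - c) -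
        gg m (max ‖x - c‖ ‖y - c‖) • ((x - c) - (y - c))) := by
    unfold WW GG
    rw [Finset.sum_sub_distrib, Finset.sum_sub_distrib, Finset.sum_smul]
    congr 1
    apply Finset.sum_congr rfl
    intro c _
    congr 1
    abel
  rw [e]
  refine (norm_sum_le _ _).trans ?_
  have h1 : ∀ c ∈ Cs w m, ‖PP m (x - c) - PP m (y - c) -
        gg m (max ‖x - c‖ ‖y - c‖) • ((x - c) - (y - c))‖ ≤ 2 * MM * kap m * ‖x - y‖ := by
    intro c _
    refine (PP_diff m (x - c) (y - c)).trans ?_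
    rw [sub_sub_sub_cancel_right]
  refine (Finset.sum_le_card_nsmul _ _ _ h1).trans ?_
  rw [nsmul_eq_mul]
  have h2 : ((Cs w m).card : ℝ) ≤ 2 ^ m := by exact_mod_cast Cs_card w m
  have h3 : (0 : ℝ) ≤ MM := MM.2
  have h4 := kap_pos m
  have h5 := kap_err m
  have h6 := norm_nonneg (x - y)
  calc ((Cs w m).card : ℝ) * (2 * MM * kap m * ‖x - y‖)
      ≤ 2 ^ m * (2 * MM * kap m * ‖x - y‖) := mul_le_mul_of_nonneg_right h2 (by positivity)
    _ = 2 ^ m * (2 * MM * kap m) * ‖x - y‖ := by ring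
    _ ≤ (1 / 2) ^ m / 8 * ‖x - y‖ := mul_le_mul_of_nonneg_right h5 h6

lemma US_diff (S : Finset ℕ) (x y : E) :
    ‖US w S x - US w S y - ((1 / 4 : ℝ) * ∑ m ∈ S, GG w m x y) • (x - y)‖ ≤
      (1 / 4) * (∑ m ∈ S, (1 / 2 : ℝ) ^ m / 8) * ‖x - y‖ := by
  have e : US w S x - US w S y - ((1 / 4 : ℝ) * ∑ m ∈ S, GG w m x y) • (x - y) =
      (1 / 4 : ℝ) • ∑ m ∈ S, (WW w m x - WW w m y - GG w m x y • (x - y)) := by
    unfold US
    rw [Finset.sum_sub_distrib, Finset.sum_sub_distrib, ← Finset.sum_smul]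
    module
  rw [e, norm_smul, Real.norm_of_nonneg (by norm_num), mul_assoc]
  apply mul_le_mul_of_nonneg_left _ (by norm_num)
  rw [Finset.sum_mul]
  exact (norm_sum_le _ _).trans (Finset.sum_le_sum fun m _ => WW_diff w m x y)

lemma sum_unique_le {ι : Type*} (s : Finset ι) (f : ι → ℝ) (h0 : ∀ i ∈ s, 0 ≤ f i)
    (h1 : ∀ i ∈ s, f i ≤ 1) (hu : ∀ i ∈ s, ∀ j ∈ s, f i ≠ 0 → f j ≠ 0 → i = j) :
    0 ≤ ∑ i ∈ s, f i ∧ ∑ i ∈ s, f i ≤ 1 := by
  refine ⟨Finset.sum_nonneg h0, ?_⟩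
  by_cases h : ∃ i ∈ s, f i ≠ 0
  · obtain ⟨i, hi, hfi⟩ := h
    rw [Finset.sum_eq_single i]
    · exact h1 i hi
    · intro j hj hji
      by_contra hfj
      exact hji (hu j hj i hi hfj hfi)
    · intro hcon; exact absurd hi hcon
  · push Not at h
    rw [Finset.sum_eq_zero h]
    exact zero_le_one

variable {w} (hw : ‖w‖ = 1)

include hw in
lemma GG_sum (S : Finset ℕ) (x y : E) :
    0 ≤ ∑ m ∈ S, GG w m x y ∧ ∑ m ∈ S, GG w m x y ≤ 1 := by
  unfold GG
  rw [Finset.sum_sigma']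
  apply sum_unique_le
  · intro i _; exact gg_nonneg _ _
  · intro i _; exact gg_le_one _ _
  · rintro ⟨m, c⟩ hi ⟨m', c'⟩ hj hfi hfj
    rw [Finset.mem_sigma] at hi hj
    obtain ⟨h1, h2⟩ := Act.unique hw hi.2 hj.2 (x := x) (y := y) hfi hfj
    simp only at h1 h2
    subst h1
    subst h2
    rfl

lemma geom_sum_le (S : Finset ℕ) (k : ℕ) (hS : ∀ m ∈ S, k ≤ m) :
    ∑ m ∈ S, (1 / 2 : ℝ) ^ m / 8 ≤ (1 / 2) ^ k / 4 := by
  have hsum : Summable (fun n : ℕ => (1 / 2 : ℝ) ^ (n + k) / 8) := by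
    apply Summable.div_const
    simp_rw [pow_add]
    exact summable_geometric_two.mul_right _
  have h1 : ∑ m ∈ S, (1 / 2 : ℝ) ^ m / 8 = ∑ n ∈ S.image (fun m => m - k),
      (1 / 2 : ℝ) ^ (n + k) / 8 := by
    rw [Finset.sum_image]
    · apply Finset.sum_congr rfl
      intro m hm
      rw [Nat.sub_add_cancel (hS m hm)]
    · intro a ha b hb hab
      have h2 := hS a ha
      have h3 := hS b hb
      simp only at hab
      omega
  rw [h1]
  refine (hsum.sum_le_tsum _ (fun n _ => by positivity)).trans ?_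
  rw [tsum_div_const]
  simp_rw [pow_add]
  rw [tsum_mul_right, tsum_geometric_two]
  linarith

include hw in
lemma US_lip (S : Finset ℕ) (x y : E) : ‖US w S x - US w S y‖ ≤ 1 / 2 * ‖x - y‖ := by
  have h1 := US_diff w S x y
  obtain ⟨h2, h3⟩ := GG_sum hw S x y
  have h4 := geom_sum_le S 0 (fun m _ => Nat.zero_le m)
  have e : US w S x - US w S y = (US w S x - US w S y -
      ((1 / 4 : ℝ) * ∑ m ∈ S, GG w m x y) • (x - y)) +
      ((1 / 4 : ℝ) * ∑ m ∈ S, GG w m x y) • (x - y) := by abel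
  rw [e]
  refine (norm_add_le _ _).trans ?_
  rw [norm_smul, Real.norm_of_nonneg (by positivity)]
  have h5 := norm_nonneg (x - y)
  have h6 : (1 / 4 : ℝ) * (∑ m ∈ S, (1 / 2 : ℝ) ^ m / 8) * ‖x - y‖ ≤ 1 / 4 * (1 / 4) * ‖x - y‖ := by
    apply mul_le_mul_of_nonneg_right _ h5
    apply mul_le_mul_of_nonneg_left _ (by norm_num)
    simpa using h4
  nlinarith

lemma WW_eq_zero_of {m : ℕ} {x : E} (h : ∀ c ∈ Cs w m, gg m ‖x - c‖ = 0) : WW w m x = 0 := by
  unfold WW
  apply Finset.sum_eq_zero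
  intro c hc
  unfold PP
  rw [h c hc, zero_smul]

lemma exists_of_WW_ne_zero {m : ℕ} {x : E} (h : WW w m x ≠ 0) :
    ∃ c ∈ Cs w m, gg m ‖x - c‖ ≠ 0 := by
  by_contra hcon
  push Not at hcon
  exact h (WW_eq_zero_of hcon)

include hw in
lemma WW_unique {m m' : ℕ} {x : E} (h : WW w m x ≠ 0) (h' : WW w m' x ≠ 0) : m = m' := by
  obtain ⟨c, hc, hg⟩ := exists_of_WW_ne_zero h
  obtain ⟨c', hc', hg'⟩ := exists_of_WW_ne_zero h'
  have h1 : Act m c x x := by unfold Act; rwa [max_self]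
  have h2 : Act m' c' x x := by unfold Act; rwa [max_self]
  exact (h1.unique hw hc hc' h2).1

include hw in
lemma exists_stable (x : E) : ∃ N, ∀ S : Finset ℕ, Finset.range N ⊆ S →
    US w S x = US w (Finset.range N) x := by
  by_cases h : ∃ m, WW w m x ≠ 0
  · obtain ⟨m, hm⟩ := h
    refine ⟨m + 1, fun S hS => ?_⟩
    unfold US
    congr 1
    symm
    apply Finset.sum_subset hS
    intro k _ hk
    by_contra hne
    have := WW_unique hw hm hne
    subst this
    exact hk (Finset.mem_range.2 (Nat.lt_succ_self _))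
  · push Not at h
    refine ⟨0, fun S _ => ?_⟩
    unfold US
    simp [h]

/-- The displacement field. -/
noncomputable def uu (x : E) : E := US w (Finset.range (exists_stable hw x).choose) x

lemma uu_eq (x : E) : ∃ N, ∀ S : Finset ℕ, Finset.range N ⊆ S → uu hw x = US w S x := by
  refine ⟨(exists_stable hw x).choose, fun S hS => ?_⟩
  exact ((exists_stable hw x).choose_spec S hS).symm

lemma uu_eq_pair (x y : E) : ∃ N, ∀ S : Finset ℕ, Finset.range N ⊆ S →
    uu hw x = US w S x ∧ uu hw y = US w S y := by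
  obtain ⟨N, hN⟩ := uu_eq hw x
  obtain ⟨N', hN'⟩ := uu_eq hw y
  refine ⟨max N N', fun S hS => ⟨hN S ?_, hN' S ?_⟩⟩
  · exact (Finset.range_subset_range.2 (le_max_left _ _)).trans hS
  · exact (Finset.range_subset_range.2 (le_max_right _ _)).trans hS

lemma uu_lip (x y : E) : ‖uu hw x - uu hw y‖ ≤ 1 / 2 * ‖x - y‖ := by
  obtain ⟨N, hN⟩ := uu_eq_pair hw x y
  obtain ⟨h1, h2⟩ := hN _ subset_rfl
  rw [h1, h2]
  exact US_lip hw _ x y

/-- The map. -/
noncomputable def ff (x : E) : E := x + uu hw x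

/-- If the levels `≤ m` vanish at both points, then `ff` is scalar up to a small error. -/
lemma ff_diff (m : ℕ) {x y : E} (hx : ∀ i ≤ m, WW w i x = 0) (hy : ∀ i ≤ m, WW w i y = 0) :
    ∃ l ∈ Icc (1 : ℝ) 2, ‖ff hw x - ff hw y - l • (x - y)‖ ≤ (1 / 2) ^ m * ‖x - y‖ := by
  obtain ⟨N, hN⟩ := uu_eq_pair hw x y
  let S : Finset ℕ := (Finset.range N).filter (fun i => m + 1 ≤ i)
  have hS : ∀ z : E, (∀ i ≤ m, WW w i z = 0) → US w (Finset.range N) z = US w S z := by
    intro z hz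
    unfold US
    congr 1
    symm
    apply Finset.sum_subset (Finset.filter_subset _ _)
    intro i hi hi'
    apply hz
    simp only [Finset.mem_filter, not_and, not_le] at hi'
    have := hi' hi
    omega
  obtain ⟨h1, h2⟩ := hN _ subset_rfl
  obtain ⟨h3, h4⟩ := GG_sum hw S x y
  refine ⟨1 + 1 / 4 * ∑ i ∈ S, GG w i x y, ⟨by linarith, by linarith⟩, ?_⟩
  have e : ff hw x - ff hw y - (1 + 1 / 4 * ∑ i ∈ S, GG w i x y) • (x - y) =
      US w S x - US w S y - ((1 / 4 : ℝ) * ∑ m ∈ S, GG w m x y) • (x - y) := by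
    unfold ff
    rw [h1, h2, hS x hx, hS y hy, add_smul, one_smul]
    abel
  rw [e]
  refine (US_diff w S x y).trans ?_
  apply mul_le_mul_of_nonneg_right _ (norm_nonneg _)
  have h5 := geom_sum_le S (m + 1) (fun i hi => (Finset.mem_filter.1 hi).2)
  have h6 : (0 : ℝ) < (1 / 2) ^ m := by positivity
  rw [pow_succ] at h5
  linarith

include hw in
lemma WW_zero_inner {m : ℕ} {c x : E} (hc : c ∈ Cs w m) (hx : ‖x - c‖ ≤ rr m) :
    WW w m x = 0 := by
  apply WW_eq_zero_of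
  intro c' hc'
  by_cases h : c' = c
  · subst h
    exact gg_of_le (norm_nonneg _) hx
  · apply gg_of_ge
    by_contra hcon
    rw [not_le] at hcon
    exact h (Cs_unique hw hc' hc hcon.le (hx.trans (rr_lt_RR m).le))

include hw in
lemma WW_zero_inner' {m : ℕ} {c x : E} (hc : c ∈ Cs w m) (hx : ‖x - c‖ ≤ rr m) :
    ∀ i ≤ m, WW w i x = 0 := by
  intro i hi
  rcases hi.eq_or_lt with rfl | hlt
  · exact WW_zero_inner hw hc hx
  · obtain ⟨c', hc', h1⟩ := Cs_nested' hw hlt hc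
    apply WW_zero_inner hw hc'
    have h2 := h1 x (hx.trans (rr_lt_RR m).le)
    have := rr_pos i
    linarith

/-- The Cantor set. -/
def KK (w : E) : Set E := {p | ∀ m, ∃ c ∈ Cs w m, ‖p - c‖ ≤ RR m}

include hw in
lemma KK_inner {p : E} (hp : p ∈ KK w) (m : ℕ) : ∃ c ∈ Cs w m, ‖p - c‖ < rr m := by
  obtain ⟨c', hc', h⟩ := hp (m + 1)
  obtain ⟨c, hc, h1⟩ := Cs_nested' hw (Nat.lt_succ_self m) hc'
  refine ⟨c, hc, ?_⟩
  have h2 := h1 p h
  have := rr_pos m
  linarith

lemma ff_SC_of_mem {p : E} (hp : p ∈ KK w) : MapSC (ff hw) p (ContinuousLinearEquiv.refl ℝ E) := by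
  refine ⟨1, 2, one_pos, fun ε hε => ?_⟩
  obtain ⟨m, hm⟩ := exists_pow_lt_of_lt_one hε (by norm_num : (1 / 2 : ℝ) < 1)
  obtain ⟨c, hc, hpc⟩ := KK_inner hw hp m
  have hopen : {x : E | ‖x - c‖ < rr m} ∈ 𝓝 p := by
    have ho : IsOpen {x : E | ‖x - c‖ < rr m} := isOpen_lt (by fun_prop) continuous_const
    exact ho.mem_nhds hpc
  have h2 : {x : E | ‖x - c‖ < rr m} ×ˢ {x : E | ‖x - c‖ < rr m} ∈ 𝓝 (p, p) :=
    prod_mem_nhds hopen hopen
  filter_upwards [h2] with q hq
  obtain ⟨l, hl, h3⟩ := ff_diff hw m (WW_zero_inner' hw hc (le_of_lt hq.1))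
    (WW_zero_inner' hw hc (le_of_lt hq.2))
  refine ⟨l, hl, ?_⟩
  refine h3.trans ?_
  exact mul_le_mul_of_nonneg_right hm.le (norm_nonneg _)

lemma US_contDiff (S : Finset ℕ) : ContDiff ℝ 1 (US w S : E → E) := by
  unfold US
  apply ContDiff.const_smul
  apply ContDiff.sum
  intro m _
  unfold WW
  apply ContDiff.sum
  intro c _
  exact (PP_contDiff m).comp (contDiff_id.sub contDiff_const)

/-- If `x` is outside all discs of level `m`, all fields of level at least `m` vanish. -/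
lemma WW_zero_outer (hw : ‖w‖ = 1) {m : ℕ} {x : E} (hx : ∀ c ∈ Cs w m, RR m < ‖x - c‖) :
    ∀ i, m ≤ i → WW w i x = 0 := by
  intro i hi
  by_contra hne
  obtain ⟨c', hc', hg⟩ := exists_of_WW_ne_zero hne
  have h1 : ‖x - c'‖ < RR i := by
    by_contra hcon
    rw [not_lt] at hcon
    exact hg (gg_of_ge hcon)
  rcases hi.eq_or_lt with rfl | hlt
  · have := hx c' hc'
    linarith
  · obtain ⟨c, hc, h2⟩ := Cs_nested' hw hlt hc'
    have h3 := h2 x h1.le
    have h4 := hx c hc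
    have h5 := rr_lt_RR m
    have h6 := rr_pos m
    linarith

lemma uu_eq_of_outer {m : ℕ} {x : E} (hx : ∀ c ∈ Cs w m, RR m < ‖x - c‖) :
    uu hw x = US w (Finset.range m) x := by
  obtain ⟨N, hN⟩ := uu_eq hw x
  rw [hN (Finset.range (max N m)) (Finset.range_subset_range.2 (le_max_left _ _))]
  unfold US
  congr 1
  symm
  apply Finset.sum_subset (Finset.range_subset_range.2 (le_max_right _ _))
  intro i _ hi
  apply WW_zero_outer hw hx
  rw [Finset.mem_range, not_lt] at hi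
  exact hi

lemma ff_SC_of_notMem [CompleteSpace E] {p : E} (hp : p ∉ KK w) :
    ∃ L : E ≃L[ℝ] E, MapSC (ff hw) p L := by
  unfold KK at hp
  simp only [mem_ofPred_eq, not_forall, not_exists, not_and, not_le] at hp
  obtain ⟨m, hm⟩ := hp
  have hev : ∀ᶠ x in 𝓝 p, ∀ c ∈ Cs w m, RR m < ‖x - c‖ := by
    rw [Finset.eventually_all]
    intro c hc
    exact (isOpen_lt continuous_const (by fun_prop : Continuous fun x : E => ‖x - c‖)).mem_nhds
      (hm c hc)
  have heq : (fun x => x + US w (Finset.range m) x) =ᶠ[𝓝 p] ff hw := by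
    filter_upwards [hev] with x hx
    unfold ff
    rw [uu_eq_of_outer hw hx]
  have hC : ContDiff ℝ 1 (US w (Finset.range m) : E → E) := US_contDiff _
  set D := fderiv ℝ (US w (Finset.range m) : E → E) p with hD
  have hDn : ‖D‖ ≤ 1 / 2 := by
    have hlip : LipschitzWith (1 / 2 : ℝ≥0) (US w (Finset.range m) : E → E) := by
      apply LipschitzWith.of_dist_le_mul
      intro x y
      rw [dist_eq_norm, dist_eq_norm]
      have := US_lip hw (Finset.range m) x y
      simpa using this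
    have := norm_fderiv_le_of_lipschitz ℝ hlip (x₀ := p)
    simpa using this
  have hstrict : HasStrictFDerivAt (US w (Finset.range m) : E → E) D p :=
    hC.contDiffAt.hasStrictFDerivAt (by norm_num)
  have hs2 : HasStrictFDerivAt (fun x => x + US w (Finset.range m) x)
      (ContinuousLinearMap.id ℝ E + D) p := (hasStrictFDerivAt_id p).add hstrict
  have hlt : ‖-D‖ < 1 := by rw [norm_neg]; linarith
  let un : (E →L[ℝ] E)ˣ := Units.oneSub (-D) hlt
  let L : E ≃L[ℝ] E := ContinuousLinearEquiv.unitsEquiv ℝ E un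
  have hL : (L : E →L[ℝ] E) = ContinuousLinearMap.id ℝ E + D := by
    ext x
    change (un : E →L[ℝ] E) x = _
    simp [un]
  refine ⟨L, MapSC.of_hasStrictFDerivAt ?_⟩
  rw [hL]
  exact hs2.congr_of_eventuallyEq heq

lemma ff_SC [CompleteSpace E] (p : E) : ∃ L : E ≃L[ℝ] E, MapSC (ff hw) p L := by
  by_cases hp : p ∈ KK w
  · exact ⟨_, ff_SC_of_mem hw hp⟩
  · exact ff_SC_of_notMem hw hp

end Construction

end Pool.Agent.Lib.MP_bd3523_gt
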