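import Mathlib
import Pool.Agent.Lib.MP_bd3523_gt.Construction

/-!
The homeomorphism, and its uncountably many non-differentiable points.
-/

open Topology Filter Set
open scoped NNReal ENNReal

namespace Pool.Agent.Lib.MP_bd3523_gt

section Homeo

variable {E : Type*} [NormedAddCommGroup E] [InnerProductSpace ℝ E]
  {w : E} (hw : ‖w‖ = 1)

lemma ff_approx : ApproximatesLinearOn (ff hw) ((ContinuousLinearEquiv.refl ℝ E : E ≃L[ℝ] E) :
    E →L[ℝ] E) univ (1 / 2 : ℝ≥0) := by
  intro x _ y _
  have e : ff hw x - ff hw y - ((ContinuousLinearEquiv.refl ℝ E : E ≃L[ℝ] E) : E →L[ℝ] E) (x - y) =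
      uu hw x - uu hw y := by
    simp only [ContinuousLinearEquiv.coe_refl, ContinuousLinearMap.coe_id', id_eq]
    unfold ff
    abel
  rw [e]
  have := uu_lip hw x y
  simpa using this

lemma hc_cond : Subsingleton E ∨ (1 / 2 : ℝ≥0) <
    ‖((ContinuousLinearEquiv.refl ℝ E).symm : E →L[ℝ] E)‖₊⁻¹ := by
  rcases subsingleton_or_nontrivial E with h | h
  · exact Or.inl h
  · right
    have e : ((ContinuousLinearEquiv.refl ℝ E).symm : E →L[ℝ] E) = ContinuousLinearMap.id ℝ E := rfl
    rw [e, ContinuousLinearMap.nnnorm_id]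
    rw [inv_one]
    exact NNReal.half_lt_self one_ne_zero

variable [CompleteSpace E]

/-- The homeomorphism. -/
noncomputable def FF : E ≃ₜ E := (ff_approx hw).toHomeomorph (ff hw) hc_cond

lemma FF_apply (x : E) : FF hw x = ff hw x := rfl

omit [CompleteSpace E] in
lemma ff_antilip (x y : E) : ‖x - y‖ ≤ 2 * ‖ff hw x - ff hw y‖ := by
  have h1 := uu_lip hw x y
  have e : x - y = (ff hw x - ff hw y) - (uu hw x - uu hw y) := by unfold ff; abel
  have h2 : ‖x - y‖ ≤ ‖ff hw x - ff hw y‖ + ‖uu hw x - uu hw y‖ := by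
    calc ‖x - y‖ = ‖(ff hw x - ff hw y) - (uu hw x - uu hw y)‖ := by rw [← e]
      _ ≤ _ := norm_sub_le _ _
  linarith

omit [CompleteSpace E] in
lemma ff_lip : LipschitzWith 2 (ff hw) := by
  apply LipschitzWith.of_dist_le_mul
  intro x y
  rw [dist_eq_norm, dist_eq_norm]
  have h1 := uu_lip hw x y
  have e : ff hw x - ff hw y = (x - y) + (uu hw x - uu hw y) := by unfold ff; abel
  rw [e]
  refine (norm_add_le _ _).trans ?_
  have := norm_nonneg (x - y)
  push_cast
  linarith

lemma FF_symm_lip : LipschitzWith 2 (FF hw).symm := by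
  apply LipschitzWith.of_dist_le_mul
  intro x y
  rw [dist_eq_norm, dist_eq_norm]
  have h := ff_antilip hw ((FF hw).symm x) ((FF hw).symm y)
  rw [← FF_apply, ← FF_apply, (FF hw).apply_symm_apply, (FF hw).apply_symm_apply] at h
  exact h

lemma FF_SC (p : E) : ∃ L : E ≃L[ℝ] E, MapSC (FF hw) p L := ff_SC hw p

lemma FF_symm_SC (p : E) : ∃ L : E ≃L[ℝ] E, MapSC (FF hw).symm p L := by
  obtain ⟨L, hL⟩ := FF_SC hw ((FF hw).symm p)
  have := hL.symm (FF_symm_lip hw)
  rw [(FF hw).apply_symm_apply] at this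
  exact ⟨_, this⟩

lemma FF_image {C : Set E} (hC : PlaneC1Curve C) : PlaneC1Curve (FF hw '' C) :=
  hC.image (ff_lip hw) (FF hw).injective (FF_SC hw)

lemma FF_symm_image {C : Set E} (hC : PlaneC1Curve C) : PlaneC1Curve ((FF hw).symm '' C) :=
  hC.image (FF_symm_lip hw) (FF hw).symm.injective (FF_symm_SC hw)

end Homeo

section Points

variable {E : Type*} [NormedAddCommGroup E] [InnerProductSpace ℝ E] (w : E)

/-- The sequence of centres of a binary sequence. -/
noncomputable def cc (a : ℕ → Bool) : ℕ → E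
  | 0 => 0
  | m + 1 => cc a m + (if a m then rr m / 2 else 0) • w

lemma cc_mem (a : ℕ → Bool) (m : ℕ) : cc w a m ∈ Cs w m := by
  induction m with
  | zero => simp [cc, Cs]
  | succ m ih =>
    rw [cc, mem_Cs_succ]
    cases h : a m
    · left; simpa using ih
    · right; exact ⟨_, ih, by simp⟩

variable {w} (hw : ‖w‖ = 1)

include hw in
lemma cc_step (a : ℕ → Bool) (m : ℕ) : ‖cc w a (m + 1) - cc w a m‖ ≤ rr m / 2 := by
  have hr := rr_pos m
  rw [cc, add_sub_cancel_left, norm_smul, hw, mul_one]
  split_ifs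
  · rw [Real.norm_of_nonneg (by positivity)]
  · rw [norm_zero]; positivity

include hw in
lemma ball_nested (a : ℕ → Bool) (m k : ℕ) {x : E}
    (hx : ‖x - cc w a (m + k)‖ ≤ 5 / 8 * rr (m + k)) : ‖x - cc w a m‖ ≤ 5 / 8 * rr m := by
  induction k with
  | zero => exact hx
  | succ k ih =>
    apply ih
    have h1 : ‖x - cc w a (m + k)‖ ≤ ‖x - cc w a (m + (k + 1))‖ +
        ‖cc w a (m + k + 1) - cc w a (m + k)‖ := by
      have e : x - cc w a (m + k) = (x - cc w a (m + (k + 1))) +
        (cc w a (m + k + 1) - cc w a (m + k)) := by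
          have : m + (k + 1) = m + k + 1 := by ring
          rw [this]; abel
      rw [e]
      exact norm_add_le _ _
    have h2 := cc_step hw a (m + k)
    have h3 := rr_succ_le (m + k)
    have h4 : rr (m + (k + 1)) = rr (m + k + 1) := by ring_nf
    have h5 := rr_pos (m + k)
    rw [h4] at hx
    linarith

include hw in
lemma cc_close (a : ℕ → Bool) {m n : ℕ} (h : m ≤ n) : ‖cc w a n - cc w a m‖ ≤ 5 / 8 * rr m := by
  obtain ⟨k, rfl⟩ := Nat.exists_eq_add_of_le h
  apply ball_nested hw a m k
  rw [sub_self, norm_zero]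
  have := rr_pos (m + k)
  positivity

lemma rr_tendsto : Tendsto rr atTop (𝓝 0) := by
  apply squeeze_zero (fun m => (rr_pos m).le) rr_le_pow
  exact tendsto_pow_atTop_nhds_zero_of_lt_one (by norm_num) (by norm_num)

variable [CompleteSpace E]

include hw in
lemma exists_limit (a : ℕ → Bool) : ∃ p : E, ∀ m, ‖p - cc w a m‖ ≤ 5 / 8 * rr m := by
  have hC : CauchySeq (cc w a) := by
    rw [Metric.cauchySeq_iff']
    intro ε hε
    obtain ⟨N, hN⟩ := (rr_tendsto.eventually (gt_mem_nhds hε)).exists
    refine ⟨N, fun n hn => ?_⟩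
    rw [dist_eq_norm]
    have h1 := cc_close hw a hn
    have h2 := rr_pos N
    linarith
  obtain ⟨p, hp⟩ := cauchySeq_tendsto_of_complete hC
  refine ⟨p, fun m => ?_⟩
  have h1 : Tendsto (fun n => ‖cc w a n - cc w a m‖) atTop (𝓝 ‖p - cc w a m‖) :=
    (hp.sub_const _).norm
  exact le_of_tendsto h1 (eventually_atTop.2 ⟨m, fun n hn => cc_close hw a hn⟩)

/-- The point of the Cantor set coded by a binary sequence. -/
noncomputable def pp (a : ℕ → Bool) : E := (exists_limit hw a).choose

lemma pp_spec (a : ℕ → Bool) (m : ℕ) : ‖pp hw a - cc w a m‖ ≤ 5 / 8 * rr m :=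
  (exists_limit hw a).choose_spec m

lemma pp_injective : Function.Injective (pp hw) := by
  intro a b hab
  have h1 : ∀ m, cc w a m = cc w b m := by
    intro m
    apply Cs_unique hw (x := pp hw a) (cc_mem w a m) (cc_mem w b m)
    · have := pp_spec hw a m
      have h2 := rr_lt_RR m
      have h3 := rr_pos m
      linarith
    · have := pp_spec hw b m
      rw [← hab] at this
      have h2 := rr_lt_RR m
      have h3 := rr_pos m
      linarith
  funext m
  have h2 := h1 (m + 1)
  rw [cc, cc, h1 m, add_right_inj] at h2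
  have hr := rr_pos m
  have hw0 : w ≠ 0 := by
    intro h
    rw [h, norm_zero] at hw
    exact zero_ne_one hw
  have h3 := smul_left_injective ℝ hw0 h2
  cases ha : a m <;> cases hb : b m <;> simp only [ha, hb] at h3 ⊢
  · simp at h3; linarith
  · simp at h3; linarith

omit [CompleteSpace E] in
/-- In the middle annulus the displacement is a quarter of the position. -/
lemma uu_mid {m : ℕ} {c x : E} (hc : c ∈ Cs w m) (h1 : al m ≤ ‖x - c‖) (h2 : ‖x - c‖ ≤ 2 * al m) :
    uu hw x = (1 / 4 : ℝ) • (x - c) := by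
  have hg : gg m ‖x - c‖ = 1 := gg_eq_one h1 h2
  have hact : Act m c x x := by
    unfold Act
    rw [max_self, hg]
    exact one_ne_zero
  have hW : ∀ i, i ≠ m → WW w i x = 0 := by
    intro i hi
    by_contra hne
    obtain ⟨c', hc', hg'⟩ := exists_of_WW_ne_zero hne
    have hact' : Act i c' x x := by unfold Act; rwa [max_self]
    exact hi (hact'.unique hw hc' hc hact).1
  have hWm : WW w m x = x - c := by
    unfold WW
    rw [Finset.sum_eq_single c]
    · unfold PP
      rw [hg, one_smul]
    · intro c' hc' hne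
      unfold PP
      by_cases h0 : gg m ‖x - c'‖ = 0
      · rw [h0, zero_smul]
      · exfalso
        have hact' : Act m c' x x := by unfold Act; rwa [max_self]
        exact hne (hact'.unique hw hc' hc hact).2
    · intro hcon; exact absurd hc hcon
  obtain ⟨N, hN⟩ := uu_eq hw x
  rw [hN (Finset.range (max N (m + 1))) (Finset.range_subset_range.2 (le_max_left _ _))]
  unfold US
  rw [Finset.sum_eq_single m, hWm]
  · intro i _ hi
    exact hW i hi
  · intro hcon
    exfalso
    apply hcon
    rw [Finset.mem_range]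
    exact lt_of_lt_of_le (Nat.lt_succ_self m) (le_max_right _ _)

omit [CompleteSpace E] in
/-- In the gap region the displacement vanishes. -/
lemma uu_gap {m : ℕ} {c x : E} (hc : c ∈ Cs w m) (h1 : 5 / 8 * rr m < ‖x - c‖)
    (h2 : ‖x - c‖ ≤ rr m) : uu hw x = 0 := by
  have hW : ∀ i, WW w i x = 0 := by
    intro i
    rcases le_or_gt i m with hi | hi
    · exact WW_zero_inner' hw hc h2 i hi
    · by_contra hne
      obtain ⟨c', hc', hg'⟩ := exists_of_WW_ne_zero hne
      have h3 : ‖x - c'‖ < RR i := by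
        by_contra hcon
        rw [not_lt] at hcon
        exact hg' (gg_of_ge hcon)
      obtain ⟨c'', hc'', h4⟩ := Cs_nested' hw hi hc'
      have h5 := h4 x h3.le
      have h6 := rr_lt_RR m
      have h7 := rr_pos m
      have h8 : c = c'' := Cs_unique hw hc hc'' (by linarith) (by linarith)
      subst h8
      linarith
  obtain ⟨N, hN⟩ := uu_eq hw x
  rw [hN _ subset_rfl]
  unfold US
  simp [hW]

lemma not_differentiableAt_pp (a : ℕ → Bool) : ¬ DifferentiableAt ℝ (ff hw) (pp hw a) := by
  intro hd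
  obtain ⟨D, hD⟩ := hd
  set p := pp hw a with hp
  have hε : (0 : ℝ) < 1 / 100 := by norm_num
  have h1 := (hasFDerivAt_iff_isLittleO.1 hD).def hε
  obtain ⟨δ, hδ, hball⟩ := Metric.eventually_nhds_iff.1 h1
  -- comparison of two points
  have hpair : ∀ x y : E, ∀ R : ℝ, ‖x - p‖ ≤ R → ‖y - p‖ ≤ R → R < δ →
      ‖ff hw x - ff hw y - D (x - y)‖ ≤ 1 / 50 * R := by
    intro x y R hx hy hR
    have hx' := hball (y := x) (by rw [dist_eq_norm]; linarith)
    have hy' := hball (y := y) (by rw [dist_eq_norm]; linarith)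
    have e : ff hw x - ff hw y - D (x - y) = (ff hw x - ff hw p - D (x - p)) -
        (ff hw y - ff hw p - D (y - p)) := by
      have : D (x - y) = D (x - p) - D (y - p) := by rw [← map_sub]; congr 1; abel
      rw [this]; abel
    rw [e]
    refine (norm_sub_le _ _).trans ?_
    linarith
  -- choose a small scale
  obtain ⟨m, hm⟩ : ∃ m : ℕ, rr m < δ / 16 :=
    (rr_tendsto.eventually (gt_mem_nhds (by positivity : (0 : ℝ) < δ / 16))).exists
  set c := cc w a (m + 1) with hc
  have hcm : c ∈ Cs w (m + 1) := cc_mem w a (m + 1)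
  have hpc : ‖p - c‖ ≤ 5 / 8 * rr (m + 1) := pp_spec hw a (m + 1)
  have hr := rr_pos (m + 1)
  have hal := al_pos (m + 1)
  have hral := rr_lt_al (m + 1)
  have haR : 2 * al (m + 1) < rr m / 8 := by
    have := two_al_lt_RR (m + 1)
    rwa [RR_succ] at this
  -- first pair
  have hA : ‖(5 / 4 : ℝ) • w - D w‖ ≤ 6 / 100 := by
    set A := al (m + 1) with hA
    have n1 : ‖(c + (2 * A) • w) - c‖ = 2 * A := by
      rw [add_sub_cancel_left, norm_smul, hw, mul_one, Real.norm_of_nonneg (by positivity)]
    have n2 : ‖(c + A • w) - c‖ = A := by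
      rw [add_sub_cancel_left, norm_smul, hw, mul_one, Real.norm_of_nonneg hal.le]
    have u1 := uu_mid hw hcm (x := c + (2 * A) • w) (by rw [n1]; linarith) (by rw [n1])
    have u2 := uu_mid hw hcm (x := c + A • w) (by rw [n2]) (by rw [n2]; linarith)
    have d1 : ‖(c + (2 * A) • w) - p‖ ≤ 3 * A := by
      have e : (c + (2 * A) • w) - p = ((c + (2 * A) • w) - c) - (p - c) := by abel
      rw [e]
      refine (norm_sub_le _ _).trans ?_
      rw [n1]; linarith
    have d2 : ‖(c + A • w) - p‖ ≤ 3 * A := by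
      have e : (c + A • w) - p = ((c + A • w) - c) - (p - c) := by abel
      rw [e]
      refine (norm_sub_le _ _).trans ?_
      rw [n2]; linarith
    have h3 := hpair _ _ (3 * A) d1 d2 (by linarith)
    have e : ff hw (c + (2 * A) • w) - ff hw (c + A • w) - D ((c + (2 * A) • w) - (c + A • w)) =
        A • ((5 / 4 : ℝ) • w - D w) := by
      unfold ff
      rw [u1, u2]
      have e2 : (c + (2 * A) • w) - (c + A • w) = A • w := by module
      rw [e2, map_smul]
      module
    rw [e, norm_smul, Real.norm_of_nonneg hal.le] at h3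
    have h4 : A * ‖(5 / 4 : ℝ) • w - D w‖ ≤ A * (6 / 100) := by linarith
    exact le_of_mul_le_mul_left h4 hal
  have hB : ‖w - D w‖ ≤ 16 / 100 := by
    set A := rr (m + 1) with hA
    have n1 : ‖(c + A • w) - c‖ = A := by
      rw [add_sub_cancel_left, norm_smul, hw, mul_one, Real.norm_of_nonneg (by positivity)]
    have n2 : ‖(c + (3 / 4 * A) • w) - c‖ = 3 / 4 * A := by
      rw [add_sub_cancel_left, norm_smul, hw, mul_one, Real.norm_of_nonneg (by positivity)]
    have u1 := uu_gap hw hcm (x := c + A • w) (by rw [n1]; linarith) (by rw [n1])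
    have u2 := uu_gap hw hcm (x := c + (3 / 4 * A) • w) (by rw [n2]; linarith) (by rw [n2]; linarith)
    have d1 : ‖(c + A • w) - p‖ ≤ 2 * A := by
      have e : (c + A • w) - p = ((c + A • w) - c) - (p - c) := by abel
      rw [e]
      refine (norm_sub_le _ _).trans ?_
      rw [n1]; linarith
    have d2 : ‖(c + (3 / 4 * A) • w) - p‖ ≤ 2 * A := by
      have e : (c + (3 / 4 * A) • w) - p = ((c + (3 / 4 * A) • w) - c) - (p - c) := by abel
      rw [e]
      refine (norm_sub_le _ _).trans ?_
      rw [n2]; linarith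
    have h3 := hpair _ _ (2 * A) d1 d2 (by linarith)
    have e : ff hw (c + A • w) - ff hw (c + (3 / 4 * A) • w) -
        D ((c + A • w) - (c + (3 / 4 * A) • w)) = (A / 4) • (w - D w) := by
      unfold ff
      rw [u1, u2]
      have e2 : (c + A • w) - (c + (3 / 4 * A) • w) = (A / 4) • w := by module
      rw [e2, map_smul]
      module
    rw [e, norm_smul, Real.norm_of_nonneg (by positivity)] at h3
    have h4 : (A / 4) * ‖w - D w‖ ≤ (A / 4) * (16 / 100) := by linarith
    exact le_of_mul_le_mul_left h4 (by positivity)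
  have hfin : ‖(1 / 4 : ℝ) • w‖ ≤ 6 / 100 + 16 / 100 := by
    have e : (1 / 4 : ℝ) • w = ((5 / 4 : ℝ) • w - D w) - (w - D w) := by module
    rw [e]
    exact (norm_sub_le _ _).trans (add_le_add hA hB)
  rw [norm_smul, hw, Real.norm_of_nonneg (by norm_num)] at hfin
  norm_num at hfin

/-- The non-differentiability set of the homeomorphism is uncountable. -/
lemma uncountable_nondiff : ¬ {p : E | ¬ DifferentiableAt ℝ (FF hw) p}.Countable := by
  intro hcount
  have h1 : (range (pp hw)).Countable := by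
    apply hcount.mono
    rintro _ ⟨a, rfl⟩
    exact not_differentiableAt_pp hw a
  have h3 : Countable (range (pp hw)) := h1.to_subtype
  have h4 : Function.Injective (Set.rangeFactorization (pp hw)) := by
    intro a b h
    exact pp_injective hw (congrArg Subtype.val h)
  have h2 : Countable (ℕ → Bool) := h4.countable
  obtain ⟨f, hf⟩ := exists_surjective_nat (ℕ → Bool)
  obtain ⟨n, hn⟩ := hf (fun n => !(f n n))
  have h5 := congrFun hn n
  cases h : f n n <;> simp [h] at h5

end Points

end Pool.Agent.Lib.MP_bd3523_gt
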