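import Mathlib

/-!
Definitions for MP_bd3523_gt: closed `C^1` curves in a smooth surface, the group `Homeo^1(S)`, the
non-differentiable set of a map and sets of positive measure.

A smooth surface is a type `S` with a topology, charts in the plane `ℝ × ℝ`, and
`IsManifold 𝓘(ℝ, ℝ × ℝ) ∞ S` (smooth coordinate changes).
-/

open scoped Manifold ContDiff

namespace Pool.Agent.Lib.MP_bd3523_gt

variable {S : Type*} [TopologicalSpace S] [ChartedSpace (ℝ × ℝ) S]

/-- A (simple closed) `C^1` curve in the surface `S`: the image of an injective `C^1` map from the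
circle `ℝ/ℤ` to `S` with nowhere vanishing derivative. Maps from `ℝ/ℤ` are written as maps `γ` on
`ℝ`, and `γ s = γ t` exactly when `s` and `t` differ by an integer. -/
def IsC1Curve (C : Set S) : Prop :=
  ∃ γ : ℝ → S, ContMDiff 𝓘(ℝ, ℝ) 𝓘(ℝ, ℝ × ℝ) 1 γ ∧ (∀ s t, γ s = γ t ↔ ∃ n : ℤ, t = s + n) ∧
    (∀ t, mfderiv 𝓘(ℝ, ℝ) 𝓘(ℝ, ℝ × ℝ) γ t ≠ 0) ∧ Set.range γ = C

/-- `f` belongs to `Homeo^1(S)`: both `f` and its inverse map every `C^1` curve onto a `C^1`
curve. -/
def IsHomeo1 (f : S ≃ₜ S) : Prop :=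
  ∀ C : Set S, IsC1Curve C → IsC1Curve (f '' C) ∧ IsC1Curve (f.symm '' C)

/-- The set of points at which `f` is not (Frechet) differentiable in smooth charts. -/
def nonDiffSet (f : S → S) : Set S := {p | ¬ MDifferentiableAt 𝓘(ℝ, ℝ × ℝ) 𝓘(ℝ, ℝ × ℝ) f p}

/-- `A` has positive measure: for some smooth chart `φ` (an element of the maximal smooth atlas)
with domain `U`, the set `φ (A ∩ U)` has positive two-dimensional Lebesgue (outer) measure. -/
def HasPositiveMeasure (A : Set S) : Prop :=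
  ∃ φ ∈ IsManifold.maximalAtlas 𝓘(ℝ, ℝ × ℝ) ∞ S, 0 < MeasureTheory.volume (φ '' (A ∩ φ.source))

end Pool.Agent.Lib.MP_bd3523_gt
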