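import Mathlib
import Pool.Agent.Lib.MP_bd3523_gt.Defs

/-!
Closed curves parametrised by the circle and by `1`-periodic maps.
-/

open scoped Manifold ContDiff Topology Real
open Set Filter

namespace Pool.Agent.Lib.MP_bd3523_gt

variable {S : Type*} [TopologicalSpace S] [ChartedSpace (ℝ × ℝ) S]

/-- The `1`-periodic exponential. -/
noncomputable def ee (t : ℝ) : Circle := Circle.exp (2 * π * t)

lemma ee_contMDiff {n : WithTop ℕ∞} : ContMDiff 𝓘(ℝ, ℝ) (𝓡 1) n ee := by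
  have h : ContMDiff 𝓘(ℝ, ℝ) 𝓘(ℝ, ℝ) n (fun t : ℝ => 2 * π * t) :=
    (contDiff_const.mul contDiff_id).contMDiff
  exact contMDiff_circleExp.comp h

lemma ee_eq_iff {s t : ℝ} : ee s = ee t ↔ ∃ n : ℤ, t = s + n := by
  unfold ee
  rw [Circle.exp_eq_exp]
  have hπ : (2 * π) ≠ 0 := by positivity
  constructor
  · rintro ⟨m, hm⟩
    refine ⟨-m, ?_⟩
    push_cast
    have : 2 * π * s = 2 * π * (t + m) := by rw [hm]; ring
    have := mul_left_cancel₀ hπ this
    linarith
  · rintro ⟨n, rfl⟩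
    refine ⟨-n, ?_⟩
    push_cast
    ring

lemma ee_surj : Function.Surjective ee := by
  intro z
  obtain ⟨x, hx⟩ := Circle.exp_surjective z
  refine ⟨x / (2 * π), ?_⟩
  unfold ee
  rw [mul_div_cancel₀ _ (by positivity)]
  exact hx

/-- The local inverse of `ee`. -/
noncomputable def locInv (t0 : ℝ) (z : Circle) : ℝ :=
  t0 + Complex.arg ((z : ℂ) * (starRingEnd ℂ (ee t0 : ℂ))) / (2 * π)

lemma ee_locInv (t0 : ℝ) (z : Circle) : ee (locInv t0 z) = z := by
  unfold locInv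
  have h1 : ((z : ℂ) * (starRingEnd ℂ (ee t0 : ℂ))) = ((z * (ee t0)⁻¹ : Circle) : ℂ) := by
    rw [Circle.coe_mul, Circle.coe_inv_eq_conj]
  rw [h1]
  have h2 : ∀ x y : ℝ, ee (x + y) = ee x * ee y := by
    intro x y
    unfold ee
    rw [mul_add, Circle.exp_add]
  rw [h2]
  have h3 : ee (Complex.arg ((z * (ee t0)⁻¹ : Circle) : ℂ) / (2 * π)) = z * (ee t0)⁻¹ := by
    unfold ee
    rw [mul_div_cancel₀ _ (by positivity)]
    exact Circle.exp_arg _
  rw [h3, mul_comm z, mul_inv_cancel_left]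

lemma locInv_self (t0 : ℝ) : locInv t0 (ee t0) = t0 := by
  unfold locInv
  rw [Complex.mul_conj, Circle.normSq_coe]
  simp

section
attribute [local instance] finrank_real_complex_fact'

lemma coe_contMDiff {n : WithTop ℕ∞} :
    ContMDiff (𝓡 1) 𝓘(ℝ, ℂ) n (fun z : Circle => (z : ℂ)) :=
  contMDiff_coe_sphere (E := ℂ)

end

lemma locInv_contMDiffAt (t0 : ℝ) {n : WithTop ℕ∞} :
    ContMDiffAt (𝓡 1) 𝓘(ℝ, ℝ) n (locInv t0) (ee t0) := by
  have h1 : ContDiffAt ℝ n (fun w : ℂ => t0 + Complex.arg (w * (starRingEnd ℂ (ee t0 : ℂ))) / (2 * π))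
      ((ee t0 : Circle) : ℂ) := by
    have hmem : ((ee t0 : Circle) : ℂ) * (starRingEnd ℂ (ee t0 : ℂ)) ∈ Complex.slitPlane := by
      rw [Complex.mul_conj, Circle.normSq_coe]
      simp
    have h2 : ContDiffAt ℝ n (fun w : ℂ => Complex.log (w * (starRingEnd ℂ (ee t0 : ℂ))))
        ((ee t0 : Circle) : ℂ) := by
      have h3 : ContDiffAt ℝ n Complex.log (((ee t0 : Circle) : ℂ) * (starRingEnd ℂ (ee t0 : ℂ))) :=
        (Complex.contDiffAt_log hmem).restrict_scalars ℝ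
      exact h3.comp (f := fun w : ℂ => w * (starRingEnd ℂ (ee t0 : ℂ))) _
        (contDiff_id.mul contDiff_const).contDiffAt
    have h4 : ContDiffAt ℝ n (fun w : ℂ => Complex.arg (w * (starRingEnd ℂ (ee t0 : ℂ))))
        ((ee t0 : Circle) : ℂ) := by
      have h5 : (fun w : ℂ => Complex.arg (w * (starRingEnd ℂ (ee t0 : ℂ)))) =
          fun w : ℂ => Complex.imCLM (Complex.log (w * (starRingEnd ℂ (ee t0 : ℂ)))) := by
        funext w
        simp [Complex.log_im]
      rw [h5]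
      exact Complex.imCLM.contDiff.contDiffAt.comp _ h2
    exact contDiffAt_const.add (h4.div_const _)
  have h6 := h1.contMDiffAt.comp (ee t0) (coe_contMDiff (n := n)).contMDiffAt
  exact h6

lemma mfderiv_ee_ne_zero (t : ℝ) : mfderiv 𝓘(ℝ, ℝ) (𝓡 1) ee t ≠ 0 := by
  intro h
  have h1 : HasMFDerivAt 𝓘(ℝ, ℝ) (𝓡 1) ee t (mfderiv 𝓘(ℝ, ℝ) (𝓡 1) ee t) :=
    ((ee_contMDiff (n := 1)).contMDiffAt.mdifferentiableAt (by norm_num)).hasMFDerivAt
  have h2 : MDifferentiableAt (𝓡 1) 𝓘(ℝ, ℝ) (locInv t) (ee t) :=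
    (locInv_contMDiffAt t (n := 1)).mdifferentiableAt (by norm_num)
  have h3 := h2.hasMFDerivAt.comp t h1
  have h4 : HasMFDerivAt 𝓘(ℝ, ℝ) 𝓘(ℝ, ℝ) (fun x : ℝ => x) t (ContinuousLinearMap.id ℝ ℝ) :=
    hasMFDerivAt_id t
  have h5 : (locInv t ∘ ee) =ᶠ[𝓝 t] fun x : ℝ => x := by
    have hc : ContinuousAt (locInv t ∘ ee) t :=
      h2.continuousAt.comp ((ee_contMDiff (n := 1)).continuous.continuousAt)
    have hc' : ContinuousAt (fun x => (locInv t ∘ ee) x - x) t := hc.sub continuousAt_id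
    have h0 : (locInv t ∘ ee) t - t = 0 := by simp [locInv_self]
    have hnb : ∀ᶠ x in 𝓝 t, |(locInv t ∘ ee) x - x| < 1 := by
      have : Metric.ball (0 : ℝ) 1 ∈ 𝓝 ((locInv t ∘ ee) t - t) := by
        rw [h0]; exact Metric.ball_mem_nhds _ one_pos
      filter_upwards [hc' this] with x hx
      simpa using hx
    filter_upwards [hnb] with x hx
    have h6 : ee (locInv t (ee x)) = ee x := ee_locInv t (ee x)
    obtain ⟨n, hn⟩ := ee_eq_iff.1 h6
    simp only [Function.comp_apply] at hx ⊢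
    have h7 : |(n : ℝ)| < 1 := by
      have : (n : ℝ) = -(locInv t (ee x) - x) := by linarith
      rw [this, abs_neg]; exact hx
    have h8 : n = 0 := by
      have h9 : |n| < 1 := by exact_mod_cast h7
      exact Int.abs_lt_one_iff.1 h9
    rw [h8] at hn
    simpa using hn.symm
  have h6 := h3.congr_of_eventuallyEq h5.symm
  have h7 := h6.mfderiv.symm.trans h4.mfderiv
  rw [h] at h7
  rw [ContinuousLinearMap.comp_zero] at h7
  have h8 : (0 : ℝ) = 1 := congrArg (fun L : ℝ →L[ℝ] ℝ => L 1) h7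
  exact zero_ne_one h8

/-- Equivalence of the two parametrisations. -/
theorem isC1Curve_iff {C : Set S} [IsManifold 𝓘(ℝ, ℝ × ℝ) 1 S] :
    (∃ γ : Circle → S, ContMDiff (𝓡 1) 𝓘(ℝ, ℝ × ℝ) 1 γ ∧ Function.Injective γ ∧
      (∀ z, mfderiv (𝓡 1) 𝓘(ℝ, ℝ × ℝ) γ z ≠ 0) ∧ Set.range γ = C) ↔ IsC1Curve C := by
  constructor
  · rintro ⟨γ, h1, h2, h3, h4⟩
    refine ⟨γ ∘ ee, h1.comp ee_contMDiff, ?_, ?_, ?_⟩
    rotate_left
    · intro t h0
      have e1 : MDifferentiableAt (𝓡 1) 𝓘(ℝ, ℝ × ℝ) γ (ee t) := h1.mdifferentiable (by norm_num) _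
      have e2 : MDifferentiableAt 𝓘(ℝ, ℝ) (𝓡 1) ee t :=
        (ee_contMDiff (n := 1)).mdifferentiable (by norm_num) _
      rw [mfderiv_comp t e1 e2] at h0
      -- the derivative of `ee` is onto the one dimensional tangent space
      obtain ⟨v, hv⟩ : ∃ v, mfderiv 𝓘(ℝ, ℝ) (𝓡 1) ee t v ≠ 0 := by
        by_contra hcon
        push Not at hcon
        exact mfderiv_ee_ne_zero t (ContinuousLinearMap.ext fun v => hcon v)
      apply h3 (ee t)
      refine ContinuousLinearMap.ext fun u => ?_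
      have hfr : Module.finrank ℝ (TangentSpace (𝓡 1) (ee t)) = 1 := by
        change Module.finrank ℝ (EuclideanSpace ℝ (Fin 1)) = 1
        simp
      obtain ⟨c, hc⟩ := (finrank_eq_one_iff_of_nonzero' _ hv).1 hfr u
      rw [← hc, map_smul]
      have := congrArg (fun L => L v) h0
      simp only [ContinuousLinearMap.comp_apply] at this
      erw [this]
      simp
    · rw [ee_surj.range_comp]
      exact h4
    · intro s t
      rw [Function.comp_apply, Function.comp_apply, h2.eq_iff, ee_eq_iff]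
  · rintro ⟨γ, h1, h3, h2, h4⟩
    -- descend to the circle
    let s : Circle → ℝ := fun z => (ee_surj z).choose
    have hs : ∀ z, ee (s z) = z := fun z => (ee_surj z).choose_spec
    let γ' : Circle → S := fun z => γ (s z)
    have hγ' : ∀ t, γ' (ee t) = γ t := by
      intro t
      change γ (s (ee t)) = γ t
      rw [h3]
      exact ee_eq_iff.1 (hs (ee t))
    have hloc : ∀ t0 z, γ' z = γ (locInv t0 z) := by
      intro t0 z
      rw [← hγ' (locInv t0 z), ee_locInv]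
    have hsm : ContMDiff (𝓡 1) 𝓘(ℝ, ℝ × ℝ) 1 γ' := by
      intro z
      obtain ⟨t0, rfl⟩ := ee_surj z
      have e : γ' = γ ∘ locInv t0 := funext (hloc t0)
      rw [e]
      exact h1.contMDiffAt.comp _ (locInv_contMDiffAt t0)
    refine ⟨γ', hsm, ?_, ?_, ?_⟩
    · intro z z' hzz
      have := (h3 _ _).1 hzz
      rw [← hs z, ← hs z']
      exact ee_eq_iff.2 this
    · intro z h0
      obtain ⟨t, rfl⟩ := ee_surj z
      apply h2 t
      have e : γ = γ' ∘ ee := funext fun t => (hγ' t).symm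
      have e1 : MDifferentiableAt (𝓡 1) 𝓘(ℝ, ℝ × ℝ) γ' (ee t) := hsm.mdifferentiable (by norm_num) _
      have e2 : MDifferentiableAt 𝓘(ℝ, ℝ) (𝓡 1) ee t :=
        (ee_contMDiff (n := 1)).mdifferentiable (by norm_num) _
      rw [e, mfderiv_comp t e1 e2, h0]
      exact ContinuousLinearMap.zero_comp _
    · rw [← h4]
      ext y
      constructor
      · rintro ⟨z, rfl⟩
        exact ⟨s z, rfl⟩
      · rintro ⟨t, rfl⟩
        exact ⟨ee t, hγ' t⟩

end Pool.Agent.Lib.MP_bd3523_gt
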