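import Mathlib
import Pool.Agent.Lib.MP_bd3523_gt.Defs

/-!
Curves of finite length, and a closed `C^1` curve containing a straight segment.
-/

open Topology Filter Set MeasureTheory
open scoped NNReal ENNReal Manifold ContDiff Real

namespace Pool.Agent.Lib.MP_bd3523_gt

section BV

variable {X : Type*} [MetricSpace X] [MeasurableSpace X] [BorelSpace X]

lemma edist_le_hausdorff {g : ℝ → X} {c d : ℝ} (hcd : c ≤ d) (hg : ContinuousOn g (Icc c d)) :
    edist (g d) (g c) ≤ Measure.hausdorffMeasure 1 (g '' Ico c d) := by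
  rcases hcd.eq_or_lt with rfl | hlt
  · simp
  let F : X → ℝ := fun x => dist x (g c)
  have hF : LipschitzWith 1 F := LipschitzWith.dist_left (g c)
  have hsub : Ico 0 (dist (g d) (g c)) ⊆ F '' (g '' Ico c d) := by
    intro y hy
    have hcont : ContinuousOn (fun t => F (g t)) (Icc c d) := hF.continuous.comp_continuousOn hg
    have hiv := intermediate_value_Icc hcd hcont
    have h0 : F (g c) = 0 := dist_self _
    have hmem : y ∈ Icc (F (g c)) (F (g d)) := by
      rw [h0]; exact ⟨hy.1, hy.2.le⟩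
    obtain ⟨t, ht, hty⟩ := hiv hmem
    refine ⟨g t, ⟨t, ⟨ht.1, lt_of_le_of_ne ht.2 ?_⟩, rfl⟩, hty⟩
    rintro rfl
    exact absurd hy.2 (not_lt.2 hty.le)
  calc edist (g d) (g c) = ENNReal.ofReal (dist (g d) (g c)) := edist_dist _ _
    _ = volume (Ico 0 (dist (g d) (g c))) := by rw [Real.volume_Ico, sub_zero]
    _ ≤ volume (F '' (g '' Ico c d)) := measure_mono hsub
    _ = Measure.hausdorffMeasure 1 (F '' (g '' Ico c d)) := by rw [hausdorffMeasure_real]
    _ ≤ (1 : ℝ≥0) ^ (1 : ℝ) * Measure.hausdorffMeasure 1 (g '' Ico c d) :=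
        hF.hausdorffMeasure_image_le zero_le_one _
    _ = Measure.hausdorffMeasure 1 (g '' Ico c d) := by simp

/-- The variation of an injective path is at most the length of its image. -/
lemma eVariationOn_le_hausdorff {g : ℝ → X} {a b : ℝ} (hg : ContinuousOn g (Icc a b))
    (hinj : InjOn g (Icc a b)) :
    eVariationOn g (Icc a b) ≤ Measure.hausdorffMeasure 1 (g '' Icc a b) := by
  unfold eVariationOn
  apply iSup_le
  rintro ⟨n, u, hu, hus⟩
  simp only
  have hsubI : ∀ i, Icc (u i) (u (i + 1)) ⊆ Icc a b := fun i =>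
    Icc_subset_Icc (hus i).1 (hus (i + 1)).2
  have hle : ∀ i, edist (g (u (i + 1))) (g (u i)) ≤
      Measure.hausdorffMeasure 1 (g '' Ico (u i) (u (i + 1))) := fun i =>
    edist_le_hausdorff (hu (Nat.le_succ i)) (hg.mono (hsubI i))
  have hmeas : ∀ i, MeasurableSet (g '' Ico (u i) (u (i + 1))) := by
    intro i
    have e : g '' Ico (u i) (u (i + 1)) = g '' Icc (u i) (u (i + 1)) \ {g (u (i + 1))} := by
      ext y
      constructor
      · rintro ⟨t, ht, rfl⟩
        refine ⟨⟨t, Ico_subset_Icc_self ht, rfl⟩, fun heq => ?_⟩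
        have := hinj (hsubI i (Ico_subset_Icc_self ht)) (hus (i + 1)) heq
        exact absurd ht.2 (not_lt.2 this.ge)
      · rintro ⟨⟨t, ht, rfl⟩, hne⟩
        refine ⟨t, ⟨ht.1, lt_of_le_of_ne ht.2 fun h => hne ?_⟩, rfl⟩
        rw [h]; rfl
    rw [e]
    apply MeasurableSet.diff
    · exact (isCompact_Icc.image_of_continuousOn (hg.mono (hsubI i))).isClosed.measurableSet
    · exact measurableSet_singleton _
  have hdisj : Set.Pairwise (↑(Finset.range n)) fun i j =>
      Disjoint (g '' Ico (u i) (u (i + 1))) (g '' Ico (u j) (u (j + 1))) := by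
    have key : ∀ i j, i < j →
        Disjoint (g '' Ico (u i) (u (i + 1))) (g '' Ico (u j) (u (j + 1))) := by
      intro i j hlt
      rw [Set.disjoint_left]
      rintro _ ⟨s, hs, rfl⟩ ⟨t, ht, heq⟩
      have h1 : t = s :=
        hinj (hsubI j (Ico_subset_Icc_self ht)) (hsubI i (Ico_subset_Icc_self hs)) heq
      have h2 : u (i + 1) ≤ u j := hu hlt
      have h3 := hs.2
      have h4 := ht.1
      rw [h1] at h4
      linarith
    intro i _ j _ hij
    rcases lt_or_gt_of_ne hij with h | h
    · exact key i j h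
    · exact (key j i h).symm
  calc ∑ i ∈ Finset.range n, edist (g (u (i + 1))) (g (u i))
      ≤ ∑ i ∈ Finset.range n, Measure.hausdorffMeasure 1 (g '' Ico (u i) (u (i + 1))) :=
        Finset.sum_le_sum fun i _ => hle i
    _ = Measure.hausdorffMeasure 1 (⋃ i ∈ Finset.range n, g '' Ico (u i) (u (i + 1))) :=
        (measure_biUnion_finset hdisj fun i _ => hmeas i).symm
    _ ≤ Measure.hausdorffMeasure 1 (g '' Icc a b) := by
        apply measure_mono
        apply iUnion₂_subset
        intro i _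
        exact image_mono (Ico_subset_Icc_self.trans (hsubI i))

end BV

/-- A `C^1` periodic curve has finite length. -/
lemma hausdorff_range_lt_top {Γ : ℝ → ℝ × ℝ} (hΓ : ContDiff ℝ 1 Γ) (hper : ∀ t, Γ (t + 1) = Γ t) :
    Measure.hausdorffMeasure 1 (range Γ) < ⊤ := by
  have e : range Γ = Γ '' Icc 0 1 := by
    ext y
    constructor
    · rintro ⟨t, rfl⟩
      have hp : Function.Periodic Γ 1 := hper
      obtain ⟨s, hs, hst⟩ := hp.exists_mem_Ico₀ one_pos t
      exact ⟨s, Ico_subset_Icc_self hs, hst.symm⟩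
    · rintro ⟨t, _, rfl⟩
      exact ⟨t, rfl⟩
  obtain ⟨K, hK⟩ : ∃ K, LipschitzOnWith K Γ (Icc 0 1) :=
    (hΓ.locallyLipschitz.locallyLipschitzOn).exists_lipschitzOnWith_of_compact isCompact_Icc
  rw [e]
  refine lt_of_le_of_lt (hK.hausdorffMeasure_image_le zero_le_one) ?_
  rw [hausdorffMeasure_real, Real.volume_Icc]
  simp

/-- The squared positive part. -/
def sqp (x : ℝ) : ℝ := (max x 0) ^ 2

lemma sqp_hasDerivAt (x : ℝ) : HasDerivAt sqp (2 * max x 0) x := by
  rcases lt_trichotomy x 0 with hx | rfl | hx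
  · have h1 : sqp =ᶠ[𝓝 x] fun _ => 0 := by
      filter_upwards [gt_mem_nhds hx] with y hy
      unfold sqp
      rw [max_eq_right hy.le]; norm_num
    rw [max_eq_right hx.le, mul_zero]
    exact (hasDerivAt_const x (0 : ℝ)).congr_of_eventuallyEq h1
  · rw [max_self, mul_zero, hasDerivAt_iff_isLittleO, Asymptotics.isLittleO_iff]
    intro ε hε
    filter_upwards [Metric.ball_mem_nhds (0 : ℝ) hε] with y hy
    rw [mem_ball_zero_iff, Real.norm_eq_abs] at hy
    unfold sqp
    simp only [max_self, sub_zero, smul_zero, Real.norm_eq_abs]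
    have h1 : |max y 0| ≤ |y| := by
      rcases le_total y 0 with h | h
      · rw [max_eq_right h, abs_zero]; exact abs_nonneg _
      · rw [max_eq_left h]
    have h2 : (max y 0) ^ 2 - (0 : ℝ) ^ 2 = |max y 0| * |max y 0| := by
      rw [← sq, sq_abs]; ring
    rw [h2, abs_of_nonneg (by positivity)]
    exact mul_le_mul (h1.trans hy.le) h1 (abs_nonneg _) hε.le
  · have h1 : sqp =ᶠ[𝓝 x] fun y => y ^ 2 := by
      filter_upwards [lt_mem_nhds hx] with y hy
      unfold sqp
      rw [max_eq_left hy.le]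
    rw [max_eq_left hx.le]
    have h2 : HasDerivAt (fun y : ℝ => y ^ 2) (2 * x) x := by
      simpa using hasDerivAt_pow 2 x
    exact h2.congr_of_eventuallyEq h1

lemma sqp_contDiff : ContDiff ℝ 1 sqp := by
  rw [contDiff_one_iff_deriv]
  refine ⟨fun x => (sqp_hasDerivAt x).differentiableAt, ?_⟩
  have e : deriv sqp = fun x => 2 * max x 0 := funext fun x => (sqp_hasDerivAt x).deriv
  rw [e]
  fun_prop

/-- The closed curve, D-shaped: it contains the segment from `(-1/2, 0)` to `(1/2, 0)`. -/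
noncomputable def dd (t : ℝ) : ℝ × ℝ := (Real.cos (2 * π * t), sqp (Real.sin (2 * π * t) + 1 / 2))

lemma dd_contDiff : ContDiff ℝ 1 dd := by
  unfold dd
  apply ContDiff.prodMk
  · exact Real.contDiff_cos.comp (contDiff_const.mul contDiff_id)
  · exact sqp_contDiff.comp
      ((Real.contDiff_sin.comp (contDiff_const.mul contDiff_id)).add contDiff_const)

lemma dd_deriv_ne_zero (t : ℝ) : deriv dd t ≠ 0 := by
  have h0 : HasDerivAt (fun t : ℝ => 2 * π * t) (2 * π) t := by
    simpa using (hasDerivAt_id t).const_mul (2 * π)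
  have h1 : HasDerivAt (fun t : ℝ => Real.cos (2 * π * t)) (-Real.sin (2 * π * t) * (2 * π)) t :=
    (Real.hasDerivAt_cos _).comp t h0
  have h2 : HasDerivAt (fun t : ℝ => Real.sin (2 * π * t) + 1 / 2)
      (Real.cos (2 * π * t) * (2 * π)) t :=
    ((Real.hasDerivAt_sin _).comp t h0).add_const _
  have h3 : HasDerivAt (fun t : ℝ => sqp (Real.sin (2 * π * t) + 1 / 2))
      (2 * max (Real.sin (2 * π * t) + 1 / 2) 0 * (Real.cos (2 * π * t) * (2 * π))) t :=
    (sqp_hasDerivAt _).comp t h2
  have h4 : HasDerivAt dd (-Real.sin (2 * π * t) * (2 * π),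
      2 * max (Real.sin (2 * π * t) + 1 / 2) 0 * (Real.cos (2 * π * t) * (2 * π))) t :=
    h1.prodMk h3
  rw [h4.deriv]
  intro h5
  have hπ : (0 : ℝ) < 2 * π := by positivity
  have h6 : -Real.sin (2 * π * t) * (2 * π) = 0 := congrArg Prod.fst h5
  have h7 : 2 * max (Real.sin (2 * π * t) + 1 / 2) 0 * (Real.cos (2 * π * t) * (2 * π)) = 0 :=
    congrArg Prod.snd h5
  have h8 : Real.sin (2 * π * t) = 0 := by
    rcases mul_eq_zero.1 h6 with h | h
    · linarith
    · exact absurd h hπ.ne'
  rw [h8, zero_add, max_eq_left (by norm_num)] at h7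
  have h9 : Real.cos (2 * π * t) = 0 := by
    have : Real.cos (2 * π * t) * (2 * π) = 0 := by linarith
    rcases mul_eq_zero.1 this with h | h
    · exact h
    · exact absurd h hπ.ne'
  have h10 := Real.sin_sq_add_cos_sq (2 * π * t)
  rw [h8, h9] at h10
  norm_num at h10

lemma dd_eq_iff (s t : ℝ) : dd s = dd t ↔ ∃ n : ℤ, t = s + n := by
  constructor
  · intro h
    have h1 : Real.cos (2 * π * s) = Real.cos (2 * π * t) := congrArg Prod.fst h
    have h2 : sqp (Real.sin (2 * π * s) + 1 / 2) = sqp (Real.sin (2 * π * t) + 1 / 2) :=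
      congrArg Prod.snd h
    -- the sines agree as well
    have h3 : Real.sin (2 * π * s) = Real.sin (2 * π * t) := by
      have h4 : Real.sin (2 * π * s) ^ 2 = Real.sin (2 * π * t) ^ 2 := by
        have a := Real.sin_sq_add_cos_sq (2 * π * s)
        have b := Real.sin_sq_add_cos_sq (2 * π * t)
        rw [h1] at a
        linarith
      rcases sq_eq_sq_iff_eq_or_eq_neg.1 h4 with h5 | h5
      · exact h5
      · have key : ∀ x : ℝ, 0 < x → sqp (-x + 1 / 2) < sqp (x + 1 / 2) := by
          intro x hx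
          unfold sqp
          rw [max_eq_left (by linarith : (0 : ℝ) ≤ x + 1 / 2)]
          apply pow_lt_pow_left₀ _ (le_max_right _ _) (by norm_num)
          apply max_lt <;> linarith
        rcases lt_trichotomy (Real.sin (2 * π * t)) 0 with h6 | h6 | h6
        · have := key (-Real.sin (2 * π * t)) (by linarith)
          rw [neg_neg, ← h5, h2] at this
          exact absurd this (lt_irrefl _)
        · rw [h5, h6]; simp
        · have := key (Real.sin (2 * π * t)) h6
          rw [← h5, h2] at this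
          exact absurd this (lt_irrefl _)
    have h4 := Real.Angle.cos_sin_inj h1 h3
    rw [Real.Angle.angle_eq_iff_two_pi_dvd_sub] at h4
    obtain ⟨k, hk⟩ := h4
    refine ⟨-k, ?_⟩
    push_cast
    have hπ : (2 * π) ≠ 0 := by positivity
    have : 2 * π * (s - t) = 2 * π * k := by rw [← hk]; ring
    have := mul_left_cancel₀ hπ this
    linarith
  · rintro ⟨n, rfl⟩
    unfold dd
    have e : 2 * π * (s + n) = 2 * π * s + n * (2 * π) := by ring
    rw [e, Real.cos_add_int_mul_two_pi, Real.sin_add_int_mul_two_pi]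

lemma dd_norm_le (t : ℝ) : ‖dd t‖ ≤ 9 / 4 := by
  rw [Prod.norm_def]
  apply max_le
  · rw [Real.norm_eq_abs]
    have := Real.abs_cos_le_one (2 * π * t)
    simp only [dd]
    linarith
  · simp only [dd, sqp]
    rw [Real.norm_of_nonneg (by positivity)]
    have h1 := Real.sin_le_one (2 * π * t)
    have h2 : max (Real.sin (2 * π * t) + 1 / 2) 0 ≤ 3 / 2 := max_le (by linarith) (by norm_num)
    have h3 : 0 ≤ max (Real.sin (2 * π * t) + 1 / 2) 0 := le_max_right _ _
    nlinarith

lemma dd_segment {s : ℝ} (hs : |s| ≤ 1 / 2) : ∃ t, dd t = (s, 0) := by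
  obtain ⟨hs1, hs2⟩ := abs_le.1 hs
  refine ⟨-(Real.arccos s) / (2 * π), ?_⟩
  have hπ : (2 * π) ≠ 0 := by positivity
  unfold dd
  rw [mul_div_cancel₀ _ hπ, Real.cos_neg, Real.sin_neg, Real.cos_arccos (by linarith) (by linarith),
    Real.sin_arccos]
  have h1 : 1 / 2 ≤ Real.sqrt (1 - s ^ 2) := by
    apply Real.le_sqrt_of_sq_le
    nlinarith
  have h2 : sqp (-Real.sqrt (1 - s ^ 2) + 1 / 2) = 0 := by
    unfold sqp
    rw [max_eq_right (by linarith)]
    norm_num
  rw [h2]

end Pool.Agent.Lib.MP_bd3523_gt
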