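import Mathlib

/-!
A Stepanov type theorem (differentiability almost everywhere on the set of pointwise Lipschitz
points), by squeezing between Lipschitz envelopes, and a one sided density statement.
-/

open Topology Filter Set MeasureTheory
open scoped NNReal ENNReal

namespace Pool.Agent.Lib.MP_bd3523_gt

section Sandwich

variable {E : Type*} [NormedAddCommGroup E] [NormedSpace ℝ E]

lemma sandwich {u v f : E → ℝ} {x : E} (hu : DifferentiableAt ℝ u x) (hv : DifferentiableAt ℝ v x)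
    (h1 : ∀ᶠ y in 𝓝 x, v y ≤ f y ∧ f y ≤ u y) (h2 : u x = f x) (h3 : v x = f x) :
    DifferentiableAt ℝ f x := by
  have hD : fderiv ℝ u x = fderiv ℝ v x := by
    have hmin : IsLocalMin (fun y => u y - v y) x := by
      filter_upwards [h1] with y hy
      rw [h2, h3, sub_self]
      linarith [hy.1, hy.2]
    have h4 := hmin.fderiv_eq_zero
    have h5 : fderiv ℝ (fun y => u y - v y) x = fderiv ℝ u x - fderiv ℝ v x := fderiv_fun_sub hu hv
    rw [h5, sub_eq_zero] at h4
    exact h4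
  refine ⟨fderiv ℝ u x, ?_⟩
  rw [hasFDerivAt_iff_isLittleO, Asymptotics.isLittleO_iff]
  intro ε hε
  have hu' := (hasFDerivAt_iff_isLittleO.1 hu.hasFDerivAt).def hε
  have hv' := (hasFDerivAt_iff_isLittleO.1 hv.hasFDerivAt).def hε
  rw [← hD] at hv'
  filter_upwards [h1, hu', hv'] with y hy hyu hyv
  rw [Real.norm_eq_abs] at hyu hyv ⊢
  rw [h2] at hyu
  rw [h3] at hyv
  rw [abs_le] at hyu hyv ⊢
  constructor <;> linarith [hy.1, hy.2, hyu.1, hyu.2, hyv.1, hyv.2]

/-- upper envelope -/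
noncomputable def envU (f : E → ℝ) (B : Set E) (n : ℝ≥0) (x : E) : ℝ :=
  ⨆ y : B, (f y - n * ‖x - y‖)

omit [NormedSpace ℝ E] in
lemma envU_lip {f : E → ℝ} {B : Set E} (hB : B.Nonempty) {M : ℝ} (hM : ∀ y ∈ B, f y ≤ M) (n : ℝ≥0) :
    LipschitzWith n (envU f B n) := by
  have hne : Nonempty B := hB.to_subtype
  have hbdd : ∀ x : E, BddAbove (range fun y : B => f y - n * ‖x - y‖) := by
    intro x
    refine ⟨M, ?_⟩
    rintro _ ⟨y, rfl⟩
    have h1 := hM y.1 y.2
    have h2 : 0 ≤ (n : ℝ) * ‖x - y‖ := by positivity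
    simp only
    linarith
  apply LipschitzWith.of_le_add_mul
  intro x x'
  unfold envU
  apply ciSup_le
  intro y
  have h1 := le_ciSup (hbdd x') y
  have h2 : ‖x' - y‖ ≤ ‖x - y‖ + dist x x' := by
    rw [dist_eq_norm, norm_sub_rev x x']
    have e : x' - (y : E) = (x - y) + (x' - x) := by abel
    rw [e]
    exact norm_add_le _ _
  have h3 : (n : ℝ) * ‖x' - y‖ ≤ n * (‖x - y‖ + dist x x') := mul_le_mul_of_nonneg_left h2 n.2
  linarith

omit [NormedSpace ℝ E] in
lemma envU_bounds {f : E → ℝ} {B : Set E} {M : ℝ} (hM : ∀ y ∈ B, f y ≤ M) (n : ℝ≥0) {x : E}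
    (hx : x ∈ B) : f x ≤ envU f B n x ∧
      ((∀ y ∈ B, f y ≤ f x + n * ‖x - y‖) → envU f B n x = f x) := by
  have hne : Nonempty B := ⟨⟨x, hx⟩⟩
  have hbdd : ∀ x : E, BddAbove (range fun y : B => f y - n * ‖x - y‖) := by
    intro x
    refine ⟨M, ?_⟩
    rintro _ ⟨y, rfl⟩
    have h1 := hM y.1 y.2
    have h2 : 0 ≤ (n : ℝ) * ‖x - y‖ := by positivity
    simp only
    linarith
  have h1 : f x ≤ envU f B n x := by
    have := le_ciSup (hbdd x) ⟨x, hx⟩
    simpa [envU] using this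
  refine ⟨h1, fun h => le_antisymm ?_ h1⟩
  apply ciSup_le
  intro y
  have := h y.1 y.2
  linarith

variable [FiniteDimensional ℝ E] [MeasurableSpace E] [BorelSpace E] (μ : Measure E)
  [μ.IsAddHaarMeasure]

/-- Stepanov's theorem for continuous real functions. -/
theorem stepanov {f : E → ℝ} (hf : Continuous f) :
    ∀ᵐ x ∂μ, (∃ C : ℝ, ∀ᶠ y in 𝓝 x, |f y - f x| ≤ C * ‖y - x‖) → DifferentiableAt ℝ f x := by
  have : ProperSpace E := FiniteDimensional.proper ℝ E
  let D : ℕ → E := TopologicalSpace.denseSeq E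
  let B : ℕ → ℕ → Set E := fun k m => Metric.closedBall (D k) (1 / ((m : ℝ) + 1))
  have hBne : ∀ k m, (B k m).Nonempty := fun k m =>
    ⟨D k, Metric.mem_closedBall_self (by positivity)⟩
  have hbd : ∀ k m, ∃ M : ℝ, ∀ y ∈ B k m, |f y| ≤ M := by
    intro k m
    obtain ⟨M, hM⟩ := (isCompact_closedBall (D k) (1 / ((m : ℝ) + 1))).exists_bound_of_continuousOn
      hf.continuousOn
    exact ⟨M, hM⟩
  choose M hM using hbd
  have hae : ∀ᵐ x ∂μ, ∀ k m n : ℕ, DifferentiableAt ℝ (envU f (B k m) n) x ∧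
      DifferentiableAt ℝ (envU (fun y => -f y) (B k m) n) x := by
    rw [ae_all_iff]; intro k
    rw [ae_all_iff]; intro m
    rw [ae_all_iff]; intro n
    have h1 : LipschitzWith n (envU f (B k m) n) :=
      envU_lip (hBne k m) (fun y hy => (le_abs_self _).trans (hM k m y hy)) n
    have h2 : LipschitzWith n (envU (fun y => -f y) (B k m) n) :=
      envU_lip (hBne k m) (fun y hy => (neg_le_abs _).trans (hM k m y hy)) n
    exact (h1.ae_differentiableAt).and h2.ae_differentiableAt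
  filter_upwards [hae] with x hx
  rintro ⟨C, hC⟩
  obtain ⟨δ, hδ, hball⟩ := Metric.eventually_nhds_iff.1 hC
  obtain ⟨m, hm⟩ := exists_nat_one_div_lt (half_pos hδ)
  obtain ⟨n, hn⟩ := exists_nat_ge C
  have hpos : (0 : ℝ) < 1 / ((m : ℝ) + 1) := by positivity
  obtain ⟨k, hk⟩ := (TopologicalSpace.denseRange_denseSeq E).exists_dist_lt x hpos
  have hxball : x ∈ Metric.ball (D k) (1 / ((m : ℝ) + 1)) := hk
  have hxB : x ∈ B k m := Metric.ball_subset_closedBall hxball
  have hnear : ∀ y ∈ B k m, |f y - f x| ≤ n * ‖y - x‖ := by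
    intro y hy
    have h1 : dist y x < δ := by
      have h2 : dist y x ≤ dist y (D k) + dist x (D k) := dist_triangle_right _ _ _
      have h3 : dist y (D k) ≤ 1 / ((m : ℝ) + 1) := hy
      linarith
    refine (hball h1).trans ?_
    exact mul_le_mul_of_nonneg_right hn (norm_nonneg _)
  obtain ⟨hdu, hdv⟩ := hx k m n
  have hMu : ∀ y ∈ B k m, f y ≤ M k m := fun y hy => (le_abs_self _).trans (hM k m y hy)
  have hMv : ∀ y ∈ B k m, -f y ≤ M k m := fun y hy => (neg_le_abs _).trans (hM k m y hy)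
  have hu := fun y hy => (envU_bounds (f := f) hMu (n : ℝ≥0) (x := y) hy).1
  have hv := fun y hy => (envU_bounds (f := fun y => -f y) hMv (n : ℝ≥0) (x := y) hy).1
  have hux : envU f (B k m) n x = f x := by
    apply (envU_bounds (f := f) hMu (n : ℝ≥0) hxB).2
    intro y hy
    have h4 := (abs_le.1 (hnear y hy)).2
    rw [norm_sub_rev x y]
    push_cast
    linarith
  have hvx : envU (fun y => -f y) (B k m) n x = -f x := by
    apply (envU_bounds (f := fun y => -f y) hMv (n : ℝ≥0) hxB).2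
    intro y hy
    have h4 := (abs_le.1 (hnear y hy)).1
    rw [norm_sub_rev x y]
    push_cast
    linarith
  apply sandwich hdu (v := fun y => -envU (fun y => -f y) (B k m) n y) hdv.neg _ hux (by
    rw [hvx, neg_neg])
  filter_upwards [Metric.isOpen_ball.mem_nhds hxball] with y hy
  have hyB : y ∈ B k m := Metric.ball_subset_closedBall hy
  have h1 := hu y hyB
  have h2 := hv y hyB
  constructor
  · linarith
  · exact h1

end Sandwich

section Density

lemma density_one {A : Set ℝ} (hA : MeasurableSet A) : ∀ᵐ x : ℝ, x ∈ A → ∃ J : ℕ, ∀ j ≥ J,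
    (∃ s ∈ Icc ((1 / 2 : ℝ) ^ j) (3 * (1 / 2) ^ j), x + s ∈ A) ∧
    (∃ s ∈ Icc ((1 / 2 : ℝ) ^ j) (3 * (1 / 2) ^ j), x - s ∈ A) := by
  have h := Besicovitch.ae_tendsto_measure_inter_div (volume : Measure ℝ) A
  rw [ae_restrict_iff' hA] at h
  filter_upwards [h] with x hx hxA
  have hlim := hx hxA
  have hseq : Tendsto (fun j : ℕ => 3 * (1 / 2 : ℝ) ^ j) atTop (𝓝[>] 0) := by
    rw [tendsto_nhdsWithin_iff]
    constructor
    · have := (tendsto_pow_atTop_nhds_zero_of_lt_one (by norm_num : (0 : ℝ) ≤ 1 / 2)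
        (by norm_num)).const_mul 3
      simpa using this
    · exact Eventually.of_forall fun j => by
        simp only [mem_Ioi]; positivity
  have hlim2 := hlim.comp hseq
  have hev : ∀ᶠ j : ℕ in atTop, ENNReal.ofReal (3 / 4) <
      volume (A ∩ Metric.closedBall x (3 * (1 / 2 : ℝ) ^ j)) /
        volume (Metric.closedBall x (3 * (1 / 2 : ℝ) ^ j)) := by
    apply hlim2.eventually (lt_mem_nhds _)
    rw [← ENNReal.ofReal_one]
    exact (ENNReal.ofReal_lt_ofReal_iff one_pos).2 (by norm_num)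
  obtain ⟨J, hJ⟩ := eventually_atTop.1 hev
  refine ⟨J, fun j hj => ?_⟩
  have h1 := hJ j hj
  set ρ := (1 / 2 : ℝ) ^ j with hρ
  have hρ0 : 0 < ρ := by positivity
  rw [Real.volume_closedBall] at h1
  have h2 : ENNReal.ofReal (4 * ρ) < volume (A ∩ Metric.closedBall x (3 * ρ)) := by
    have h3 : ENNReal.ofReal (3 / 4) * ENNReal.ofReal (2 * (3 * ρ)) <
        volume (A ∩ Metric.closedBall x (3 * ρ)) := by
      rw [← ENNReal.lt_div_iff_mul_lt]
      · exact h1
      · left
        rw [Ne, ENNReal.ofReal_eq_zero, not_le]; positivity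
      · left; exact ENNReal.ofReal_ne_top
    refine lt_of_le_of_lt ?_ h3
    rw [← ENNReal.ofReal_mul (by norm_num)]
    apply ENNReal.ofReal_le_ofReal
    linarith
  rw [Real.closedBall_eq_Icc] at h2
  constructor
  · by_contra hcon
    push Not at hcon
    have hsub : A ∩ Icc (x - 3 * ρ) (x + 3 * ρ) ⊆ Icc (x - 3 * ρ) (x + ρ) := by
      rintro y ⟨hyA, hy⟩
      refine ⟨hy.1, ?_⟩
      by_contra hlt
      rw [not_le] at hlt
      apply hcon (y - x) ⟨by linarith, by linarith [hy.2]⟩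
      rw [add_sub_cancel]
      exact hyA
    have h4 := (measure_mono hsub).trans_eq Real.volume_Icc
    have h5 : x + ρ - (x - 3 * ρ) = 4 * ρ := by ring
    rw [h5] at h4
    exact absurd h2 (not_lt.2 h4)
  · by_contra hcon
    push Not at hcon
    have hsub : A ∩ Icc (x - 3 * ρ) (x + 3 * ρ) ⊆ Icc (x - ρ) (x + 3 * ρ) := by
      rintro y ⟨hyA, hy⟩
      refine ⟨?_, hy.2⟩
      by_contra hlt
      rw [not_le] at hlt
      apply hcon (x - y) ⟨by linarith, by linarith [hy.1]⟩
      rw [sub_sub_cancel]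
      exact hyA
    have h4 := (measure_mono hsub).trans_eq Real.volume_Icc
    have h5 : x + 3 * ρ - (x - ρ) = 4 * ρ := by ring
    rw [h5] at h4
    exact absurd h2 (not_lt.2 h4)

end Density

end Pool.Agent.Lib.MP_bd3523_gt
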