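import Mathlib
import Pool.Agent.Lib.MP_bd3523_gt.Stepanov

/-!
The Gehring-Lehto theorem: a continuous map of the plane which is open on an open set `Q` and has
partial derivatives almost everywhere on `Q` is differentiable almost everywhere on `Q`.
-/

open Topology Filter Set MeasureTheory
open scoped NNReal ENNReal

namespace Pool.Agent.Lib.MP_bd3523_gt

/-- Points with a vertical Lipschitz bound. -/
def VV (G : ℝ × ℝ → ℝ × ℝ) (n : ℕ) : Set (ℝ × ℝ) :=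
  {z | ∀ h : ℝ, |h| ≤ 1 / ((n : ℝ) + 1) → ‖G (z.1, z.2 + h) - G z‖ ≤ (n + 1) * |h|}

/-- Points with a horizontal Lipschitz bound. -/
def HH (G : ℝ × ℝ → ℝ × ℝ) (n : ℕ) : Set (ℝ × ℝ) :=
  {z | ∀ h : ℝ, |h| ≤ 1 / ((n : ℝ) + 1) → ‖G (z.1 + h, z.2) - G z‖ ≤ (n + 1) * |h|}

lemma VV_closed {G : ℝ × ℝ → ℝ × ℝ} (hG : Continuous G) (n : ℕ) : IsClosed (VV G n) := by
  have e : VV G n = ⋂ h : ℝ, ⋂ _ : |h| ≤ 1 / ((n : ℝ) + 1),
      {z | ‖G (z.1, z.2 + h) - G z‖ ≤ (n + 1) * |h|} := by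
    ext z
    simp [VV]
  rw [e]
  apply isClosed_iInter
  intro h
  apply isClosed_iInter
  intro _
  exact isClosed_le (by fun_prop) continuous_const

lemma VV_mono (G : ℝ × ℝ → ℝ × ℝ) {n m : ℕ} (h : n ≤ m) : VV G n ⊆ VV G m := by
  intro z hz t ht
  have h1 : (n : ℝ) ≤ m := by exact_mod_cast h
  have h2 : (1 : ℝ) / (m + 1) ≤ 1 / (n + 1) :=
    one_div_le_one_div_of_le (by positivity) (by linarith)
  refine (hz t (ht.trans h2)).trans ?_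
  apply mul_le_mul_of_nonneg_right (by linarith) (abs_nonneg t)

lemma HH_eq_swap (G : ℝ × ℝ → ℝ × ℝ) (n : ℕ) : HH G n = Prod.swap ⁻¹' (VV (G ∘ Prod.swap) n) := by
  ext z
  simp [HH, VV]

lemma HH_closed {G : ℝ × ℝ → ℝ × ℝ} (hG : Continuous G) (n : ℕ) : IsClosed (HH G n) := by
  rw [HH_eq_swap]
  exact (VV_closed (hG.comp continuous_swap) n).preimage continuous_swap

lemma HH_mono (G : ℝ × ℝ → ℝ × ℝ) {n m : ℕ} (h : n ≤ m) : HH G n ⊆ HH G m := by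
  rw [HH_eq_swap, HH_eq_swap]
  exact preimage_mono (VV_mono _ h)

lemma ae_swap {p : ℝ × ℝ → Prop} (h : ∀ᵐ z : ℝ × ℝ, p z) : ∀ᵐ z : ℝ × ℝ, p z.swap := by
  have h1 : MeasurePreserving (Prod.swap : ℝ × ℝ → ℝ × ℝ) volume volume :=
    Measure.measurePreserving_swap
  exact h1.quasiMeasurePreserving.ae h

lemma ae_vertical {G : ℝ × ℝ → ℝ × ℝ} (hG : Continuous G) {Q : Set (ℝ × ℝ)} (hQ : IsOpen Q)
    (hv : ∀ x, ∀ᵐ y : ℝ, (x, y) ∈ Q → DifferentiableAt ℝ (fun s => G (x, s)) y) :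
    ∀ᵐ z : ℝ × ℝ, z ∈ Q → ∃ n, z ∈ VV G n := by
  have hmeas : MeasurableSet (Q \ ⋃ n, VV G n) :=
    hQ.measurableSet.diff (MeasurableSet.iUnion fun n => (VV_closed hG n).measurableSet)
  have hnull : volume (Q \ ⋃ n, VV G n) = 0 := by
    rw [Measure.volume_eq_prod, Measure.measure_prod_null hmeas]
    refine Eventually.of_forall fun x => ?_
    change volume (Prod.mk x ⁻¹' (Q \ ⋃ n, VV G n)) = 0
    refine measure_mono_null ?_ (hv x)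
    intro y hy
    obtain ⟨hyQ, hyn⟩ := hy
    simp only [mem_compl_iff, mem_ofPred_eq, Classical.not_imp]
    refine ⟨hyQ, fun hd => hyn ?_⟩
    obtain ⟨C, hC⟩ := hd.isBigO_sub.bound
    obtain ⟨δ, hδ, hball⟩ := Metric.eventually_nhds_iff.1 hC
    obtain ⟨n1, hn1⟩ := exists_nat_ge C
    obtain ⟨n2, hn2⟩ := exists_nat_one_div_lt hδ
    refine mem_iUnion.2 ⟨max n1 n2, fun h hh => ?_⟩
    have h1 : (n1 : ℝ) ≤ (max n1 n2 : ℕ) := by exact_mod_cast le_max_left _ _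
    have h2 : (n2 : ℝ) ≤ (max n1 n2 : ℕ) := by exact_mod_cast le_max_right _ _
    have h3 : |h| < δ := by
      refine lt_of_le_of_lt hh (lt_of_le_of_lt ?_ hn2)
      exact one_div_le_one_div_of_le (by positivity) (by linarith)
    have h4 := hball (y := y + h) (by rw [Real.dist_eq, add_sub_cancel_left]; exact h3)
    rw [add_sub_cancel_left, Real.norm_eq_abs] at h4
    refine h4.trans ?_
    apply mul_le_mul_of_nonneg_right _ (abs_nonneg h)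
    linarith
  rw [measure_eq_zero_iff_ae_notMem] at hnull
  filter_upwards [hnull] with z hz hzQ
  by_contra hcon
  exact hz ⟨hzQ, fun h => hcon (mem_iUnion.1 h)⟩

lemma ae_horizontal {G : ℝ × ℝ → ℝ × ℝ} (hG : Continuous G) {Q : Set (ℝ × ℝ)} (hQ : IsOpen Q)
    (hh : ∀ y, ∀ᵐ x : ℝ, (x, y) ∈ Q → DifferentiableAt ℝ (fun s => G (s, y)) x) :
    ∀ᵐ z : ℝ × ℝ, z ∈ Q → ∃ n, z ∈ HH G n := by
  have h1 := ae_vertical (G := G ∘ Prod.swap) (Q := Prod.swap ⁻¹' Q) (hG.comp continuous_swap)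
    (hQ.preimage continuous_swap) hh
  filter_upwards [ae_swap h1] with z hz hzQ
  obtain ⟨n, hn⟩ := hz (by simpa using hzQ)
  refine ⟨n, ?_⟩
  rw [HH_eq_swap]
  exact hn

lemma shift_closed {F : Set (ℝ × ℝ)} (hF : IsClosed F) (a b σ : ℝ) :
    IsClosed {z : ℝ × ℝ | ∃ s ∈ Icc a b, (z.1, z.2 + σ * s) ∈ F} := by
  have hK : IsCompact ((fun s : ℝ => ((0 : ℝ), -(σ * s))) '' Icc a b) :=
    isCompact_Icc.image (by fun_prop)
  have h := hF.add_right_of_isCompact hK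
  convert h using 1
  ext z
  rw [Set.mem_add]
  constructor
  · rintro ⟨s, hs, hz⟩
    refine ⟨_, hz, _, ⟨s, hs, rfl⟩, ?_⟩
    ext <;> simp
  · rintro ⟨x, hx, _, ⟨s, hs, rfl⟩, rfl⟩
    refine ⟨s, hs, ?_⟩
    simpa using hx

lemma density_vertical {F : Set (ℝ × ℝ)} (hF : IsClosed F) : ∀ᵐ z : ℝ × ℝ, z ∈ F →
    ∃ J : ℕ, ∀ j ≥ J,
    (∃ s ∈ Icc ((1 / 2 : ℝ) ^ j) (3 * (1 / 2) ^ j), (z.1, z.2 + s) ∈ F) ∧
    (∃ s ∈ Icc ((1 / 2 : ℝ) ^ j) (3 * (1 / 2) ^ j), (z.1, z.2 - s) ∈ F) := by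
  let P : ℕ → Set (ℝ × ℝ) := fun j =>
    {z : ℝ × ℝ | ∃ s ∈ Icc ((1 / 2 : ℝ) ^ j) (3 * (1 / 2) ^ j), (z.1, z.2 + 1 * s) ∈ F} ∩
    {z : ℝ × ℝ | ∃ s ∈ Icc ((1 / 2 : ℝ) ^ j) (3 * (1 / 2) ^ j), (z.1, z.2 + (-1) * s) ∈ F}
  have hP : ∀ j, IsClosed (P j) := fun j => (shift_closed hF _ _ _).inter (shift_closed hF _ _ _)
  have hPiff : ∀ j z, z ∈ P j ↔
      (∃ s ∈ Icc ((1 / 2 : ℝ) ^ j) (3 * (1 / 2) ^ j), (z.1, z.2 + s) ∈ F) ∧
      (∃ s ∈ Icc ((1 / 2 : ℝ) ^ j) (3 * (1 / 2) ^ j), (z.1, z.2 - s) ∈ F) := by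
    intro j z
    simp only [P, mem_inter_iff, mem_ofPred_eq, one_mul, neg_mul, ← sub_eq_add_neg]
  let A : Set (ℝ × ℝ) := ⋃ J : ℕ, ⋂ j : ℕ, ⋂ _ : J ≤ j, P j
  have hA : MeasurableSet A := by
    apply MeasurableSet.iUnion
    intro J
    apply MeasurableSet.iInter
    intro j
    apply MeasurableSet.iInter
    intro _
    exact (hP j).measurableSet
  have hAiff : ∀ z, z ∈ A ↔ ∃ J : ℕ, ∀ j ≥ J,
    (∃ s ∈ Icc ((1 / 2 : ℝ) ^ j) (3 * (1 / 2) ^ j), (z.1, z.2 + s) ∈ F) ∧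
    (∃ s ∈ Icc ((1 / 2 : ℝ) ^ j) (3 * (1 / 2) ^ j), (z.1, z.2 - s) ∈ F) := by
    intro z
    simp only [A, mem_iUnion, mem_iInter, hPiff]
  have hmeas : MeasurableSet (F \ A) := hF.measurableSet.diff hA
  have hnull : volume (F \ A) = 0 := by
    rw [Measure.volume_eq_prod, Measure.measure_prod_null hmeas]
    refine Eventually.of_forall fun x => ?_
    change volume (Prod.mk x ⁻¹' (F \ A)) = 0
    have hsl : MeasurableSet (Prod.mk x ⁻¹' F) := measurable_prodMk_left hF.measurableSet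
    refine measure_mono_null ?_ (density_one hsl)
    intro y hy
    obtain ⟨hyF, hyA⟩ := hy
    simp only [mem_compl_iff, mem_ofPred_eq, Classical.not_imp]
    refine ⟨hyF, fun hcon => hyA ?_⟩
    rw [hAiff]
    exact hcon
  rw [measure_eq_zero_iff_ae_notMem] at hnull
  filter_upwards [hnull] with z hz hzF
  by_contra hcon
  exact hz ⟨hzF, fun h => hcon ((hAiff z).1 h)⟩

lemma density_horizontal {F : Set (ℝ × ℝ)} (hF : IsClosed F) : ∀ᵐ z : ℝ × ℝ, z ∈ F →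
    ∃ J : ℕ, ∀ j ≥ J,
    (∃ s ∈ Icc ((1 / 2 : ℝ) ^ j) (3 * (1 / 2) ^ j), (z.1 + s, z.2) ∈ F) ∧
    (∃ s ∈ Icc ((1 / 2 : ℝ) ^ j) (3 * (1 / 2) ^ j), (z.1 - s, z.2) ∈ F) := by
  have h1 := density_vertical (F := Prod.swap ⁻¹' F) (hF.preimage continuous_swap)
  filter_upwards [ae_swap h1] with z hz hzF
  exact hz (by simpa using hzF)

/-- The maximum principle for maps that are open on an open set `Q`. -/
lemma max_principle {G : ℝ × ℝ → ℝ × ℝ} (hG : Continuous G) {Q : Set (ℝ × ℝ)}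
    (hopen : ∀ U ⊆ Q, IsOpen U → IsOpen (G '' U)) {x1 x2 y1 y2 : ℝ}
    (hR : Icc x1 x2 ×ˢ Icc y1 y2 ⊆ Q) {q : ℝ × ℝ} {M : ℝ}
    (hb : ∀ w ∈ Icc x1 x2 ×ˢ Icc y1 y2, (w.1 = x1 ∨ w.1 = x2 ∨ w.2 = y1 ∨ w.2 = y2) →
      ‖G w - q‖ ≤ M) : ∀ w ∈ Icc x1 x2 ×ˢ Icc y1 y2, ‖G w - q‖ ≤ M := by
  intro w hw
  have hcomp : IsCompact (Icc x1 x2 ×ˢ Icc y1 y2 : Set (ℝ × ℝ)) := isCompact_Icc.prod isCompact_Icc
  obtain ⟨v, hv, hmax⟩ := hcomp.exists_isMaxOn ⟨w, hw⟩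
    (f := fun z => ‖G z - q‖) (by fun_prop)
  have hwv : ‖G w - q‖ ≤ ‖G v - q‖ := hmax hw
  refine hwv.trans ?_
  by_cases hbd : v.1 = x1 ∨ v.1 = x2 ∨ v.2 = y1 ∨ v.2 = y2
  · exact hb v hv hbd
  · exfalso
    push Not at hbd
    obtain ⟨h1, h2, h3, h4⟩ := hbd
    have hvi : v ∈ Ioo x1 x2 ×ˢ Ioo y1 y2 :=
      ⟨⟨lt_of_le_of_ne hv.1.1 h1.symm, lt_of_le_of_ne hv.1.2 h2⟩,
        ⟨lt_of_le_of_ne hv.2.1 h3.symm, lt_of_le_of_ne hv.2.2 h4⟩⟩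
    have hsub : Ioo x1 x2 ×ˢ Ioo y1 y2 ⊆ Icc x1 x2 ×ˢ Icc y1 y2 :=
      prod_mono Ioo_subset_Icc_self Ioo_subset_Icc_self
    have hop : IsOpen (G '' (Ioo x1 x2 ×ˢ Ioo y1 y2)) :=
      hopen _ (hsub.trans hR) (isOpen_Ioo.prod isOpen_Ioo)
    have hincl : G '' (Ioo x1 x2 ×ˢ Ioo y1 y2) ⊆ Metric.closedBall q ‖G v - q‖ := by
      rintro _ ⟨z, hz, rfl⟩
      rw [mem_closedBall_iff_norm]
      exact hmax (hsub hz)
    have hmem : G v ∈ interior (Metric.closedBall q ‖G v - q‖) :=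
      interior_maximal hincl hop ⟨v, hvi, rfl⟩
    rw [interior_closedBall', mem_ball_iff_norm] at hmem
    exact lt_irrefl _ hmem

/-- Local Lipschitz bound at density points. -/
lemma local_bound {G : ℝ × ℝ → ℝ × ℝ} (hG : Continuous G) {Q : Set (ℝ × ℝ)} (hQ : IsOpen Q)
    (hopen : ∀ U ⊆ Q, IsOpen U → IsOpen (G '' U)) {n : ℕ} {z : ℝ × ℝ} (hz : z ∈ Q)
    (hzH : z ∈ HH G n) (hzV : z ∈ VV G n)
    (hd1 : ∃ J : ℕ, ∀ j ≥ J,
      (∃ s ∈ Icc ((1 / 2 : ℝ) ^ j) (3 * (1 / 2) ^ j), (z.1, z.2 + s) ∈ HH G n) ∧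
      (∃ s ∈ Icc ((1 / 2 : ℝ) ^ j) (3 * (1 / 2) ^ j), (z.1, z.2 - s) ∈ HH G n))
    (hd2 : ∃ J : ℕ, ∀ j ≥ J,
      (∃ s ∈ Icc ((1 / 2 : ℝ) ^ j) (3 * (1 / 2) ^ j), (z.1 + s, z.2) ∈ VV G n) ∧
      (∃ s ∈ Icc ((1 / 2 : ℝ) ^ j) (3 * (1 / 2) ^ j), (z.1 - s, z.2) ∈ VV G n)) :
    ∃ C : ℝ, ∀ᶠ w in 𝓝 z, ‖G w - G z‖ ≤ C * ‖w - z‖ := by
  obtain ⟨J1, hJ1⟩ := hd1
  obtain ⟨J2, hJ2⟩ := hd2
  obtain ⟨δ, hδ, hball⟩ := Metric.isOpen_iff.1 hQ z hz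
  have hnpos : (0 : ℝ) < 1 / ((n : ℝ) + 1) := by positivity
  obtain ⟨J3, hJ3⟩ := exists_pow_lt_of_lt_one
    (by positivity : 0 < min (1 / ((n : ℝ) + 1)) δ / 3) (by norm_num : (1 / 2 : ℝ) < 1)
  let J := max (max J1 J2) J3
  refine ⟨12 * (n + 1), ?_⟩
  have hnb : Metric.ball z ((1 / 2 : ℝ) ^ (J + 1)) ∈ 𝓝 z := Metric.ball_mem_nhds _ (by positivity)
  filter_upwards [hnb] with w hw
  rw [mem_ball_iff_norm] at hw
  by_cases hwz : w = z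
  · subst hwz; simp
  have hρ : 0 < ‖w - z‖ := norm_pos_iff.2 (sub_ne_zero.2 hwz)
  -- choose the dyadic scale
  obtain ⟨k, hk1, hk2⟩ := exists_nat_pow_near_of_lt_one hρ
    (hw.le.trans (pow_le_one₀ (by norm_num) (by norm_num))) (by norm_num : (0 : ℝ) < 1 / 2)
    (by norm_num : (1 / 2 : ℝ) < 1)
  have hkJ : J ≤ k := by
    by_contra hcon
    rw [not_le] at hcon
    have h1 : (1 / 2 : ℝ) ^ (J + 1) ≤ (1 / 2) ^ (k + 1) :=
      pow_le_pow_of_le_one (by norm_num) (by norm_num) (by omega)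
    linarith
  have hkJ1 : k ≥ J1 := (le_max_left _ _).trans ((le_max_left _ _).trans hkJ)
  have hkJ2 : k ≥ J2 := (le_max_right _ _).trans ((le_max_left _ _).trans hkJ)
  have hkJ3 : J3 ≤ k := (le_max_right _ _).trans hkJ
  obtain ⟨⟨s1, hs1, hs1'⟩, ⟨s2, hs2, hs2'⟩⟩ := hJ1 k hkJ1
  obtain ⟨⟨t1, ht1, ht1'⟩, ⟨t2, ht2, ht2'⟩⟩ := hJ2 k hkJ2
  set r := (1 / 2 : ℝ) ^ k with hr
  have hr0 : 0 < r := by positivity
  have hr3 : r < min (1 / ((n : ℝ) + 1)) δ / 3 :=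
    lt_of_le_of_lt (pow_le_pow_of_le_one (by norm_num) (by norm_num) hkJ3) hJ3
  have hr3' : 3 * r < 1 / ((n : ℝ) + 1) := by
    have := min_le_left (1 / ((n : ℝ) + 1)) δ
    linarith
  have hr3'' : 3 * r < δ := by
    have := min_le_right (1 / ((n : ℝ) + 1)) δ
    linarith
  have hR : Icc (z.1 - t2) (z.1 + t1) ×ˢ Icc (z.2 - s2) (z.2 + s1) ⊆ Q := by
    rintro v ⟨hv1, hv2⟩
    apply hball
    rw [mem_ball_iff_norm, Prod.norm_def, max_lt_iff]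
    constructor
    · rw [Prod.fst_sub, Real.norm_eq_abs, abs_lt]
      constructor <;> linarith [hv1.1, hv1.2, ht1.1, ht1.2, ht2.1, ht2.2]
    · rw [Prod.snd_sub, Real.norm_eq_abs, abs_lt]
      constructor <;> linarith [hv2.1, hv2.2, hs1.1, hs1.2, hs2.1, hs2.2]
  have hbound : ∀ v ∈ Icc (z.1 - t2) (z.1 + t1) ×ˢ Icc (z.2 - s2) (z.2 + s1),
      (v.1 = z.1 - t2 ∨ v.1 = z.1 + t1 ∨ v.2 = z.2 - s2 ∨ v.2 = z.2 + s1) →
      ‖G v - G z‖ ≤ 6 * (n + 1) * r := by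
    rintro ⟨v1, v2⟩ ⟨hv1, hv2⟩ hv
    simp only at hv1 hv2 hv
    have hn0 : (0 : ℝ) ≤ (n : ℝ) + 1 := by positivity
    have hv1' : |v1 - z.1| ≤ 3 * r := by
      rw [abs_le]
      constructor <;> linarith [hv1.1, hv1.2, ht1.1, ht1.2, ht2.1, ht2.2]
    have hv2' : |v2 - z.2| ≤ 3 * r := by
      rw [abs_le]
      constructor <;> linarith [hv2.1, hv2.2, hs1.1, hs1.2, hs2.1, hs2.2]
    -- horizontal move at height `z.2`, then vertical; or the other way round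
    have hcase1 : (v1, z.2) ∈ VV G n → ‖G (v1, v2) - G z‖ ≤ 6 * (n + 1) * r := by
      intro h
      have a1 := h (v2 - z.2) (hv2'.trans hr3'.le)
      have a2 := hzH (v1 - z.1) (hv1'.trans hr3'.le)
      simp only [add_sub_cancel] at a1 a2
      have e : G (v1, v2) - G z = (G (v1, v2) - G (v1, z.2)) + (G (v1, z.2) - G z) := by abel
      rw [e]
      refine (norm_add_le _ _).trans ?_
      have b1 := mul_le_mul_of_nonneg_left hv2' hn0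
      have b2 := mul_le_mul_of_nonneg_left hv1' hn0
      linarith
    have hcase2 : (z.1, v2) ∈ HH G n → ‖G (v1, v2) - G z‖ ≤ 6 * (n + 1) * r := by
      intro h
      have a1 := h (v1 - z.1) (hv1'.trans hr3'.le)
      have a2 := hzV (v2 - z.2) (hv2'.trans hr3'.le)
      simp only [add_sub_cancel] at a1 a2
      have e : G (v1, v2) - G z = (G (v1, v2) - G (z.1, v2)) + (G (z.1, v2) - G z) := by abel
      rw [e]
      refine (norm_add_le _ _).trans ?_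
      have b1 := mul_le_mul_of_nonneg_left hv2' hn0
      have b2 := mul_le_mul_of_nonneg_left hv1' hn0
      linarith
    rcases hv with rfl | rfl | rfl | rfl
    · exact hcase1 ht2'
    · exact hcase1 ht1'
    · exact hcase2 hs2'
    · exact hcase2 hs1'
  have hwR : w ∈ Icc (z.1 - t2) (z.1 + t1) ×ˢ Icc (z.2 - s2) (z.2 + s1) := by
    have hw1 : |w.1 - z.1| ≤ ‖w - z‖ := by
      rw [Prod.norm_def]; exact le_max_left _ _
    have hw2 : |w.2 - z.2| ≤ ‖w - z‖ := by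
      rw [Prod.norm_def]; exact le_max_right _ _
    rw [abs_le] at hw1 hw2
    constructor
    · constructor <;> linarith [hw1.1, hw1.2, ht1.1, ht2.1]
    · constructor <;> linarith [hw2.1, hw2.2, hs1.1, hs2.1]
  have hfin := max_principle hG hopen hR hbound w hwR
  refine hfin.trans ?_
  rw [pow_succ] at hk1
  have hn0 : (0 : ℝ) ≤ (n : ℝ) + 1 := by positivity
  nlinarith

/-- The Gehring-Lehto theorem. -/
theorem gehring_lehto {G : ℝ × ℝ → ℝ × ℝ} (hG : Continuous G) {Q : Set (ℝ × ℝ)} (hQ : IsOpen Q)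
    (hopen : ∀ U ⊆ Q, IsOpen U → IsOpen (G '' U))
    (hv : ∀ x, ∀ᵐ y : ℝ, (x, y) ∈ Q → DifferentiableAt ℝ (fun s => G (x, s)) y)
    (hh : ∀ y, ∀ᵐ x : ℝ, (x, y) ∈ Q → DifferentiableAt ℝ (fun s => G (s, y)) x) :
    ∀ᵐ z : ℝ × ℝ, z ∈ Q → DifferentiableAt ℝ G z := by
  have h1 := ae_vertical hG hQ hv
  have h2 := ae_horizontal hG hQ hh
  have h3 : ∀ᵐ z : ℝ × ℝ, ∀ n : ℕ, z ∈ HH G n → ∃ J : ℕ, ∀ j ≥ J,
      (∃ s ∈ Icc ((1 / 2 : ℝ) ^ j) (3 * (1 / 2) ^ j), (z.1, z.2 + s) ∈ HH G n) ∧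
      (∃ s ∈ Icc ((1 / 2 : ℝ) ^ j) (3 * (1 / 2) ^ j), (z.1, z.2 - s) ∈ HH G n) := by
    rw [ae_all_iff]
    exact fun n => density_vertical (HH_closed hG n)
  have h4 : ∀ᵐ z : ℝ × ℝ, ∀ n : ℕ, z ∈ VV G n → ∃ J : ℕ, ∀ j ≥ J,
      (∃ s ∈ Icc ((1 / 2 : ℝ) ^ j) (3 * (1 / 2) ^ j), (z.1 + s, z.2) ∈ VV G n) ∧
      (∃ s ∈ Icc ((1 / 2 : ℝ) ^ j) (3 * (1 / 2) ^ j), (z.1 - s, z.2) ∈ VV G n) := by
    rw [ae_all_iff]
    exact fun n => density_horizontal (VV_closed hG n)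
  have hs1 := stepanov (volume : Measure (ℝ × ℝ)) (f := fun z => (G z).1) (by fun_prop)
  have hs2 := stepanov (volume : Measure (ℝ × ℝ)) (f := fun z => (G z).2) (by fun_prop)
  filter_upwards [h1, h2, h3, h4, hs1, hs2] with z hz1 hz2 hz3 hz4 hz5 hz6 hzQ
  obtain ⟨n1, hn1⟩ := hz1 hzQ
  obtain ⟨n2, hn2⟩ := hz2 hzQ
  have hV : z ∈ VV G (max n1 n2) := VV_mono G (le_max_left _ _) hn1
  have hH : z ∈ HH G (max n1 n2) := HH_mono G (le_max_right _ _) hn2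
  obtain ⟨C, hC⟩ := local_bound hG hQ hopen hzQ hH hV (hz3 _ hH) (hz4 _ hV)
  have d1 : DifferentiableAt ℝ (fun z => (G z).1) z := by
    apply hz5
    refine ⟨C, ?_⟩
    filter_upwards [hC] with w hw
    refine le_trans ?_ hw
    rw [← Prod.fst_sub, ← Real.norm_eq_abs, Prod.norm_def]
    exact le_max_left _ _
  have d2 : DifferentiableAt ℝ (fun z => (G z).2) z := by
    apply hz6
    refine ⟨C, ?_⟩
    filter_upwards [hC] with w hw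
    refine le_trans ?_ hw
    rw [← Prod.snd_sub, ← Real.norm_eq_abs, Prod.norm_def]
    exact le_max_right _ _
  exact d1.prodMk d2

end Pool.Agent.Lib.MP_bd3523_gt
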