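import Mathlib
import Pool.Agent.Lib.MP_bd3523_gt.Defs
import Pool.Agent.Lib.MP_bd3523_gt.GehringLehto
import Pool.Agent.Lib.MP_bd3523_gt.CurveBV

/-!
Elements of `Homeo^1(S)` are differentiable almost everywhere.
-/

open Topology Filter Set MeasureTheory
open scoped NNReal ENNReal Manifold ContDiff

namespace Pool.Agent.Lib.MP_bd3523_gt

section planar

lemma mem_closedBall_iff {z0 z : ℝ × ℝ} {r : ℝ} :
    z ∈ Metric.closedBall z0 r ↔ z.1 ∈ Icc (z0.1 - r) (z0.1 + r) ∧ z.2 ∈ Icc (z0.2 - r) (z0.2 + r) := by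
  rw [← Real.closedBall_eq_Icc, ← Real.closedBall_eq_Icc, Metric.mem_closedBall, Prod.dist_eq,
    max_le_iff, Metric.mem_closedBall, Metric.mem_closedBall]

lemma mem_ball_iff' {z0 z : ℝ × ℝ} {r : ℝ} :
    z ∈ Metric.ball z0 r ↔ z.1 ∈ Ioo (z0.1 - r) (z0.1 + r) ∧ z.2 ∈ Ioo (z0.2 - r) (z0.2 + r) := by
  rw [← Real.ball_eq_Ioo, ← Real.ball_eq_Ioo, Metric.mem_ball, Prod.dist_eq,
    max_lt_iff, Metric.mem_ball, Metric.mem_ball]

/-- Truncation to `[a - r, a + r]`. -/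
noncomputable def cl1 (a r x : ℝ) : ℝ := max (a - r) (min x (a + r))

lemma cl1_mem {a r : ℝ} (hr : 0 < r) (x : ℝ) : cl1 a r x ∈ Icc (a - r) (a + r) :=
  ⟨le_max_left _ _, max_le (by linarith) (min_le_right _ _)⟩

lemma cl1_eq {a r x : ℝ} (hx : x ∈ Icc (a - r) (a + r)) : cl1 a r x = x := by
  unfold cl1
  rw [min_eq_left hx.2, max_eq_right hx.1]

lemma cl1_continuous (a r : ℝ) : Continuous (cl1 a r) := by
  unfold cl1; fun_prop

/-- A one-dimensional path of finite length is differentiable almost everywhere. -/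
lemma ae_diff_path {g : ℝ → ℝ × ℝ} {a b : ℝ} (hab : a ≤ b) (hg : ContinuousOn g (Icc a b))
    (hinj : InjOn g (Icc a b)) (hfin : Measure.hausdorffMeasure 1 (g '' Icc a b) < ⊤) :
    ∀ᵐ x, x ∈ Ioo a b → DifferentiableAt ℝ g x := by
  have h1 : BoundedVariationOn g (uIcc a b) := by
    rw [uIcc_of_le hab]
    exact ((eVariationOn_le_hausdorff hg hinj).trans_lt hfin).ne
  filter_upwards [h1.ae_differentiableAt_of_mem_uIcc] with x hx hxm
  apply hx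
  rw [uIcc_of_le hab]
  exact Ioo_subset_Icc_self hxm

lemma ae_diff_of_segments {g : ℝ × ℝ → ℝ × ℝ} {z0 : ℝ × ℝ} {r : ℝ} (hr : 0 < r)
    (hc : ContinuousOn g (Metric.closedBall z0 r)) (hi : InjOn g (Metric.closedBall z0 r))
    (ho : ∀ U ⊆ Metric.ball z0 r, IsOpen U → IsOpen (g '' U))
    (hH : ∀ y ∈ Icc (z0.2 - r) (z0.2 + r),
      Measure.hausdorffMeasure 1 ((fun s => g (s, y)) '' Icc (z0.1 - r) (z0.1 + r)) < ⊤)
    (hV : ∀ x ∈ Icc (z0.1 - r) (z0.1 + r),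
      Measure.hausdorffMeasure 1 ((fun s => g (x, s)) '' Icc (z0.2 - r) (z0.2 + r)) < ⊤) :
    ∀ᵐ z, z ∈ Metric.ball z0 r → DifferentiableAt ℝ g z := by
  set G : ℝ × ℝ → ℝ × ℝ := fun z => g (cl1 z0.1 r z.1, cl1 z0.2 r z.2) with hGdef
  have hGc : Continuous G := by
    have h1 : Continuous fun z : ℝ × ℝ => (cl1 z0.1 r z.1, cl1 z0.2 r z.2) :=
      ((cl1_continuous _ _).comp continuous_fst).prodMk ((cl1_continuous _ _).comp continuous_snd)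
    exact hc.comp_continuous h1 fun z => mem_closedBall_iff.2 ⟨cl1_mem hr _, cl1_mem hr _⟩
  have hGeq : ∀ z ∈ Metric.ball z0 r, G z = g z := by
    intro z hz
    obtain ⟨h1, h2⟩ := mem_ball_iff'.1 hz
    simp only [hGdef]
    rw [cl1_eq (Ioo_subset_Icc_self h1), cl1_eq (Ioo_subset_Icc_self h2)]
  have key := gehring_lehto hGc (Metric.isOpen_ball (x := z0) (ε := r)) ?_ ?_ ?_
  · filter_upwards [key] with z hz hzm
    refine (hz hzm).congr_of_eventuallyEq ?_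
    filter_upwards [Metric.isOpen_ball.mem_nhds hzm] with w hw
    exact (hGeq w hw).symm
  · intro U hU hUo
    have : G '' U = g '' U := image_congr fun z hz => hGeq z (hU hz)
    rw [this]
    exact ho U hU hUo
  · intro x
    by_cases hx : x ∈ Ioo (z0.1 - r) (z0.1 + r)
    · have hx' := Ioo_subset_Icc_self hx
      have h1 : ContinuousOn (fun s => g (x, s)) (Icc (z0.2 - r) (z0.2 + r)) :=
        hc.comp (by fun_prop) fun s hs => mem_closedBall_iff.2 ⟨hx', hs⟩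
      have h2 : InjOn (fun s => g (x, s)) (Icc (z0.2 - r) (z0.2 + r)) := by
        intro s hs t ht hst
        have := hi (mem_closedBall_iff.2 ⟨hx', hs⟩) (mem_closedBall_iff.2 ⟨hx', ht⟩) hst
        exact congrArg Prod.snd this
      filter_upwards [ae_diff_path (by linarith) h1 h2 (hV x hx')] with y hy hym
      have hy' := (mem_ball_iff'.1 hym).2
      refine (hy hy').congr_of_eventuallyEq ?_
      filter_upwards [isOpen_Ioo.mem_nhds hy'] with s hs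
      exact hGeq (x, s) (mem_ball_iff'.2 ⟨hx, hs⟩)
    · refine Eventually.of_forall fun y hym => ?_
      exact absurd (mem_ball_iff'.1 hym).1 hx
  · intro y
    by_cases hy : y ∈ Ioo (z0.2 - r) (z0.2 + r)
    · have hy' := Ioo_subset_Icc_self hy
      have h1 : ContinuousOn (fun s => g (s, y)) (Icc (z0.1 - r) (z0.1 + r)) :=
        hc.comp (by fun_prop) fun s hs => mem_closedBall_iff.2 ⟨hs, hy'⟩
      have h2 : InjOn (fun s => g (s, y)) (Icc (z0.1 - r) (z0.1 + r)) := by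
        intro s hs t ht hst
        have := hi (mem_closedBall_iff.2 ⟨hs, hy'⟩) (mem_closedBall_iff.2 ⟨ht, hy'⟩) hst
        exact congrArg Prod.fst this
      filter_upwards [ae_diff_path (by linarith) h1 h2 (hH y hy')] with x hx hxm
      have hx' := (mem_ball_iff'.1 hxm).1
      refine (hx hx').congr_of_eventuallyEq ?_
      filter_upwards [isOpen_Ioo.mem_nhds hx'] with s hs
      exact hGeq (s, y) (mem_ball_iff'.2 ⟨hs, hy⟩)
    · refine Eventually.of_forall fun x hxm => ?_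
      exact absurd (mem_ball_iff'.1 hxm).2 hy

end planar

variable {S : Type*} [TopologicalSpace S] [ChartedSpace (ℝ × ℝ) S]

lemma isC1Curve_symm_comp {φ : OpenPartialHomeomorph S (ℝ × ℝ)}
    (hφ : φ ∈ IsManifold.maximalAtlas 𝓘(ℝ, ℝ × ℝ) ∞ S) {c : ℝ → ℝ × ℝ} (hc : ContDiff ℝ 1 c)
    (hd : ∀ t, deriv c t ≠ 0) (hinj : ∀ s t, c s = c t ↔ ∃ n : ℤ, t = s + n)
    (hmem : ∀ t, c t ∈ φ.target) : IsC1Curve (range fun t => φ.symm (c t)) := by
  have h1 : ContMDiffOn 𝓘(ℝ, ℝ × ℝ) 𝓘(ℝ, ℝ × ℝ) 1 φ.symm φ.target :=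
    (contMDiffOn_symm_of_mem_maximalAtlas hφ).of_le (by norm_num)
  have h2 : ContMDiff 𝓘(ℝ, ℝ) 𝓘(ℝ, ℝ × ℝ) 1 (fun t => φ.symm (c t)) :=
    h1.comp_contMDiff hc.contMDiff hmem
  refine ⟨_, h2, fun s t => ?_, fun t h0 => hd t ?_, rfl⟩
  · rw [← hinj]
    exact φ.symm.injOn.eq_iff (hmem s) (hmem t)
  · have h3 : MDifferentiableAt 𝓘(ℝ, ℝ × ℝ) 𝓘(ℝ, ℝ × ℝ) φ (φ.symm (c t)) :=
      (contMDiffAt_of_mem_maximalAtlas hφ (φ.map_target (hmem t))).mdifferentiableAt (by simp)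
    have h4 : mfderiv 𝓘(ℝ, ℝ) 𝓘(ℝ, ℝ × ℝ) (φ ∘ fun t => φ.symm (c t)) t = 0 := by
      rw [mfderiv_comp t h3 ((h2 t).mdifferentiableAt (by simp)), h0]
      exact ContinuousLinearMap.comp_zero _
    have h5 : (φ ∘ fun t => φ.symm (c t)) = c := funext fun t => φ.right_inv (hmem t)
    rw [h5, mfderiv_eq_fderiv] at h4
    rw [← fderiv_apply_one_eq_deriv]
    exact congrArg (fun L : ℝ →L[ℝ] ℝ × ℝ => L 1) h4

lemma hausdorff_chart_image_lt_top {ψ : OpenPartialHomeomorph S (ℝ × ℝ)}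
    (hψ : ψ ∈ IsManifold.maximalAtlas 𝓘(ℝ, ℝ × ℝ) ∞ S) {D : Set S} (hD : IsC1Curve D)
    (hsub : D ⊆ ψ.source) : Measure.hausdorffMeasure 1 (ψ '' D) < ⊤ := by
  obtain ⟨γ, h1, h2, h3, rfl⟩ := hD
  have h4 : ContMDiffOn 𝓘(ℝ, ℝ × ℝ) 𝓘(ℝ, ℝ × ℝ) 1 ψ ψ.source :=
    (contMDiffOn_of_mem_maximalAtlas hψ).of_le (by norm_num)
  have h5 : ContMDiff 𝓘(ℝ, ℝ) 𝓘(ℝ, ℝ × ℝ) 1 (fun t => ψ (γ t)) :=
    h4.comp_contMDiff h1 fun t => hsub ⟨t, rfl⟩
  have h6 : ContDiff ℝ 1 (fun t => ψ (γ t)) := contMDiff_iff_contDiff.1 h5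
  have h7 : ∀ t, ψ (γ (t + 1)) = ψ (γ t) := fun t => by
    congr 1
    exact ((h2 t (t + 1)).2 ⟨1, by simp⟩).symm
  rw [← range_comp]
  exact hausdorff_range_lt_top h6 h7

/-- The image of a rescaled D-curve under `f`, seen in the chart `ψ`, has finite length. -/
lemma hausdorff_curve_lt_top {f : S ≃ₜ S} (hf : IsHomeo1 f)
    {φ ψ : OpenPartialHomeomorph S (ℝ × ℝ)}
    (hφ : φ ∈ IsManifold.maximalAtlas 𝓘(ℝ, ℝ × ℝ) ∞ S)
    (hψ : ψ ∈ IsManifold.maximalAtlas 𝓘(ℝ, ℝ × ℝ) ∞ S)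
    {c : ℝ → ℝ × ℝ} (hc : ContDiff ℝ 1 c)
    (hd : ∀ t, deriv c t ≠ 0) (hinj : ∀ s t, c s = c t ↔ ∃ n : ℤ, t = s + n)
    (hmem : ∀ t, c t ∈ φ.target ∩ φ.symm ⁻¹' (f ⁻¹' ψ.source)) :
    Measure.hausdorffMeasure 1 ((fun z => ψ (f (φ.symm z))) '' (range c)) < ⊤ := by
  have h1 := (hf _ (isC1Curve_symm_comp hφ hc hd hinj fun t => (hmem t).1)).1
  have h2 : f '' (range fun t => φ.symm (c t)) ⊆ ψ.source := by
    rintro _ ⟨_, ⟨t, rfl⟩, rfl⟩
    exact (hmem t).2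
  have h3 := hausdorff_chart_image_lt_top hψ h1 h2
  have e : ψ '' (f '' (range fun t => φ.symm (c t))) =
      (fun z => ψ (f (φ.symm z))) '' (range c) := by
    rw [← range_comp, ← range_comp, ← range_comp]
    rfl
  rwa [e] at h3

lemma deriv_affine_ne_zero {L : (ℝ × ℝ) ≃L[ℝ] (ℝ × ℝ)} (p : ℝ × ℝ) (t : ℝ) :
    deriv (fun t => p + L (dd t)) t ≠ 0 := by
  have hd : HasDerivAt dd (deriv dd t) t :=
    ((dd_contDiff.differentiable (by norm_num)) t).hasDerivAt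
  have h1 : HasDerivAt (fun t => p + L (dd t)) (L (deriv dd t)) t :=
    (L.hasFDerivAt.comp_hasDerivAt t hd).const_add p
  rw [h1.deriv]
  intro h0
  exact dd_deriv_ne_zero t ((map_eq_zero_iff L L.injective).1 h0)

lemma affine_eq_iff {L : (ℝ × ℝ) ≃L[ℝ] (ℝ × ℝ)} (p : ℝ × ℝ) (s t : ℝ) :
    p + L (dd s) = p + L (dd t) ↔ ∃ n : ℤ, t = s + n := by
  rw [add_right_inj, L.injective.eq_iff, dd_eq_iff]

lemma affine_contDiff {L : (ℝ × ℝ) ≃L[ℝ] (ℝ × ℝ)} (p : ℝ × ℝ) :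
    ContDiff ℝ 1 (fun t => p + L (dd t)) :=
  contDiff_const.add (L.contDiff.comp dd_contDiff)

/-- Scaling by `2 * r`. -/
noncomputable def scaleL {r : ℝ} (hr : 0 < r) : (ℝ × ℝ) ≃L[ℝ] (ℝ × ℝ) :=
  ContinuousLinearEquiv.smulLeft (Units.mk0 (2 * r) (by positivity))

lemma scaleL_apply {r : ℝ} (hr : 0 < r) (v : ℝ × ℝ) : scaleL hr v = (2 * r) • v := rfl

/-- Scaling by `2 * r`, and exchanging the coordinates. -/
noncomputable def scaleS {r : ℝ} (hr : 0 < r) : (ℝ × ℝ) ≃L[ℝ] (ℝ × ℝ) :=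
  (ContinuousLinearEquiv.prodComm ℝ ℝ ℝ).trans (scaleL hr)

lemma scaleS_apply {r : ℝ} (hr : 0 < r) (v : ℝ × ℝ) : scaleS hr v = (2 * r) • (v.2, v.1) := rfl

lemma chart_local {f : S ≃ₜ S} (hf : IsHomeo1 f)
    {φ ψ : OpenPartialHomeomorph S (ℝ × ℝ)}
    (hφ : φ ∈ IsManifold.maximalAtlas 𝓘(ℝ, ℝ × ℝ) ∞ S)
    (hψ : ψ ∈ IsManifold.maximalAtlas 𝓘(ℝ, ℝ × ℝ) ∞ S) {z0 : ℝ × ℝ}
    (hz0 : z0 ∈ φ.target ∩ φ.symm ⁻¹' (f ⁻¹' ψ.source)) :
    ∃ r > 0, Metric.ball z0 r ⊆ φ.target ∩ φ.symm ⁻¹' (f ⁻¹' ψ.source) ∧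
      ∀ᵐ z, z ∈ Metric.ball z0 r → DifferentiableAt ℝ (fun z => ψ (f (φ.symm z))) z := by
  set W0 := φ.target ∩ φ.symm ⁻¹' (f ⁻¹' ψ.source) with hW0
  have hW0o : IsOpen W0 :=
    φ.symm.isOpen_inter_preimage (ψ.open_source.preimage f.continuous)
  obtain ⟨ε, hε, hεW⟩ := Metric.isOpen_iff.1 hW0o z0 hz0
  set r : ℝ := ε / 7 with hr
  have hr0 : 0 < r := by positivity
  have hsub : Metric.closedBall z0 (6 * r) ⊆ W0 :=
    (Metric.closedBall_subset_ball (by rw [hr]; linarith)).trans hεW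
  have hsub1 : Metric.closedBall z0 r ⊆ W0 :=
    (Metric.closedBall_subset_closedBall (by linarith)).trans hsub
  set g : ℝ × ℝ → ℝ × ℝ := fun z => ψ (f (φ.symm z)) with hg
  have hgc : ContinuousOn g W0 := by
    have h1 : ContinuousOn (fun z => f (φ.symm z)) W0 :=
      f.continuous.comp_continuousOn (φ.continuousOn_symm.mono inter_subset_left)
    exact ψ.continuousOn.comp h1 fun z hz => hz.2
  have hgi : InjOn g W0 := by
    intro z hz w hw hzw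
    have h1 := ψ.injOn hz.2 hw.2 hzw
    have h2 := f.injective h1
    exact φ.symm.injOn hz.1 hw.1 h2
  have hgo : ∀ U ⊆ W0, IsOpen U → IsOpen (g '' U) := by
    intro U hU hUo
    have h1 : IsOpen (φ.symm '' U) :=
      φ.symm.isOpen_image_of_subset_source hUo (hU.trans inter_subset_left)
    have h2 : IsOpen (f '' (φ.symm '' U)) := f.isOpenMap _ h1
    have h3 : f '' (φ.symm '' U) ⊆ ψ.source := by
      rintro _ ⟨_, ⟨z, hz, rfl⟩, rfl⟩
      exact (hU hz).2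
    have h4 := ψ.isOpen_image_of_subset_source h2 h3
    have e : ψ '' (f '' (φ.symm '' U)) = g '' U := by
      rw [image_image, image_image]
    rwa [e] at h4
  -- the D-curves stay in `W0`
  have hcurve : ∀ (L : (ℝ × ℝ) ≃L[ℝ] (ℝ × ℝ)) (p : ℝ × ℝ), p ∈ Metric.closedBall z0 r →
      (∀ v, ‖L v‖ ≤ 2 * r * ‖v‖) → ∀ t, p + L (dd t) ∈ W0 := by
    intro L p hp hL t
    apply hsub
    rw [Metric.mem_closedBall, dist_eq_norm]
    have h1 : ‖p - z0‖ ≤ r := by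
      rw [← dist_eq_norm]; exact hp
    have h2 : ‖L (dd t)‖ ≤ 2 * r * (9 / 4) :=
      (hL _).trans (mul_le_mul_of_nonneg_left (dd_norm_le t) (by positivity))
    calc ‖p + L (dd t) - z0‖ = ‖(p - z0) + L (dd t)‖ := by congr 1; abel
      _ ≤ ‖p - z0‖ + ‖L (dd t)‖ := norm_add_le _ _
      _ ≤ 6 * r := by linarith
  have hfin : ∀ (L : (ℝ × ℝ) ≃L[ℝ] (ℝ × ℝ)) (p : ℝ × ℝ), p ∈ Metric.closedBall z0 r →
      (∀ v, ‖L v‖ ≤ 2 * r * ‖v‖) →
      Measure.hausdorffMeasure 1 (g '' (range fun t => p + L (dd t))) < ⊤ := by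
    intro L p hp hL
    exact hausdorff_curve_lt_top hf hφ hψ (affine_contDiff p) (deriv_affine_ne_zero p)
      (affine_eq_iff p) (hcurve L p hp hL)
  have hscale : ∀ v, ‖scaleL hr0 v‖ ≤ 2 * r * ‖v‖ := by
    intro v
    rw [scaleL_apply, norm_smul, Real.norm_of_nonneg (by positivity)]
  have hscale' : ∀ v, ‖scaleS hr0 v‖ ≤ 2 * r * ‖v‖ := by
    intro v
    rw [scaleS_apply, norm_smul, Real.norm_of_nonneg (by positivity)]
    have : ‖(v.2, v.1)‖ = ‖v‖ := by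
      rw [Prod.norm_def, Prod.norm_def, max_comm]
    rw [this]
  have hseg : ∀ a s : ℝ, s ∈ Icc (a - r) (a + r) → |(s - a) / (2 * r)| ≤ 1 / 2 := by
    intro a s hs
    rw [abs_div, abs_of_pos (by positivity : (0 : ℝ) < 2 * r), div_le_iff₀ (by positivity)]
    rw [abs_le]
    constructor <;> linarith [hs.1, hs.2]
  refine ⟨r, hr0, Metric.ball_subset_closedBall.trans hsub1,
    ae_diff_of_segments hr0 (hgc.mono hsub1) (hgi.mono hsub1)
      (fun U hU hUo => hgo U ((hU.trans Metric.ball_subset_closedBall).trans hsub1) hUo) ?_ ?_⟩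
  · intro y hy
    have hp : (z0.1, y) ∈ Metric.closedBall z0 r :=
      mem_closedBall_iff.2 ⟨⟨by simp only; linarith, by simp only; linarith⟩, hy⟩
    refine lt_of_le_of_lt (measure_mono ?_) (hfin (scaleL hr0) (z0.1, y) hp hscale)
    rintro _ ⟨s, hs, rfl⟩
    obtain ⟨t, ht⟩ := dd_segment (hseg z0.1 s hs)
    refine ⟨(s, y), ⟨t, ?_⟩, rfl⟩
    simp only [scaleL_apply, ht]
    ext
    · simp only [Prod.smul_mk, Prod.mk_add_mk, smul_eq_mul]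
      field_simp
      ring
    · simp
  · intro x hx
    have hp : (x, z0.2) ∈ Metric.closedBall z0 r :=
      mem_closedBall_iff.2 ⟨hx, ⟨by simp only; linarith, by simp only; linarith⟩⟩
    refine lt_of_le_of_lt (measure_mono ?_) (hfin (scaleS hr0) (x, z0.2) hp hscale')
    rintro _ ⟨s, hs, rfl⟩
    obtain ⟨t, ht⟩ := dd_segment (hseg z0.2 s hs)
    refine ⟨(x, s), ⟨t, ?_⟩, rfl⟩
    simp only [scaleS_apply, ht]
    ext
    · simp
    · simp only [Prod.smul_mk, Prod.mk_add_mk, smul_eq_mul]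
      field_simp
      ring

/-- If `f` is differentiable in charts, it is differentiable. -/
lemma mdiff_of_chart [IsManifold 𝓘(ℝ, ℝ × ℝ) ∞ S] {f : S ≃ₜ S}
    {φ ψ : OpenPartialHomeomorph S (ℝ × ℝ)}
    (hφ : φ ∈ IsManifold.maximalAtlas 𝓘(ℝ, ℝ × ℝ) ∞ S)
    (hψ : ψ ∈ IsManifold.maximalAtlas 𝓘(ℝ, ℝ × ℝ) ∞ S) {p : S} (hp : p ∈ φ.source)
    (hfp : f p ∈ ψ.source) (hd : DifferentiableAt ℝ (fun z => ψ (f (φ.symm z))) (φ p)) :
    MDifferentiableAt 𝓘(ℝ, ℝ × ℝ) 𝓘(ℝ, ℝ × ℝ) f p := by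
  have h1 : MDifferentiableAt 𝓘(ℝ, ℝ × ℝ) 𝓘(ℝ, ℝ × ℝ) φ p :=
    (contMDiffAt_of_mem_maximalAtlas hφ hp).mdifferentiableAt (by simp)
  have h2 : MDifferentiableAt 𝓘(ℝ, ℝ × ℝ) 𝓘(ℝ, ℝ × ℝ) (fun z => ψ (f (φ.symm z))) (φ p) :=
    mdifferentiableAt_iff_differentiableAt.2 hd
  have h3 : MDifferentiableAt 𝓘(ℝ, ℝ × ℝ) 𝓘(ℝ, ℝ × ℝ) ψ.symm (ψ (f p)) :=
    (contMDiffAt_symm_of_mem_maximalAtlas hψ (ψ.map_source hfp)).mdifferentiableAt (by simp)
  have h4 : MDifferentiableAt 𝓘(ℝ, ℝ × ℝ) 𝓘(ℝ, ℝ × ℝ)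
      ((fun z => ψ (f (φ.symm z))) ∘ φ) p := h2.comp p h1
  have h5 : MDifferentiableAt 𝓘(ℝ, ℝ × ℝ) 𝓘(ℝ, ℝ × ℝ)
      (ψ.symm ∘ ((fun z => ψ (f (φ.symm z))) ∘ φ)) p := by
    apply MDifferentiableAt.comp p _ h4
    simp only [Function.comp_apply, φ.left_inv hp]
    exact h3
  refine h5.congr_of_eventuallyEq ?_
  have h6 : ∀ᶠ q in 𝓝 p, q ∈ φ.source := φ.open_source.mem_nhds hp
  have h7 : ∀ᶠ q in 𝓝 p, f q ∈ ψ.source :=
    f.continuous.continuousAt.eventually (ψ.open_source.mem_nhds hfp)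
  filter_upwards [h6, h7] with q hq hfq
  simp only [Function.comp_apply, φ.left_inv hq, ψ.left_inv hfq]

/-- The non-differentiable set of an element of `Homeo^1(S)` is null in every smooth chart. -/
theorem nonDiffSet_null [IsManifold 𝓘(ℝ, ℝ × ℝ) ∞ S] {f : S ≃ₜ S} (hf : IsHomeo1 f)
    {φ : OpenPartialHomeomorph S (ℝ × ℝ)}
    (hφ : φ ∈ IsManifold.maximalAtlas 𝓘(ℝ, ℝ × ℝ) ∞ S) :
    volume (φ '' (nonDiffSet f ∩ φ.source)) = 0 := by
  apply measure_null_of_locally_null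
  rintro _ ⟨p, ⟨hpn, hps⟩, rfl⟩
  have hψ : chartAt (ℝ × ℝ) (f p) ∈ IsManifold.maximalAtlas 𝓘(ℝ, ℝ × ℝ) ∞ S :=
    IsManifold.chart_mem_maximalAtlas _
  obtain ⟨r, hr, hrW, hae⟩ := chart_local (z0 := φ p) hf hφ hψ
    ⟨φ.map_source hps, by simp [φ.left_inv hps]⟩
  refine ⟨φ '' (nonDiffSet f ∩ φ.source) ∩ Metric.ball (φ p) r, ?_, ?_⟩
  · exact inter_mem_nhdsWithin _ (Metric.ball_mem_nhds _ hr)
  · rw [ae_iff] at hae
    refine measure_mono_null ?_ hae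
    rintro _ ⟨⟨q, ⟨hqn, hqs⟩, rfl⟩, hqb⟩
    intro himp
    apply hqn
    refine mdiff_of_chart hφ hψ hqs ?_ (himp hqb)
    have := (hrW hqb).2
    simpa [φ.left_inv hqs] using this

end Pool.Agent.Lib.MP_bd3523_gt
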